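import Pool.Agent.H211.AD.PCore
import Pool.Agent.H190.AD211.BALL
import Pool.Agent.H211.LD.Final

/-! Polynomials: the final forms. -/

set_option autoImplicit false

open Metric Set MeasureTheory Filter Topology Polynomial
open scoped OnePoint ENNReal

namespace Pool.Agent.H211.AD

open Pool.Agent.H792R2.CE Pool.Agent.H792R2 Pool.Agent.X325.EP Pool.Agent.H211.LD

theorem ce_summable {g : ℕ → ℂ} {μ : ℝ} (hμ : 1 < μ) (h : ∀ᶠ n : ℕ in atTop, μ ^ n ≤ ‖g n‖) :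
    Summable fun n => ‖g n‖⁻¹ := by
  have h1 : Summable fun n : ℕ => (μ⁻¹) ^ n :=
    summable_geometric_of_lt_one (by positivity) (inv_lt_one_of_one_lt₀ hμ)
  refine Summable.of_norm_bounded_eventually_nat h1 ?_
  filter_upwards [h] with n hn
  rw [norm_inv, norm_norm, inv_pow]
  have : 0 < μ ^ n := by positivity
  exact inv_anti₀ this hn

/-- **Directions, polynomials.** -/
theorem pdirs {A : (ℂ → ℂ) → ℂ → Prop} (hAA : A = Dyn.Attr ∨ A = Esc) {P : ℂ[X]} {d : ℕ}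
    (hd : 2 ≤ d) (hPd : P.natDegree = d)
    (hCE : ∀ c : ℂ, (wr P 1).eval c = 0 → A (rf P 1) c ∨
      ∃ μ : ℝ, 1 < μ ∧ ∀ᶠ n : ℕ in atTop, μ ^ n ≤ ‖deriv ((rf P 1)^[n]) (rf P 1 c)‖) :
    volume {z : ℂ | ¬ A (rf P 1) z} = 0 ∧
    ∃ 𝒱 : Finset (Submodule ℂ ℂ[X]), 𝒱.card ≤ 2 * (d - 1) ∧
      (∀ V ∈ 𝒱, ∃ H : ℂ[X], H.natDegree < d ∧ H ∉ V) ∧
      ∀ H : ℂ[X], H.natDegree ≤ d → (∀ V ∈ 𝒱, H ∉ V) →
        Rate fun r => volume {s : ℂ | ‖s‖ < r ∧ ∃ c : ℂ, (derivative (P + C s * H)).eval c = 0 ∧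
                ¬ A (fun z => (P + C s * H).eval z) c} := by
  obtain ⟨Cr, ℓ, δ₀, Cp, rp, c₀, μ, hS, hCr⟩ := psys Pool.Agent.H720.AD211.t_POW
    Pool.Agent.H211.AD.t_PLATE Pool.Agent.H211.AD.t_PBACK Pool.Agent.H287.AD211.t_PLIFT hAA
    (P := P) (by omega) hCE
  have hnull : volume {z : ℂ | ¬ A (rf P 1) z} = 0 := null_K hS
  have hA : Pred A := (predE_of hAA).toPred
  refine ⟨hnull, ?_⟩
  obtain ⟨𝒱, h1, h2, h3⟩ := Pool.Agent.H353.AD211.t_TRP A hA P d hd hPd hnull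
    (by
      intro c hc hAc
      rcases hCE c hc with h | ⟨μ, hμ, h⟩
      · exact absurd h hAc
      · refine ⟨fun j => ?_, ce_summable hμ h⟩
        refine deriv_ne_of_expanding (P := P) (Q := 1) (fun j => ?_) hμ
          (h.frequently.mono fun n hn => ⟨n, le_rfl, hn⟩) j
        simp)
  refine ⟨𝒱, h1, h2, fun H hHd hH => ?_⟩
  have h4 := pcore hAA (P := P) (Q := 1) (H := H) (G := 0) hd rfl rfl hPd hHd hCE (h3 H hHd hH)
  have e1 : ∀ s : ℂ, (1 : ℂ[X]) + C s * 0 = 1 := fun s => by simp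
  simpa only [e1, wr_one, rf_one] using h4

/-- **Directions, coefficients of polynomials.** -/
theorem pfinal {A : (ℂ → ℂ) → ℂ → Prop} (hAA : A = Dyn.Attr ∨ A = Esc) {d : ℕ} (hd : 2 ≤ d)
    {a₀ : Fin (d + 1) → ℂ} (h0 : a₀ (Fin.last d) ≠ 0)
    (hCE : ∀ c : ℂ, deriv (ev a₀) c = 0 → A (ev a₀) c ∨
      ∃ μ : ℝ, 1 < μ ∧ ∀ᶠ n : ℕ in atTop, μ ^ n ≤ ‖deriv ((ev a₀)^[n]) (ev a₀ c)‖) :
    volume {z : ℂ | ¬ A (ev a₀) z} = 0 ∧
    (∃ 𝒱 : Finset (Submodule ℂ (Fin (d + 1) → ℂ)), 𝒱.card ≤ 2 * (d - 1) ∧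
      (∀ V ∈ 𝒱, V ≠ ⊤) ∧
      ∀ b : Fin (d + 1) → ℂ, (∀ V ∈ 𝒱, b ∉ V) →
        Rate fun r => volume {s : ℂ | ‖s‖ < r ∧ a₀ + s • b ∈ bad A d}) ∧
    Tendsto (fun r : ℝ => volume (bad A d ∩ ball a₀ r) / volume (ball a₀ r)) (𝓝[>] 0) (𝓝 0) := by
  classical
  obtain ⟨hnull, 𝒱, h𝒱1, h𝒱2, h𝒱3⟩ := pdirs hAA (P := pol a₀) hd (pol_natDegree h0)
    (by
      intro c hc
      rw [wr_one, ← deriv_ev] at hc
      rw [ev_rf]
      exact hCE c hc)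
  rw [ev_rf] at hnull
  have hV2 : ∀ V ∈ 𝒱.image (fun V => V.comap (polL (d + 1))), V ≠ ⊤ := by
    intro V hV
    obtain ⟨W, hW, rfl⟩ := Finset.mem_image.1 hV
    obtain ⟨H, hH1, hH2⟩ := h𝒱2 W hW
    intro htop
    apply hH2
    have h1 : (fun i : Fin (d + 1) => H.coeff i) ∈ W.comap (polL (d + 1)) := by
      rw [htop]
      trivial
    have h2 : pol (fun i : Fin (d + 1) => H.coeff i) = H := by
      ext j
      rw [pol_coeff]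
      split_ifs with h
      · rfl
      · exact (Polynomial.coeff_eq_zero_of_natDegree_lt (by omega)).symm
    rw [← h2]
    exact h1
  have hV3 : ∀ b : Fin (d + 1) → ℂ, (∀ V ∈ 𝒱.image (fun V => V.comap (polL (d + 1))), b ∉ V) →
        Rate fun r => volume {s : ℂ | ‖s‖ < r ∧ a₀ + s • b ∈ bad A d} := by
    intro b hb
    have h1 := h𝒱3 (pol b) (pol_natDegree_le b) (fun V hV h =>
      hb _ (Finset.mem_image.2 ⟨V, hV, rfl⟩) h)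
    simp only [← pol_add_smul, ← deriv_ev, ← ev_eq] at h1
    exact h1
  obtain ⟨r₀, hr₀, hmeas⟩ := bad_meas (predE_of hAA) hd h0
  refine ⟨hnull, ⟨_, Finset.card_image_le.trans h𝒱1, hV2, hV3⟩, ?_⟩
  exact Pool.Agent.H190.AD211.t_BALL (Fin (d + 1)) (bad A d) a₀ r₀ hr₀ hmeas _ hV2 hV3

end Pool.Agent.H211.AD
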