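import Pool.Agent.H211.AD.RCore
import Pool.Agent.H211.AD.PFin
import Pool.Agent.H539.AD211.RLATE
import Pool.Agent.H211.LR.Final

/-! Rational maps: the final forms. -/

set_option autoImplicit false

open Metric Set MeasureTheory Filter Topology Polynomial
open scoped OnePoint ENNReal

namespace Pool.Agent.H211.AD

open Pool.Agent.Helper114.Herman
open Pool.Agent.H792R2.CE Pool.Agent.H792R2
open Pool.Agent.H211.LR (EE PP QQ GoodR rbad rbad_meas PP_deg QQ_deg PP_add_smul QQ_add_smul)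

theorem a_RLATE : S_RLATE := Pool.Agent.H539.AD211.t_RLATE
  Pool.Agent.H401.AD211.RBACK.t_RBACK Pool.Agent.H97.AD211.t_RLIFT

/-- **Directions and full space, rational maps.** -/
theorem rfinal {d : ℕ} (hd : 2 ≤ d) {x₀ : EE d} (hPQ : IsCoprime (PP x₀) (QQ x₀))
    (hQd : (QQ x₀).natDegree = d) (hinf : Att d (PP x₀) (QQ x₀) ∞)
    (hCE : ∀ c : ℂ, (wr (PP x₀) (QQ x₀)).eval c = 0 → Att d (PP x₀) (QQ x₀) (c : OnePoint ℂ) ∨
      ∃ μ : ℝ, 1 < μ ∧ ∀ᶠ n : ℕ in atTop,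
        μ ^ n ≤ ‖deriv ((rf (PP x₀) (QQ x₀))^[n]) (rf (PP x₀) (QQ x₀) c)‖) :
    volume {z : ℂ | ¬ Att d (PP x₀) (QQ x₀) (z : OnePoint ℂ)} = 0 ∧
    (∃ 𝒱 : Finset (Submodule ℂ (EE d)), 𝒱.card ≤ 4 * (d - 1) ∧ (∀ V ∈ 𝒱, V ≠ ⊤) ∧
      ∀ b : EE d, (∀ V ∈ 𝒱, b ∉ V) →
        Rate fun r => volume {s : ℂ | ‖s‖ < r ∧ x₀ + s • b ∈ rbad d}) ∧
    Tendsto (fun r : ℝ => volume (rbad d ∩ ball x₀ r) / volume (ball x₀ r)) (𝓝[>] 0) (𝓝 0) := by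
  obtain ⟨Cr, ℓ, δ₀, Cp, rp, c₀, μ, hS, hCr⟩ := rsys Pool.Agent.H720.AD211.t_POW
    Pool.Agent.H401.AD211.RBACK.t_RBACK Pool.Agent.H97.AD211.t_RLIFT a_RLATE hd hPQ (PP_deg x₀)
    hQd hinf hCE
  have hcont : Continuous (sph d (PP x₀) (QQ x₀)) := B1_continuous hPQ (PP_deg x₀) hQd
  have hnull : volume {z : ℂ | ¬ Att d (PP x₀) (QQ x₀) (z : OnePoint ℂ)} = 0 := null_K hS
  obtain ⟨𝒱, h1, h2, h3⟩ := Pool.Agent.H720.AD211.t_TRR d hd (PP x₀) (QQ x₀) hPQ (PP_deg x₀) hQd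
    hinf hnull
    (by
      intro c hc hAc
      rcases hCE c hc with h | ⟨μ, hμ, h⟩
      · exact absurd h hAc
      · refine ⟨fun j => ?_, ce_summable hμ h⟩
        refine deriv_ne_of_expanding (fun j => ?_) hμ
          (h.frequently.mono fun n hn => ⟨n, le_rfl, hn⟩) j
        have := (natt_iter hcont hinf hAc (j + 1)).2
        rwa [Function.iterate_succ_apply] at this)
  have h4 : ∀ b : EE d, (∀ V ∈ 𝒱, b ∉ V) →
        Rate fun r => volume {s : ℂ | ‖s‖ < r ∧ x₀ + s • b ∈ rbad d} := by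
    intro b hb
    have h5 := rcore a_RLATE hd hPQ (PP_deg x₀) hQd (PP_deg b) (QQ_deg b) hinf hCE (h3 b hb)
    have h7 : ∀ s : ℂ, x₀ + s • b ∈ rbad d ↔
        ¬ GoodR d (PP x₀ + C s * PP b) (QQ x₀ + C s * QQ b) := by
      intro s
      unfold rbad
      rw [Set.mem_ofPred_eq, PP_add_smul, QQ_add_smul]
    simp only [h7]
    exact h5
  exact ⟨hnull, ⟨𝒱, h1, h2, h4⟩, Pool.Agent.H190.AD211.t_BALL _ (rbad d) x₀ 1 one_pos
    (rbad_meas hd x₀ 1) 𝒱 h2 h4⟩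

end Pool.Agent.H211.AD
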