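import Pool.Agent.H211.AD.Stm2

/-! Assembly of the abstract theorem from the statements. -/

set_option autoImplicit false

open Metric Set MeasureTheory Filter Topology

namespace Pool.Agent.H211.AD

/-- exponential decay of the area -/
theorem decay (hR1 : S_R1) (hR2 : S_R2) (hDEC : S_DEC) {f : ℂ → ℂ} {U K : Set ℂ} {Cr : Finset ℂ}
    {ℓ : ℂ → ℕ} {δ₀ Cp rp c₀ μ : ℝ} (S : Sys f U K Cr ℓ δ₀ Cp rp c₀ μ) (hK : volume K = 0) :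
    ∃ δ D' ϱ : ℝ, 0 < δ ∧ 0 < ϱ ∧ ϱ < 1 ∧
      ∀ n, volume (E f U K δ n) ≤ ENNReal.ofReal (D' * ϱ ^ n) := by
  have hμ := S.μ_gt
  set κ : ℝ := (1 + μ) / (2 * μ) with hκ
  have hμ0 : 0 < μ := by linarith
  have hκ1 : 1 < κ * μ := by
    rw [hκ]
    have : (1 + μ) / (2 * μ) * μ = (1 + μ) / 2 := by field_simp
    rw [this]
    linarith
  have hκ2 : κ < 1 := by
    rw [hκ, div_lt_one (by positivity)]
    linarith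
  have hκ0 : 0 < κ := by rw [hκ]; positivity
  obtain ⟨δ₁, hδ₁, h1⟩ := hR1 f U K Cr ℓ δ₀ Cp rp c₀ μ S κ hκ1 hκ2
  obtain ⟨δ₂, hδ₂, h2⟩ := hR2 f U K Cr ℓ δ₀ Cp rp c₀ μ S hK κ hκ1 hκ2
  obtain ⟨δ₃, hδ₃, h3⟩ := S.back 1 one_pos
  set δ : ℝ := min δ₁ (min δ₂ δ₃) with hδ
  have hδ0 : 0 < δ := lt_min hδ₁ (lt_min hδ₂ hδ₃)
  obtain ⟨C₁, hC₁, h1'⟩ := h1 δ hδ0 (min_le_left _ _)
  obtain ⟨C₂, hC₂, h2'⟩ := h2 δ hδ0 ((min_le_right _ _).trans (min_le_left _ _))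
  set C : ℝ := max C₁ C₂ with hC
  have hC1 : 1 ≤ C := hC₁.trans (le_max_left _ _)
  obtain ⟨R₁, hR₁, h2''⟩ := h2' C (le_max_right _ _)
  have hsub : ∀ n, E f U K δ n ⊆ cthickening 1 K := by
    intro n z hz
    refine h3 n ⟨hz.1, ?_⟩
    exact cthickening_mono ((min_le_right _ _).trans (min_le_right _ _)) K hz.2
  have hfin : ∀ n, volume (E f U K δ n) ≠ ⊤ := by
    intro n
    refine ne_top_of_le_ne_top ?_ (measure_mono (hsub n))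
    exact S.cpt.cthickening.measure_lt_top.ne
  obtain ⟨D, r, hr0, hr1, hD⟩ := hDEC Cr ℓ κ C R₁ (ar f U K δ) (ph f U K δ) S.deg hκ0 hκ2 hC1 hR₁
    (fun n => ENNReal.toReal_nonneg) (fun n c ρ => ENNReal.toReal_nonneg)
    (fun n c ρ => ENNReal.toReal_mono (hfin n) (measure_mono fun z hz => hz.1))
    (h1' C (le_max_left _ _)) h2''
  refine ⟨δ, D, r, hδ0, hr0, hr1, fun n => ?_⟩
  rw [← ENNReal.ofReal_toReal (hfin n)]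
  exact ENNReal.ofReal_le_ofReal (hD n)

theorem NA.mono {u : ℂ → ℂ} {a₀ : ℂ} {σ : ℝ} {D : ℂ} {e e' : ℝ} (h : NA u a₀ σ D e) (he : e ≤ e') :
    NA u a₀ σ D e' :=
  ⟨h.1, h.2.1, fun a ha => (h.2.2 a ha).trans (mul_le_mul_of_nonneg_right he (norm_nonneg _))⟩

/-- the first level -/
theorem lvl_base {A : ℂ → ℂ → Prop} {q : ℕ} {β₁ : ℝ} (hβ₁ : 0 < β₁) (hB : BaseC A q β₁) (f : ℂ → ℂ)
    (Cr : Finset ℂ) {β : ℝ} (hβ : β ≤ β₁ / 2) : Lvl A f Cr q β := by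
  obtain ⟨c, hc, C, hC, r₀, hr₀, h⟩ := hB
  refine ⟨β₁ / 2, by positivity, c, hc, C, hC, min r₀ 1, by positivity, ?_⟩
  intro r hr hrr c' _ a₀ σ u D t hσ ha hNA ht _ hsz
  have hr1 : r < 1 := hrr.trans_le (min_le_right _ _)
  have h1 : r ^ β₁ ≤ ‖D‖ * σ := by
    calc r ^ β₁ = r ^ (β₁ / 2) * r ^ (β₁ / 2) := by
          rw [← Real.rpow_add hr]
          congr 1
          ring
      _ ≤ r ^ (β₁ / 2) * r ^ β := by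
          apply mul_le_mul_of_nonneg_left _ (Real.rpow_nonneg hr.le _)
          exact Real.rpow_le_rpow_of_exponent_ge hr hr1.le hβ
      _ ≤ r ^ (β₁ / 2) * t := mul_le_mul_of_nonneg_left ht (Real.rpow_nonneg hr.le _)
      _ ≤ _ := hsz
  refine le_trans (measure_mono ?_)
    (h r hr (hrr.trans_le (min_le_left _ _)) a₀ σ u D hσ ha (hNA.mono (by norm_num)) h1)
  rintro a ⟨ha1, ha2⟩
  exact ⟨ball_subset_ball (by linarith) ha1, ha2⟩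

/-- all levels -/
theorem levels (hLAND : S_LAND) (hSTEP : S_STEP) {f : ℂ → ℂ} {U K : Set ℂ} {Cr : Finset ℂ}
    {ℓ : ℂ → ℕ} {δ₀ Cp rp c₀ μ : ℝ} (S : Sys f U K Cr ℓ δ₀ Cp rp c₀ μ) (hne : Cr.Nonempty)
    {F : ℂ → ℂ → ℂ} {A : ℂ → ℂ → Prop} {q : ℕ} {ρ₁ δ₁ C₁ : ℝ} (hF : Fam F A f K q ρ₁ δ₁ C₁)
    {β₁ : ℝ} (hβ₁ : 0 < β₁) (hB : BaseC A q β₁) {β : ℝ} (hβ0 : 0 < β) (hβ1 : β < 1) :
    LandC A K Cr ℓ q β := by
  obtain ⟨κ₂, hκ0, hκ1, hstep⟩ := hSTEP f U K Cr ℓ δ₀ Cp rp c₀ μ S hne F A q ρ₁ δ₁ C₁ hF β₁ hβ₁ hB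
  have hland : ∀ β : ℝ, 0 < β → β < 1 → Lvl A f Cr q β → LandC A K Cr ℓ q β := fun β h1 h2 h3 =>
    hLAND f U K Cr ℓ δ₀ Cp rp c₀ μ S hne F A q ρ₁ δ₁ C₁ hF β₁ hβ₁ hB β h1 h2 h3
  apply hland β hβ0 hβ1
  obtain ⟨n, hn⟩ := exists_pow_lt_of_lt_one (show 0 < β₁ / 2 / β by positivity)
    (show 1 - κ₂ < 1 by linarith)
  have hx0 : 0 < 1 - κ₂ := by linarith
  have hx1 : 1 - κ₂ ≤ 1 := by linarith
  have key : ∀ k ≤ n, Lvl A f Cr q (β * (1 - κ₂) ^ (n - k)) := by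
    intro k
    induction k with
    | zero =>
      intro _
      apply lvl_base hβ₁ hB
      rw [Nat.sub_zero]
      rw [lt_div_iff₀ hβ0] at hn
      linarith
    | succ k ih =>
      intro hk
      have h1 := ih (by omega)
      have h2 : n - k = (n - (k + 1)) + 1 := by omega
      have hp : 0 < (1 - κ₂) ^ (n - k) := pow_pos hx0 _
      have hp1 : (1 - κ₂) ^ (n - k) ≤ 1 := pow_le_one₀ hx0.le hx1
      have hq : 0 < (1 - κ₂) ^ (n - (k + 1)) := pow_pos hx0 _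
      have hq1 : (1 - κ₂) ^ (n - (k + 1)) ≤ 1 := pow_le_one₀ hx0.le hx1
      refine hstep (β * (1 - κ₂) ^ (n - k)) (by positivity) (by nlinarith)
        (hland _ (by positivity) (by nlinarith) h1) _ (by positivity) (by nlinarith) ?_
      rw [h2, pow_succ]
      exact le_of_eq (by ring)
  have h3 := key n le_rfl
  rw [Nat.sub_self, pow_zero, mul_one] at h3
  exact h3

/-- from annuli to discs -/
theorem discs {A : ℂ → Prop} {c C σ₁ : ℝ} (hc : 0 < c) (hC : 0 < C) 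
    (h : ∀ σ : ℝ, 0 < σ → σ < σ₁ →
      volume {a : ℂ | σ / 2 ≤ ‖a‖ ∧ ‖a‖ ≤ σ ∧ ¬ A a} ≤ ENNReal.ofReal (C * σ ^ ((2 : ℝ) + c))) :
    ∀ σ : ℝ, 0 < σ → σ < σ₁ →
      volume {a : ℂ | ‖a‖ ≤ σ ∧ ¬ A a} ≤ ENNReal.ofReal (2 * C * σ ^ ((2 : ℝ) + c)) := by
  intro σ hσ hσσ
  have hsub : {a : ℂ | ‖a‖ ≤ σ ∧ ¬ A a} ⊆ {0} ∪ ⋃ k : ℕ,
      {a : ℂ | (σ * (1 / 2) ^ k) / 2 ≤ ‖a‖ ∧ ‖a‖ ≤ σ * (1 / 2) ^ k ∧ ¬ A a} := by
    rintro a ⟨ha, hA⟩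
    by_cases h0 : a = 0
    · exact Or.inl h0
    right
    have hapos : 0 < ‖a‖ := norm_pos_iff.2 h0
    have hex : ∃ k : ℕ, σ * (1 / 2) ^ (k + 1) < ‖a‖ := by
      obtain ⟨k, hk⟩ := exists_pow_lt_of_lt_one (show 0 < ‖a‖ / σ by positivity)
        (show (1 / 2 : ℝ) < 1 by norm_num)
      refine ⟨k, ?_⟩
      rw [lt_div_iff₀ hσ] at hk
      have : (1 / 2 : ℝ) ^ (k + 1) ≤ (1 / 2) ^ k :=
        pow_le_pow_of_le_one (by norm_num) (by norm_num) (Nat.le_succ k)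
      nlinarith
    classical
    set k := Nat.find hex with hkdef
    have hk := Nat.find_spec hex
    rw [mem_iUnion]
    refine ⟨k, ?_, ?_, hA⟩
    · have e1 : σ * (1 / 2) ^ k / 2 = σ * (1 / 2) ^ (k + 1) := by rw [pow_succ]; ring
      rw [e1]
      exact hk.le
    · by_contra hcon
      push Not at hcon
      rcases Nat.eq_zero_or_pos k with hk0 | hk0
      · rw [hk0, pow_zero, mul_one] at hcon
        linarith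
      · have h2 := Nat.find_min hex (m := k - 1) (by omega)
        apply h2
        have e2 : k - 1 + 1 = k := by omega
        rw [e2]
        exact hcon
  have hterm : ∀ k : ℕ, volume {a : ℂ | (σ * (1 / 2) ^ k) / 2 ≤ ‖a‖ ∧ ‖a‖ ≤ σ * (1 / 2) ^ k ∧ ¬ A a} ≤
      ENNReal.ofReal (C * σ ^ ((2 : ℝ) + c) * (1 / 2) ^ k) := by
    intro k
    have hp : (0 : ℝ) < (1 / 2) ^ k := by positivity
    have hp1 : (1 / 2 : ℝ) ^ k ≤ 1 := pow_le_one₀ (by norm_num) (by norm_num)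
    refine (h (σ * (1 / 2) ^ k) (by positivity) (by nlinarith)).trans ?_
    apply ENNReal.ofReal_le_ofReal
    rw [Real.mul_rpow hσ.le hp.le, mul_assoc]
    apply mul_le_mul_of_nonneg_left _ hC.le
    apply mul_le_mul_of_nonneg_left _ (Real.rpow_nonneg hσ.le _)
    calc ((1 / 2 : ℝ) ^ k) ^ ((2 : ℝ) + c) ≤ ((1 / 2 : ℝ) ^ k) ^ (1 : ℝ) :=
          Real.rpow_le_rpow_of_exponent_ge hp hp1 (by linarith)
      _ = _ := Real.rpow_one _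
  calc volume {a : ℂ | ‖a‖ ≤ σ ∧ ¬ A a} ≤ volume ({0} ∪ ⋃ k : ℕ,
      {a : ℂ | (σ * (1 / 2) ^ k) / 2 ≤ ‖a‖ ∧ ‖a‖ ≤ σ * (1 / 2) ^ k ∧ ¬ A a}) := measure_mono hsub
    _ ≤ volume ({0} : Set ℂ) + volume (⋃ k : ℕ,
      {a : ℂ | (σ * (1 / 2) ^ k) / 2 ≤ ‖a‖ ∧ ‖a‖ ≤ σ * (1 / 2) ^ k ∧ ¬ A a}) := measure_union_le _ _
    _ ≤ 0 + ∑' k : ℕ, ENNReal.ofReal (C * σ ^ ((2 : ℝ) + c) * (1 / 2) ^ k) := by
        apply add_le_add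
        · simp
        · exact (measure_iUnion_le _).trans (ENNReal.tsum_le_tsum hterm)
    _ = ENNReal.ofReal (∑' k : ℕ, C * σ ^ ((2 : ℝ) + c) * (1 / 2) ^ k) := by
        rw [zero_add, ENNReal.ofReal_tsum_of_nonneg (fun k => by positivity)
          (summable_geometric_two.mul_left _)]
    _ = ENNReal.ofReal (2 * C * σ ^ ((2 : ℝ) + c)) := by
        rw [tsum_mul_left, tsum_geometric_two]
        congr 1
        ring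

/-- **The abstract theorem.** -/
theorem main_abs (hR1 : S_R1) (hR2 : S_R2) (hDEC : S_DEC) (hBASE : S_BASE) (hLAND : S_LAND)
    (hSTEP : S_STEP) (hFIRST : S_FIRST) {f : ℂ → ℂ} {U K : Set ℂ} {Cr : Finset ℂ}
    {ℓ : ℂ → ℕ} {δ₀ Cp rp c₀ μ : ℝ} (S : Sys f U K Cr ℓ δ₀ Cp rp c₀ μ) (hK : volume K = 0)
    {F : ℂ → ℂ → ℂ} {A : ℂ → ℂ → Prop} {q : ℕ} {ρ₁ δ₁ C₁ : ℝ} (hF : Fam F A f K q ρ₁ δ₁ C₁)
    {c : ℂ} {ζ h : ℂ → ℂ} {C₃ : ℝ} {L : ℂ} (hc : c ∈ Cr) (hM : Mk F f K q ρ₁ δ₁ c ζ h C₃ L) :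
    ∃ c' > (0 : ℝ), ∃ C > (0 : ℝ), ∃ σ₁ > (0 : ℝ), ∀ σ : ℝ, 0 < σ → σ < σ₁ →
      volume {a : ℂ | ‖a‖ ≤ σ ∧ ¬ A a (ζ a)} ≤ ENNReal.ofReal (C * σ ^ ((2 : ℝ) + c')) := by
  obtain ⟨δ, D', ϱ, hδ, hϱ0, hϱ1, hdec⟩ := decay hR1 hR2 hDEC S hK
  obtain ⟨β₁, hβ₁, hB⟩ := hBASE f U K Cr ℓ δ₀ Cp rp c₀ μ S F A q ρ₁ δ₁ C₁ hF δ D' ϱ hδ hϱ0 hϱ1 hdec
  have hlev : ∀ β : ℝ, 0 < β → β < 1 → LandC A K Cr ℓ q β := fun β h1 h2 =>
    levels hLAND hSTEP S ⟨c, hc⟩ hF hβ₁ hB h1 h2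
  obtain ⟨c', hc', C, hC, σ₁, hσ₁, h1⟩ := hFIRST f U K Cr ℓ δ₀ Cp rp c₀ μ S F A q ρ₁ δ₁ C₁ hF hlev
    c ζ h C₃ L hc hM
  exact ⟨c', hc', 2 * C, by positivity, σ₁, hσ₁, discs hc' hC h1⟩

end Pool.Agent.H211.AD
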