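import Pool.Agent.H211.AD.Stm3

/-! Construction of the structure `Sys` from its parts. -/

set_option autoImplicit false

open Metric Set MeasureTheory Filter Topology

namespace Pool.Agent.H211.AD

theorem E_mono {f : ℂ → ℂ} {U K : Set ℂ} {δ δ' : ℝ} (h : δ ≤ δ') (n : ℕ) :
    E f U K δ n ⊆ E f U K δ' n := fun _ hz => ⟨hz.1, cthickening_mono h K hz.2⟩

theorem iter_mem {f : ℂ → ℂ} {K : Set ℂ} (h : ∀ z ∈ K, f z ∈ K) {z : ℂ} (hz : z ∈ K) (n : ℕ) :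
    f^[n] z ∈ K := by
  induction n with
  | zero => exact hz
  | succ n ih => rw [Function.iterate_succ_apply']; exact h _ ih

/-- lower bound of a sequence -/
theorem ce_const {g : ℕ → ℝ} (h0 : ∀ n, 0 < g n) {μ : ℝ} (hμ : 1 < μ)
    (h : ∀ᶠ n : ℕ in atTop, μ ^ n ≤ g n) : ∃ c₀ > 0, ∀ n, c₀ * μ ^ n ≤ g n := by
  obtain ⟨N, hN⟩ := Filter.eventually_atTop.1 h
  have hμ0 : 0 < μ := by linarith
  have hne : (Finset.range (N + 1)).Nonempty := ⟨0, by simp⟩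
  obtain ⟨m, _, hm⟩ := Finset.exists_min_image (Finset.range (N + 1)) (fun n => g n / μ ^ n) hne
  refine ⟨min 1 (g m / μ ^ m), lt_min one_pos (div_pos (h0 m) (pow_pos hμ0 m)), fun n => ?_⟩
  have hp : 0 < μ ^ n := pow_pos hμ0 n
  by_cases hn : n < N + 1
  · have h1 := hm n (Finset.mem_range.2 hn)
    have h2 : min 1 (g m / μ ^ m) ≤ g n / μ ^ n := (min_le_right _ _).trans h1
    rwa [le_div_iff₀ hp] at h2
  · have h1 := hN n (by omega)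
    calc min 1 (g m / μ ^ m) * μ ^ n ≤ 1 * μ ^ n :=
          mul_le_mul_of_nonneg_right (min_le_left _ _) hp.le
      _ = μ ^ n := one_mul _
      _ ≤ g n := h1

theorem mkSys (hPOW : S_POW) {f : ℂ → ℂ} {U K : Set ℂ} (hU : IsOpen U)
    (hf : DifferentiableOn ℂ f U) (hK : IsCompact K) (hKU : K ⊆ U) (hfwd : ∀ z ∈ K, f z ∈ K)
    (hbwd : ∀ z ∈ U, f z ∈ K → z ∈ K)
    (hback : ∀ ε > (0 : ℝ), ∃ δ > (0 : ℝ), ∀ n, E f U K δ n ⊆ cthickening ε K)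
    (hlate : ∃ δ₀ > (0 : ℝ), ∀ ε > (0 : ℝ), ∃ T₀ : ℕ, ∀ n ≥ T₀, E f U K δ₀ n ⊆ cthickening ε K)
    (hlift : ∃ δ₀ > (0 : ℝ), ∀ (g : ℂ → ℂ) (y : ℂ) (R : ℝ), 0 < R →
      DifferentiableOn ℂ g (ball y R) → MapsTo g (ball y R) (cthickening δ₀ K) →
      (∀ z ∈ U, f z ∈ g '' ball y R → deriv f z ≠ 0) → ∀ z₀ ∈ U, f z₀ = g y →
      ∃ G : ℂ → ℂ, DifferentiableOn ℂ G (ball y R) ∧ G y = z₀ ∧
        ∀ x ∈ ball y R, G x ∈ U ∧ f (G x) = g x)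
    (hfin : {z | z ∈ U ∧ deriv f z = 0}.Finite)
    (hnc : ∀ c ∈ K, ¬ ∀ᶠ z in 𝓝 c, f z = f c)
    (hCE : ∀ c ∈ K, deriv f c = 0 → (∀ n, deriv f^[n] (f c) ≠ 0) ∧
      ∃ μ : ℝ, 1 < μ ∧ ∀ᶠ n : ℕ in atTop, μ ^ n ≤ ‖deriv f^[n] (f c)‖) :
    ∃ (Cr : Finset ℂ) (ℓ : ℂ → ℕ) (δ₀ Cp rp c₀ μ : ℝ), Sys f U K Cr ℓ δ₀ Cp rp c₀ μ ∧
      ∀ c, c ∈ Cr ↔ deriv f c = 0 ∧ c ∈ K := by
  classical
  obtain ⟨δ₁, hδ₁, hlate⟩ := hlate
  obtain ⟨δ₂, hδ₂, hlift⟩ := hlift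
  obtain ⟨δ₃, hδ₃, hthick⟩ := hK.exists_cthickening_subset_open hU hKU
  set Cr : Finset ℂ := hfin.toFinset.filter (fun c => c ∈ K) with hCr
  have hmem : ∀ c, c ∈ Cr ↔ deriv f c = 0 ∧ c ∈ K := by
    intro c
    rw [hCr, Finset.mem_filter, Set.Finite.mem_toFinset]
    exact ⟨fun h => ⟨h.1.2, h.2⟩, fun h => ⟨⟨hKU h.2, h.1⟩, h.2⟩⟩
  -- the other critical points
  set Ot : Finset ℂ := hfin.toFinset.filter (fun c => c ∉ K) with hOt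
  obtain ⟨ε₁, hε₁, hε₁'⟩ : ∃ ε₁ > (0 : ℝ), ∀ c ∈ Ot, c ∉ cthickening ε₁ K := by
    have hd : Disjoint (Ot : Set ℂ) K := by
      rw [Set.disjoint_left]
      intro c hc
      exact (Finset.mem_filter.1 (Finset.mem_coe.1 hc)).2
    obtain ⟨ε, hε, h⟩ := hd.exists_cthickenings Ot.finite_toSet.isCompact hK.isClosed
    refine ⟨ε, hε, fun c hc hcK => ?_⟩
    exact (Set.disjoint_left.1 h) (self_subset_cthickening _ (Finset.mem_coe.2 hc)) hcK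
  obtain ⟨δ₄, hδ₄, hδ₄'⟩ := hback ε₁ hε₁
  set δ₀ : ℝ := min (min δ₁ δ₂) (min δ₃ δ₄) with hδ₀
  have hδ₀0 : 0 < δ₀ := lt_min (lt_min hδ₁ hδ₂) (lt_min hδ₃ hδ₄)
  have h01 : δ₀ ≤ δ₁ := (min_le_left _ _).trans (min_le_left _ _)
  have h02 : δ₀ ≤ δ₂ := (min_le_left _ _).trans (min_le_right _ _)
  have h03 : δ₀ ≤ δ₃ := (min_le_right _ _).trans (min_le_left _ _)
  have h04 : δ₀ ≤ δ₄ := (min_le_right _ _).trans (min_le_right _ _)
  -- local degrees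
  have hloc : ∀ c : ℂ, ∃ (ℓ : ℕ) (Cp rp : ℝ), c ∈ Cr → 2 ≤ ℓ ∧ 1 ≤ Cp ∧ 0 < rp ∧
      ∀ z, ‖z - c‖ ≤ rp → z ∈ U ∧ ‖f z - f c‖ ≤ Cp * ‖z - c‖ ^ ℓ ∧
        ‖z - c‖ ^ ℓ ≤ Cp * ‖f z - f c‖ ∧ ‖deriv f z‖ ≤ Cp * ‖z - c‖ ^ (ℓ - 1) ∧
        ‖z - c‖ ^ (ℓ - 1) ≤ Cp * ‖deriv f z‖ := by
    intro c
    by_cases hc : c ∈ Cr
    · obtain ⟨hd, hcK⟩ := (hmem c).1 hc
      have han : AnalyticAt ℂ f c := hf.analyticAt (hU.mem_nhds (hKU hcK))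
      obtain ⟨ℓ, hℓ, Cp, hCp, rp, hrp, h⟩ := hPOW f c han hd (hnc c hcK)
      obtain ⟨r', hr', hr''⟩ := Metric.isOpen_iff.1 hU c (hKU hcK)
      refine ⟨ℓ, Cp, min rp (r' / 2), fun _ => ⟨hℓ, hCp, by positivity, fun z hz => ?_⟩⟩
      refine ⟨hr'' ?_, h z (hz.trans (min_le_left _ _))⟩
      rw [mem_ball, dist_eq_norm]
      have : ‖z - c‖ ≤ r' / 2 := hz.trans (min_le_right _ _)
      linarith
    · exact ⟨0, 0, 0, fun h => absurd h hc⟩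
  choose ℓ Cpf rpf hloc' using hloc
  obtain ⟨Cp, hCp1, hCp⟩ : ∃ Cp : ℝ, 1 ≤ Cp ∧ ∀ c ∈ Cr, Cpf c ≤ Cp := by
    obtain ⟨M, hM⟩ := (Cr.image Cpf).bddAbove
    refine ⟨max M 1, le_max_right _ _, fun c hc => (hM ?_).trans (le_max_left _ _)⟩
    exact Finset.mem_coe.2 (Finset.mem_image_of_mem _ hc)
  obtain ⟨rp, hrp0, hrp⟩ : ∃ rp : ℝ, 0 < rp ∧ ∀ c ∈ Cr, rp ≤ rpf c := by
    rcases Cr.eq_empty_or_nonempty with h | h
    · exact ⟨1, one_pos, by simp [h]⟩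
    · obtain ⟨m, hm, hm'⟩ := Finset.exists_min_image Cr rpf h
      exact ⟨rpf m, (hloc' m hm).2.2.1, hm'⟩
  -- the Collet-Eckmann constants
  have hce : ∀ c : ℂ, ∃ (c₀ μ : ℝ), c ∈ Cr → 0 < c₀ ∧ 1 < μ ∧
      ∀ n, c₀ * μ ^ n ≤ ‖deriv f^[n] (f c)‖ := by
    intro c
    by_cases hc : c ∈ Cr
    · obtain ⟨hd, hcK⟩ := (hmem c).1 hc
      obtain ⟨h1, μ, hμ, h2⟩ := hCE c hcK hd
      obtain ⟨c₀, hc₀, h3⟩ := ce_const (g := fun n => ‖deriv f^[n] (f c)‖)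
        (fun n => norm_pos_iff.2 (h1 n)) hμ h2
      exact ⟨c₀, μ, fun _ => ⟨hc₀, hμ, h3⟩⟩
    · exact ⟨0, 0, fun h => absurd h hc⟩
  choose c₀f μf hce' using hce
  obtain ⟨c₀, hc₀0, hc₀⟩ : ∃ c₀ : ℝ, 0 < c₀ ∧ ∀ c ∈ Cr, c₀ ≤ c₀f c := by
    rcases Cr.eq_empty_or_nonempty with h | h
    · exact ⟨1, one_pos, by simp [h]⟩
    · obtain ⟨m, hm, hm'⟩ := Finset.exists_min_image Cr c₀f h
      exact ⟨c₀f m, (hce' m hm).1, hm'⟩
  obtain ⟨μ, hμ1, hμ⟩ : ∃ μ : ℝ, 1 < μ ∧ ∀ c ∈ Cr, μ ≤ μf c := by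
    rcases Cr.eq_empty_or_nonempty with h | h
    · exact ⟨2, by norm_num, by simp [h]⟩
    · obtain ⟨m, hm, hm'⟩ := Finset.exists_min_image Cr μf h
      exact ⟨μf m, (hce' m hm).2.1, hm'⟩
  refine ⟨Cr, ℓ, δ₀, Cp, rp, c₀, μ, ?_, hmem⟩
  exact
    { openU := hU
      diff := hf
      cpt := hK
      δ₀_pos := hδ₀0
      thick := (cthickening_mono h03 K).trans hthick
      fwd := hfwd
      bwd := hbwd
      back := hback
      late := by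
        intro ε hε
        obtain ⟨T₀, hT₀⟩ := hlate ε hε
        exact ⟨T₀, fun n hn => (E_mono h01 n).trans (hT₀ n hn)⟩
      lift := by
        intro g y R hR hg hmaps
        exact hlift g y R hR hg (fun x hx => cthickening_mono h02 K (hmaps hx))
      crit := by
        intro z hz hd
        by_cases hzK : z ∈ K
        · exact Or.inl ((hmem z).2 ⟨hd, hzK⟩)
        · right
          intro n hn
          have h1 := hδ₄' n (E_mono h04 n hn)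
          refine hε₁' z ?_ h1
          rw [hOt, Finset.mem_filter, Set.Finite.mem_toFinset]
          exact ⟨⟨hz, hd⟩, hzK⟩
      critK := fun c hc => ((hmem c).1 hc).2
      deg := fun c hc => (hloc' c hc).1
      Cp_ge := hCp1
      rp_pos := hrp0
      loc := by
        intro c hc z hz
        obtain ⟨-, -, -, h⟩ := hloc' c hc
        obtain ⟨h1, h2, h3, h4, h5⟩ := h z (hz.trans (hrp c hc))
        have hC := hCp c hc
        exact ⟨h1, h2.trans (mul_le_mul_of_nonneg_right hC (by positivity)),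
          h3.trans (mul_le_mul_of_nonneg_right hC (by positivity)),
          h4.trans (mul_le_mul_of_nonneg_right hC (by positivity)),
          h5.trans (mul_le_mul_of_nonneg_right hC (by positivity))⟩
      c₀_pos := hc₀0
      μ_gt := hμ1
      ce := by
        intro c hc n
        obtain ⟨h1, h2, h3⟩ := hce' c hc
        refine le_trans ?_ (h3 n)
        have h4 : μ ^ n ≤ μf c ^ n := pow_le_pow_left₀ (by linarith) (hμ c hc) n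
        have h5 : 0 ≤ μ ^ n := pow_nonneg (by linarith) n
        exact mul_le_mul (hc₀ c hc) h4 h5 h1.le }

end Pool.Agent.H211.AD
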