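import Pool.Agent.H211.AD.Stm4
import Pool.Agent.H211.AD.SysG

/-! The structure `Sys` for polynomials. -/

set_option autoImplicit false

open Metric Set MeasureTheory Filter Topology Polynomial

namespace Pool.Agent.H211.AD

open Pool.Agent.H792R2.CE Pool.Agent.H792R2 Pool.Agent.X325.EP Pool.Agent.H211.LD

theorem predE_of {A : (ℂ → ℂ) → ℂ → Prop} (hA : A = Dyn.Attr ∨ A = Esc) : PredE A := by
  rcases hA with rfl | rfl
  · exact predE_attr
  · exact predE_escape

/-- the predicates are forward invariant -/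
theorem att_fwd {A : (ℂ → ℂ) → ℂ → Prop} (hA : A = Dyn.Attr ∨ A = Esc) {g : ℂ → ℂ}
    (hg : Differentiable ℂ g) {z : ℂ} (h : A g z) : A g (g z) := by
  have hE : ∀ z, Tendsto (fun k : ℕ => ‖g^[k] z‖) atTop atTop →
      Tendsto (fun k : ℕ => ‖g^[k] (g z)‖) atTop atTop := by
    intro z h
    have := (tendsto_add_atTop_iff_nat 1).2 h
    simpa only [Function.iterate_succ_apply] using this
  rcases hA with rfl | rfl
  · rcases h with h | ⟨n, hn, w, hw, hd, ht⟩
    · exact Or.inl (hE z h)
    · right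
      refine ⟨n, hn, g w, ?_, ?_, ?_⟩
      · rw [← Function.iterate_succ_apply, Function.iterate_succ_apply', hw]
      · have hit : ∀ m, Differentiable ℂ g^[m] := fun m => hg.iterate m
        by_cases h0 : deriv g w = 0
        · obtain ⟨m, rfl⟩ : ∃ m, n = m + 1 := ⟨n - 1, by omega⟩
          have e1 : deriv g^[m + 1] (g w) = deriv g (g^[m] (g w)) * deriv g^[m] (g w) := by
            have : g^[m + 1] = g ∘ g^[m] := by rw [Function.iterate_succ']
            rw [this, deriv_comp _ (hg _) (hit m _)]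
          have e2 : g^[m] (g w) = w := by rw [← Function.iterate_succ_apply, hw]
          rw [e1, e2, h0, zero_mul, norm_zero]
          exact one_pos
        · have e1 : deriv (g^[n] ∘ g) w = deriv g^[n] (g w) * deriv g w :=
            deriv_comp _ (hit n _) (hg _)
          have e2 : deriv (g ∘ g^[n]) w = deriv g (g^[n] w) * deriv g^[n] w :=
            deriv_comp _ (hg _) (hit n _)
          have e3 : g^[n] ∘ g = g ∘ g^[n] := by
            rw [← Function.iterate_succ, ← Function.iterate_succ']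
          rw [e3, e2, hw] at e1
          have e4 : deriv g^[n] (g w) = deriv g^[n] w := by
            apply mul_right_cancel₀ h0
            rw [← e1]
            ring
          rw [e4]
          exact hd
      · have h1 : ∀ k, g^[n * k] (g z) = g (g^[n * k] z) := by
          intro k
          rw [← Function.iterate_succ_apply, Function.iterate_succ_apply']
        simp only [h1]
        exact (hg.continuous.tendsto w).comp ht
  · exact hE z h

theorem psys (hPOW : S_POW) (hPL : S_PLATE) (hPB : S_PBACK) (hPLi : S_PLIFT)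
    {A : (ℂ → ℂ) → ℂ → Prop} (hA : A = Dyn.Attr ∨ A = Esc) {P : ℂ[X]} (hd : 2 ≤ P.natDegree)
    (hCE : ∀ c : ℂ, (wr P 1).eval c = 0 → A (rf P 1) c ∨
      ∃ μ : ℝ, 1 < μ ∧ ∀ᶠ n : ℕ in atTop, μ ^ n ≤ ‖deriv ((rf P 1)^[n]) (rf P 1 c)‖) :
    ∃ (Cr : Finset ℂ) (ℓ : ℂ → ℕ) (δ₀ Cp rp c₀ μ : ℝ),
      Sys (rf P 1) univ {z | ¬ A (rf P 1) z} Cr ℓ δ₀ Cp rp c₀ μ ∧
      ∀ c, c ∈ Cr ↔ (wr P 1).eval c = 0 ∧ ¬ A (rf P 1) c := by
  have hPred : Pred A := (predE_of hA).toPred
  have hdiff : Differentiable ℂ (rf P 1) := by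
    rw [rf_one]
    exact P.differentiable
  have hderiv : ∀ z, deriv (rf P 1) z = (wr P 1).eval z := by
    intro z
    rw [rf_one, wr_one, Polynomial.deriv]
  have hN : wr P 1 ≠ 0 := by
    rw [wr_one]
    intro h
    have := Polynomial.derivative_eq_zero.1 h
    omega
  have hP0 : P ≠ 0 := by
    rintro rfl
    rw [natDegree_zero] at hd
    omega
  obtain ⟨R, ρe, hR1, hρe, hesc⟩ := Dyn.family_escape (d := P.natDegree) hd
    (p := fun _ => P) (Dyn.PF.const P) (fun _ => le_rfl) (leadingCoeff_ne_zero.2 hP0)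
  have hR0 : 0 < R := by linarith
  have hescP : ∀ z : ℂ, R ≤ ‖z‖ → 2 * ‖z‖ ≤ ‖P.eval z‖ := fun z hz =>
    (hesc 0 (by simpa using hρe)).2 z hz
  have hKc : IsCompact {z : ℂ | ¬ A (rf P 1) z} := natt_compact_poly hPred hR0 hescP
  have hPK : PK A P = {z : ℂ | ¬ A (rf P 1) z} := by
    rw [rf_one]
    rfl
  have hiff : ∀ c : ℂ, (wr P 1).eval c = 0 ∧ ¬ A (rf P 1) c ↔
      deriv (rf P 1) c = 0 ∧ c ∈ {z : ℂ | ¬ A (rf P 1) z} := by
    intro c
    rw [hderiv]
    rfl
  obtain ⟨Cr, ℓ, δ₀, Cp, rp, c₀, μ, hS, hCr⟩ := mkSys hPOW (f := rf P 1) (U := univ)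
    (K := {z : ℂ | ¬ A (rf P 1) z}) isOpen_univ hdiff.differentiableOn hKc (subset_univ _)
    (fun z hz => natt_iter_poly hPred hz 1)
    (fun z _ hz hA' => hz (att_fwd hA hdiff hA'))
    (by
      intro ε hε
      have := hPB A hA P hd ε hε
      rwa [hPK, ← rf_one] at this)
    (by
      have := hPL A hA P hd
      rwa [hPK, ← rf_one] at this)
    (by
      refine ⟨1, one_pos, fun g y R hR hg _ hcr z₀ _ hz₀ => ?_⟩
      obtain ⟨G, h1, h2, h3⟩ := hPLi P (by omega) g y R hR hg
        (by
          intro z hz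
          have h := hcr z (mem_univ _) (by rw [rf_one]; exact hz)
          rwa [hderiv, wr_one] at h) z₀ (by rw [← hz₀, rf_one])
      refine ⟨G, h1, h2, fun x hx => ⟨mem_univ _, ?_⟩⟩
      rw [rf_one]
      exact h3 x hx)
    (by
      refine ((wr P 1).roots.toFinset.finite_toSet).subset ?_
      rintro z ⟨-, hz⟩
      rw [Finset.mem_coe, Multiset.mem_toFinset, Polynomial.mem_roots hN, IsRoot.def, ← hderiv]
      exact hz)
    (by
      intro c _ hc
      have h1 : AnalyticOnNhd ℂ (fun z => rf P 1 z - rf P 1 c) univ := by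
        apply DifferentiableOn.analyticOnNhd _ isOpen_univ
        exact (hdiff.sub_const _).differentiableOn
      have h2 : (fun z => rf P 1 z - rf P 1 c) =ᶠ[𝓝 c] 0 := by
        filter_upwards [hc] with z hz
        simp [hz]
      have h3 := h1.eqOn_zero_of_preconnected_of_eventuallyEq_zero isPreconnected_univ
        (mem_univ c) h2
      have h4 : rf P 1 = fun _ => rf P 1 c := by
        funext z
        have := h3 (mem_univ z)
        exact sub_eq_zero.1 this
      apply hN
      apply Polynomial.funext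
      intro z
      rw [← hderiv, h4]
      simp)
    (by
      intro c hcK hc
      rcases hCE c (by rw [← hderiv]; exact hc) with h | ⟨μ, hμ, h⟩
      · exact absurd h hcK
      · refine ⟨?_, μ, hμ, h⟩
        intro j
        refine deriv_ne_of_expanding (P := P) (Q := 1) (fun j => ?_) hμ
          (h.frequently.mono fun n hn => ⟨n, le_rfl, hn⟩) j
        simp)
  exact ⟨Cr, ℓ, δ₀, Cp, rp, c₀, μ, hS, fun c => by rw [hCr c, hiff c]⟩

end Pool.Agent.H211.AD
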