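import Pool.Agent.H211.AD.Stm4
import Pool.Agent.H211.AD.SysG
import Pool.Agent.H97.AD211.RLIFT

/-! The structure `Sys` for rational maps. -/

set_option autoImplicit false

open Metric Set MeasureTheory Filter Topology Polynomial
open scoped OnePoint

namespace Pool.Agent.H211.AD

open Pool.Agent.H792R2.CE Pool.Agent.H792R2

theorem rsys (hPOW : S_POW) (hRB : S_RBACK) (hRLi : S_RLIFT) (hRLa : S_RLATE)
    {P Q : ℂ[X]} {d : ℕ} (hd : 2 ≤ d) (hPQ : IsCoprime P Q) (hPd : P.natDegree ≤ d)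
    (hQd : Q.natDegree = d) (hinf : Att d P Q ∞)
    (hCE : ∀ c : ℂ, (wr P Q).eval c = 0 → Att d P Q (c : OnePoint ℂ) ∨
      ∃ μ : ℝ, 1 < μ ∧ ∀ᶠ n : ℕ in atTop, μ ^ n ≤ ‖deriv ((rf P Q)^[n]) (rf P Q c)‖) :
    ∃ (Cr : Finset ℂ) (ℓ : ℂ → ℕ) (δ₀ Cp rp c₀ μ : ℝ),
      Sys (rf P Q) (RU Q) (RK d P Q) Cr ℓ δ₀ Cp rp c₀ μ ∧
      ∀ c, c ∈ Cr ↔ (wr P Q).eval c = 0 ∧ ¬ Att d P Q (c : OnePoint ℂ) := by
  have hd0 : 0 < d := by omega
  have hcont : Continuous (sph d P Q) := B1_continuous hPQ hPd hQd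
  have hN : wr P Q ≠ 0 := wr_ne_zero hd0 hPQ hQd
  have hKc : IsCompact (RK d P Q) := natt_compact hd0 hPQ hPd hQd hinf
  have hstay : ∀ z ∈ RK d P Q, ∀ n, (rf P Q)^[n] z ∈ RK d P Q ∧ Q.eval ((rf P Q)^[n] z) ≠ 0 :=
    fun z hz n => natt_iter hcont hinf hz n
  have hKU : RK d P Q ⊆ RU Q := fun z hz => by
    have h := (hstay z hz 0).2
    rw [Function.iterate_zero, id_eq] at h
    exact h
  have hUo : IsOpen (RU Q) := isOpen_ne.preimage Q.continuous
  have hderiv : ∀ z ∈ RU Q, HasDerivAt (rf P Q) ((wr P Q).eval z / Q.eval z ^ 2) z := by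
    intro z hz
    exact rf_hasDerivAt hz
  have hd1 : ∀ z ∈ RU Q, deriv (rf P Q) z = (wr P Q).eval z / Q.eval z ^ 2 := fun z hz =>
    (hderiv z hz).deriv
  have hd2 : ∀ z ∈ RU Q, (deriv (rf P Q) z = 0 ↔ (wr P Q).eval z = 0) := by
    intro z hz
    rw [hd1 z hz, div_eq_zero_iff]
    have h3 : Q.eval z ^ 2 ≠ 0 := pow_ne_zero _ hz
    tauto
  have hdiff : DifferentiableOn ℂ (rf P Q) (RU Q) := fun z hz =>
    (hderiv z hz).differentiableAt.differentiableWithinAt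
  obtain ⟨Cr, ℓ, δ₀, Cp, rp, c₀, μ, hS, hCr⟩ := mkSys hPOW (f := rf P Q) (U := RU Q)
    (K := RK d P Q) hUo hdiff hKc hKU (fun z hz => (hstay z hz 1).1)
    (by
      intro z hz hfz hA
      apply hfz
      have h1 := Pool.Agent.H97.AD211.att_forward hcont hA
      rwa [sph_coe_of_ne hz] at h1)
    (hRB P Q d hd hPQ hPd hQd hinf)
    (hRLa P Q d hd hPQ hPd hQd hinf)
    (hRLi P Q d hd hPQ hPd hQd hinf)
    (by
      refine ((wr P Q).roots.toFinset.finite_toSet).subset ?_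
      rintro z ⟨hz, hz2⟩
      rw [Finset.mem_coe, Multiset.mem_toFinset, Polynomial.mem_roots hN, IsRoot.def,
        ← hd2 z hz]
      exact hz2)
    (by
      intro c hcK hc
      have hev : ∀ᶠ z in 𝓝 c, (wr P Q).eval z = 0 := by
        have h1 : ∀ᶠ z in 𝓝 c, ∀ᶠ y in 𝓝 z, rf P Q y = rf P Q c := hc.eventually_nhds
        filter_upwards [h1, hUo.mem_nhds (hKU hcK)] with z hz hzU
        rw [← hd2 z hzU]
        have h2 : rf P Q =ᶠ[𝓝 z] fun _ => rf P Q c := hz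
        rw [h2.deriv_eq]
        simp
      have h3 : ({z : ℂ | (wr P Q).eval z = 0}).Finite := by
        refine ((wr P Q).roots.toFinset.finite_toSet).subset ?_
        intro z hz
        rw [Finset.mem_coe, Multiset.mem_toFinset, Polynomial.mem_roots hN, IsRoot.def]
        exact hz
      have h4 : ({z : ℂ | (wr P Q).eval z = 0}).Infinite :=
        infinite_of_mem_nhds c hev
      exact h4 h3)
    (by
      intro c hcK hc
      rcases hCE c ((hd2 c (hKU hcK)).1 hc) with h | ⟨μ, hμ, h⟩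
      · exact absurd h hcK
      · refine ⟨?_, μ, hμ, h⟩
        intro j
        refine deriv_ne_of_expanding (P := P) (Q := Q) (fun j => ?_) hμ
          (h.frequently.mono fun n hn => ⟨n, le_rfl, hn⟩) j
        have := (hstay c hcK (j + 1)).2
        rwa [Function.iterate_succ_apply] at this)
  refine ⟨Cr, ℓ, δ₀, Cp, rp, c₀, μ, hS, fun c => ?_⟩
  rw [hCr c]
  constructor
  · rintro ⟨h1, h2⟩
    exact ⟨(hd2 c (hKU h2)).1 h1, h2⟩
  · rintro ⟨h1, h2⟩
    have h3 : c ∈ RK d P Q := h2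
    exact ⟨(hd2 c (hKU h3)).2 h1, h3⟩

end Pool.Agent.H211.AD
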