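import Pool.Agent.H211.AD.Push
import Pool.Agent.H211.AD.SysP
import Pool.Agent.H211.AD.SysR
import Pool.Agent.H628.AD211.LS
import Pool.Agent.H628.AD211.UNIQ
import Pool.Agent.H44.AD211.HIT
import Pool.Agent.H71.AD211.R1
import Pool.Agent.H980.AD211.R2
import Pool.Agent.H332.AD211.DEC
import Pool.Agent.H332.AD211.TIME
import Pool.Agent.H332.AD211.COV
import Pool.Agent.H332.AD211.ZERO
import Pool.Agent.H501.AD211.NL
import Pool.Agent.H501.AD211.FOL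
import Pool.Agent.H501.AD211.ARE
import Pool.Agent.H501.AD211.BASE
import Pool.Agent.H740.AD211.LAND
import Pool.Agent.H963.AD211.STEP
import Pool.Agent.H963.AD211.FIRST
import Pool.Agent.H591.AD211.NOCR
import Pool.Agent.H122.AD211.UNI
import Pool.Agent.H348.AD211.DEEP
import Pool.Agent.H264.AD211.HITV
import Pool.Agent.H376.AD211.EMPTY
import Pool.Agent.H385.AD211.INST
import Pool.Agent.H286.AD211.SHRINK
import Pool.Agent.H263.AD211.EH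

/-! The estimate for one marked critical point, without hypotheses. -/

set_option autoImplicit false

open Metric Set MeasureTheory Filter Topology Polynomial
open scoped OnePoint ENNReal

namespace Pool.Agent.H211.AD

open Pool.Agent.H792R2.CE Pool.Agent.H792R2

theorem a_HIT : S_HIT := Pool.Agent.H44.AD211.t_HIT Pool.Agent.H628.AD211.t_LS
  Pool.Agent.H628.AD211.t_UNIQ

theorem a_MEAS : S_MEAS := Pool.Agent.H44.AD211.t_MEAS Pool.Agent.H628.AD211.t_UNIQ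

theorem a_R1 : S_R1 := Pool.Agent.H71.AD211.t_R1 a_HIT a_MEAS

theorem a_R2 : S_R2 := Pool.Agent.H980.AD211.t_R2 a_HIT a_MEAS

theorem a_BASE : S_BASE := Pool.Agent.H501.AD211.t_BASE Pool.Agent.H501.AD211.t_ARE

theorem a_LAND : S_LAND := Pool.Agent.H740.AD211.LAND.t_LAND Pool.Agent.H501.AD211.t_ARE
  Pool.Agent.H332.AD211.t_COV

theorem a_STEP : S_STEP := Pool.Agent.H963.AD211.t_STEP Pool.Agent.H501.AD211.t_NL
  Pool.Agent.H501.AD211.t_FOL Pool.Agent.H332.AD211.t_TIME Pool.Agent.H332.AD211.t_COV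

theorem a_FIRST : S_FIRST := Pool.Agent.H963.AD211.t_FIRST Pool.Agent.H501.AD211.t_NL
  Pool.Agent.H501.AD211.t_FOL Pool.Agent.H332.AD211.t_TIME Pool.Agent.H332.AD211.t_COV

theorem a_SHRINK : S_SHRINK := Pool.Agent.H286.AD211.SHRINK.t_SHRINK
  (Pool.Agent.H264.AD211.t_HITV Pool.Agent.H628.AD211.t_LS) Pool.Agent.H122.AD211.t_UNI

theorem a_EMPTY : S_EMPTY := Pool.Agent.H376.AD211.t_EMPTY Pool.Agent.H591.AD211.t_NOCR
  (Pool.Agent.H348.AD211.t_DEEP Pool.Agent.H591.AD211.t_NOCR a_SHRINK) Pool.Agent.H263.AD211.t_EH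

theorem a_ZERO : S_ZERO := Pool.Agent.H332.AD211.t_ZERO a_HIT Pool.Agent.H628.AD211.t_UNIQ a_R1

/-- **Collet-Eckmann maps: the set of the points which are not attracted has zero area.** -/
theorem null_K {f : ℂ → ℂ} {U K : Set ℂ} {Cr : Finset ℂ} {ℓ : ℂ → ℕ} {δ₀ Cp rp c₀ μ : ℝ}
    (S : Sys f U K Cr ℓ δ₀ Cp rp c₀ μ) : volume K = 0 :=
  a_ZERO f U K Cr ℓ δ₀ Cp rp c₀ μ S (a_EMPTY f U K Cr ℓ δ₀ Cp rp c₀ μ S)

/-- the estimate for a marked point -/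
theorem mark_bound {P Q H G : ℂ[X]} {U Ks : Set ℂ} {Cr : Finset ℂ} {ℓ : ℂ → ℕ}
    {δ₀ Cp rp c₀ μ : ℝ} (S : Sys (rf P Q) U Ks Cr ℓ δ₀ Cp rp c₀ μ)
    (hKQ : ∀ z ∈ Ks, Q.eval z ≠ 0) {K : ℕ} (hK : 1 ≤ K) {A : ℂ → ℂ → Prop} {ρ₂ : ℝ}
    (hρ₂ : 0 < ρ₂)
    (hstep : ∀ a z, ‖a‖ < ρ₂ → (Q + C (a ^ K) * G).eval z ≠ 0 → A a (fam P Q H G K a z) → A a z)
    (hstab : ∀ ε > (0 : ℝ), ∃ r > (0 : ℝ), ∀ a, ‖a‖ < r → ∀ z, z ∉ cthickening ε Ks → A a z)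
    {c : ℂ} {k l : ℕ} (hc : c ∈ Cr) (hN : wr P Q ≠ 0) (hmult : (wr P Q).rootMultiplicity c = k)
    (hl : 1 ≤ l) (hlk : l * k = K) {τ : ℂ → ℂ} {t : ℂ} {ρ : ℝ} (hρ : 0 < ρ) (hτ0 : τ 0 = c)
    (hτd : HasDerivAt τ t 0) (hτD : ∀ b, ‖b‖ < ρ → DifferentiableAt ℂ τ b) {ω : ℂ} (hω : ‖ω‖ = 1)
    (hsum : Summable fun j => (H * Q - P * G).eval ((rf P Q)^[j] c) /
          Q.eval ((rf P Q)^[j] c) ^ 2 / deriv ((rf P Q)^[j]) (rf P Q c))
    (hne : ∑' j, (H * Q - P * G).eval ((rf P Q)^[j] c) / Q.eval ((rf P Q)^[j] c) ^ 2 /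
          deriv ((rf P Q)^[j]) (rf P Q c) ≠ 0) :
    Rate fun σ => volume {a : ℂ | ‖a‖ ≤ σ ∧ ¬ A a (τ (ω * a ^ l))} := by
  obtain ⟨ρ₁, δ₁, C₁, C₃, hF, hM⟩ := Pool.Agent.H385.AD211.t_INST P Q H G Ks S.cpt hKQ S.fwd K hK
    A ρ₂ hρ₂ hstep hstab c k l (S.critK c hc) hN hmult hl hlk τ t ρ hρ hτ0 hτd hτD ω hω hsum hne
  exact main_abs a_R1 a_R2 Pool.Agent.H332.AD211.t_DEC a_BASE a_LAND a_STEP a_FIRST S (null_K S)
    hF hc hM

end Pool.Agent.H211.AD
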