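import Pool.Agent.H211.AD.Mark
import Pool.Agent.H353.AD211.TRP
import Pool.Agent.H282.AD211.PBACK
import Pool.Agent.H287.AD211.PLIFT
import Pool.Agent.H720.AD211.POW

/-! Polynomials: one direction. -/

set_option autoImplicit false

open Metric Set MeasureTheory Filter Topology Polynomial
open scoped OnePoint ENNReal

namespace Pool.Agent.H211.AD

open Pool.Agent.H792R2.CE Pool.Agent.H792R2 Pool.Agent.X325.EP Pool.Agent.H211.LD

theorem pcore {A : (ℂ → ℂ) → ℂ → Prop} (hAA : A = Dyn.Attr ∨ A = Esc) {P Q H G : ℂ[X]} {d : ℕ}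
    (hd : 2 ≤ d) (hQ1 : Q = 1) (hG0 : G = 0)
    (hPd : P.natDegree = d) (hHd : H.natDegree ≤ d)
    (hCE : ∀ c : ℂ, (wr P Q).eval c = 0 → A (rf P Q) c ∨
      ∃ μ : ℝ, 1 < μ ∧ ∀ᶠ n : ℕ in atTop, μ ^ n ≤ ‖deriv ((rf P Q)^[n]) (rf P Q c)‖)
    (hN₁ : ∀ c : ℂ, (wr P Q).eval c = 0 → ¬ A (rf P Q) c →
      (wr H Q + wr P G).eval c ≠ 0 ∧
        (Summable fun j => (H * Q - P * G).eval ((rf P Q)^[j] c) /
          Q.eval ((rf P Q)^[j] c) ^ 2 / deriv ((rf P Q)^[j]) (rf P Q c)) ∧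
        ∑' j, (H * Q - P * G).eval ((rf P Q)^[j] c) / Q.eval ((rf P Q)^[j] c) ^ 2 /
          deriv ((rf P Q)^[j]) (rf P Q c) ≠ 0) :
    Rate fun r => volume {s : ℂ | ‖s‖ < r ∧
      ∃ c : ℂ, (wr (P + C s * H) (Q + C s * G)).eval c = 0 ∧
            ¬ A (rf (P + C s * H) (Q + C s * G)) c} := by
  classical
  have hA : Pred A := (predE_of hAA).toPred
  obtain ⟨Cr, ℓ, δ₀, Cp, rp, c₀, μ, hS, hCr⟩ := psys Pool.Agent.H720.AD211.t_POW
    Pool.Agent.H211.AD.t_PLATE Pool.Agent.H211.AD.t_PBACK Pool.Agent.H287.AD211.t_PLIFT hAA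
    (P := P) (by omega) (by rw [hQ1] at hCE; exact hCE)
  rw [← hQ1] at hS hCr
  have hQG : ∀ (s z : ℂ), (Q + C s * G).eval z = 1 := by
    intro s z
    rw [hQ1, hG0]
    simp
  have hQe : ∀ z : ℂ, Q.eval z = 1 := by
    intro z
    rw [hQ1]
    simp
  have hrf : ∀ s z : ℂ, rf (P + C s * H) (Q + C s * G) z = (P + C s * H).eval z := by
    intro s z
    rw [rf, hQG, div_one]
  have hP0 : P ≠ 0 := by
    rintro rfl
    rw [natDegree_zero] at hPd
    omega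
  have hN : wr P Q ≠ 0 := by
    rw [hQ1, wr_one]
    intro h
    have := Polynomial.derivative_eq_zero.1 h
    omega
  -- uniform escape
  obtain ⟨R, ρe, hR1, hρe, hesc⟩ := Dyn.family_escape (d := d) hd
    (p := fun s => P + C s * H) ((Dyn.PF.const P).add (Dyn.PF.C.mul (Dyn.PF.const H)))
    (by
      intro s
      refine (natDegree_add_le _ _).trans (max_le hPd.le ?_)
      exact (natDegree_C_mul_le _ _).trans hHd)
    (by
      simp only [C_0, zero_mul, add_zero]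
      rw [← hPd]
      exact leadingCoeff_ne_zero.2 hP0)
  have hR0 : 0 < R := by linarith
  have hescP : ∀ z : ℂ, R ≤ ‖z‖ → 2 * ‖z‖ ≤ ‖P.eval z‖ := by
    intro z hz
    have := (hesc 0 (by simpa using hρe)).2 z hz
    simpa using this
  obtain ⟨Ks, hKs⟩ : ∃ Ks : Set ℂ, Ks = {z : ℂ | ¬ A (rf P Q) z} := ⟨_, rfl⟩
  rw [← hKs] at hS
  have hKc : IsCompact Ks := hS.cpt
  have hmemK : ∀ z : ℂ, z ∈ Ks ↔ ¬ A (rf P Q) z := fun z => by rw [hKs]; rfl
  have hKQ : ∀ z ∈ Ks, Q.eval z ≠ 0 := fun z _ => by rw [hQe]; exact one_ne_zero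
  obtain ⟨bad, hbadC, hbad⟩ : ∃ bad : Finset ℂ, bad = Cr ∧
      ∀ c, c ∈ bad ↔ (wr P Q).eval c = 0 ∧ c ∈ Ks :=
    ⟨Cr, rfl, fun c => by rw [hCr c, hmemK]⟩
  obtain ⟨k, hk⟩ : ∃ k : ℂ → ℕ, k = fun c => (wr P Q).rootMultiplicity c := ⟨_, rfl⟩
  have hk' : ∀ c, (wr P Q).rootMultiplicity c = k c := fun c => by rw [hk]
  have hk1 : ∀ c ∈ bad, 1 ≤ k c := by
    intro c hc
    rw [← hk', Nat.one_le_iff_ne_zero]
    intro h0
    have h1 := (Polynomial.rootMultiplicity_pos hN).2 ((hbad c).1 hc).1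
    omega
  have hTr' : ∀ c ∈ bad, (wr H Q + wr P G).eval c ≠ 0 ∧
        (Summable fun j => (H * Q - P * G).eval ((rf P Q)^[j] c) /
          Q.eval ((rf P Q)^[j] c) ^ 2 / deriv ((rf P Q)^[j]) (rf P Q c)) ∧
        ∑' j, (H * Q - P * G).eval ((rf P Q)^[j] c) / Q.eval ((rf P Q)^[j] c) ^ 2 /
          deriv ((rf P Q)^[j]) (rf P Q c) ≠ 0 := fun c hc =>
    hN₁ c ((hbad c).1 hc).1 ((hmemK c).1 ((hbad c).1 hc).2)
  have hBr := fun c : {c // c ∈ bad} => A1_branch (H := H) (G := G) (k := k c) (hk1 c c.2)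
    (hk' c) hN (hTr' c c.2).1
  choose τ t ρτ hρτ ht hτ0 hτd hτD hτcrit hτuniq using hBr
  set K : ℕ := ∏ c ∈ bad, k c with hKdef
  have hK : 1 ≤ K := Nat.one_le_iff_ne_zero.2
    (Finset.prod_ne_zero_iff.2 fun c hc => by have := hk1 c hc; omega)
  have hK0 : K ≠ 0 := by omega
  set l : ℂ → ℕ := fun c => K / k c with hl
  have hlk : ∀ c ∈ bad, l c * k c = K := fun c hc =>
    Nat.div_mul_cancel (Finset.dvd_prod_of_mem k hc)
  have hl1 : ∀ c ∈ bad, 1 ≤ l c := by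
    intro c hc
    by_contra h
    have h0 : l c = 0 := by omega
    have := hlk c hc
    rw [h0, zero_mul] at this
    omega
  obtain ⟨ρ₁, hρ₁, hρ₁1, hρ₁τ, hρ₁e⟩ : ∃ ρ₁ : ℝ, 0 < ρ₁ ∧ ρ₁ ≤ 1 ∧
      (∀ c, ρ₁ ≤ ρτ c) ∧ ρ₁ ≤ ρe := by
    have h1 : ∀ x : ℝ, 0 < x → ∀ᶠ y : ℝ in 𝓝[>] 0, y ≤ x := by
      intro x hx
      have h2 : ∀ᶠ y : ℝ in 𝓝 0, y < x := Iio_mem_nhds hx
      filter_upwards [h2.filter_mono nhdsWithin_le_nhds] with y hy using hy.le
    have h3 : ∀ᶠ y : ℝ in 𝓝[>] 0, ∀ c, y ≤ ρτ c := by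
      rw [Filter.eventually_all]
      exact fun c => h1 _ (hρτ c)
    obtain ⟨y, h4, h5, h6, h7⟩ := ((h1 1 one_pos).and (h3.and ((h1 ρe hρe).and
      self_mem_nhdsWithin))).exists
    exact ⟨y, h7, h4, h5, h6⟩
  have hpowlt : ∀ a : ℂ, ‖a‖ < ρ₁ → ‖a ^ K‖ < ρe := by
    intro a ha
    rw [norm_pow]
    have h1 : ‖a‖ ^ K ≤ ‖a‖ ^ 1 := pow_le_pow_of_le_one (norm_nonneg _) (ha.le.trans hρ₁1) hK
    rw [pow_one] at h1
    linarith
  -- the family
  have hfamv : ∀ a z : ℂ, fam P Q H G K a z = (P + C (a ^ K) * H).eval z := fun a z => hrf _ z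
  have hfamesc : ∀ a : ℂ, ‖a‖ < ρ₁ → ∀ z : ℂ, R ≤ ‖z‖ → 2 * ‖z‖ ≤ ‖fam P Q H G K a z‖ := by
    intro a ha z hz
    rw [hfamv]
    exact (hesc _ (hpowlt a ha)).2 z hz
  have hfamdiff : ∀ a : ℂ, Differentiable ℂ (fam P Q H G K a) := by
    intro a
    have h1 : fam P Q H G K a = fun z => (P + C (a ^ K) * H).eval z := by
      funext z
      exact hfamv a z
    rw [h1]
    exact (P + C (a ^ K) * H).differentiable
  have hfamC : ContDiff ℂ 1 (fun p : ℂ × ℂ => fam P Q H G K p.1 p.2) := by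
    rw [contDiff_iff_contDiffAt]
    intro p
    refine fam_contDiffAt p ?_
    change (Q + C (p.1 ^ K) * G).eval p.2 ≠ 0
    rw [hQG]
    exact one_ne_zero
  have hf0 : fam P Q H G K 0 = rf P Q := fam_zero hK
  -- the marked points
  let ι := Σ c : {c // c ∈ bad}, {ω // ω ∈ Polynomial.nthRootsFinset (k c) (1 : ℂ)}
  let ζ : ι → ℂ → ℂ := fun i a => τ i.1 ((i.2 : ℂ) * a ^ (l i.1))
  have hω : ∀ i : ι, (i.2 : ℂ) ^ (k i.1) = 1 := fun i =>
    (Polynomial.mem_nthRootsFinset (by have := hk1 i.1 i.1.2; omega) _).1 i.2.2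
  have hωn : ∀ i : ι, ‖(i.2 : ℂ)‖ = 1 := by
    intro i
    have h1 : ‖(i.2 : ℂ)‖ ^ (k i.1) = 1 := by rw [← norm_pow, hω i, norm_one]
    have h2 := hk1 i.1 i.1.2
    exact (pow_eq_one_iff_of_nonneg (norm_nonneg _) (by omega)).1 h1
  -- stability
  have hstab : ∀ z, A (fam P Q H G K 0) z →
      ∀ᶠ p : ℂ × ℂ in 𝓝 (0, z), A (fam P Q H G K p.1) p.2 := fun z hz =>
    hA.stable hfamC hR0 hρ₁ hfamesc hz
  have hstab2 : ∀ ε > (0 : ℝ), ∃ r > (0 : ℝ), ∀ a, ‖a‖ < r → ∀ z, z ∉ cthickening ε Ks →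
      A (fam P Q H G K a) z := by
    intro ε hε
    have hLc : IsCompact (closedBall (0 : ℂ) R \ thickening ε Ks) :=
      (isCompact_closedBall _ _).diff isOpen_thickening
    have h1 : ∀ᶠ a : ℂ in 𝓝 0, ∀ z ∈ closedBall (0 : ℂ) R \ thickening ε Ks,
        A (fam P Q H G K a) z := by
      refine hLc.eventually_forall_of_forall_eventually fun z hz => ?_
      refine hstab z ?_
      rw [hf0]
      by_contra h
      exact hz.2 (self_subset_thickening hε _ ((hmemK z).2 h))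
    obtain ⟨r, hr, hrs⟩ := Metric.mem_nhds_iff.1 h1
    refine ⟨min r ρ₁, lt_min hr hρ₁, fun a ha z hz => ?_⟩
    by_cases hzR : ‖z‖ ≤ R
    · exact hrs (mem_ball_zero_iff.2 (ha.trans_le (min_le_left _ _))) z
        ⟨mem_closedBall_zero_iff.2 hzR, fun h => hz (thickening_subset_cthickening _ _ h)⟩
    · push Not at hzR
      exact hA.large (Dyn.attr_of_large hR0 (hfamesc a (ha.trans_le (min_le_right _ _))) hzR.le)
  -- the estimates
  have hrate : ∀ i : ι, Rate fun σ => volume {a : ℂ | ‖a‖ ≤ σ ∧ ¬ A (fam P Q H G K a) (ζ i a)} := by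
    intro i
    have hc : (i.1 : ℂ) ∈ Cr := by rw [← hbadC]; exact i.1.2
    exact mark_bound (A := fun a z => A (fam P Q H G K a) z) hS hKQ hK hρ₁
      (fun a z _ _ h => hA.step (hfamdiff a) h) hstab2 hc hN (hk' i.1) (hl1 _ i.1.2)
      (hlk _ i.1.2) (hρτ i.1) (hτ0 i.1) (hτd i.1) (hτD i.1) (hωn i) (hTr' _ i.1.2).2.1
      (hTr' _ i.1.2).2.2
  -- every point is fine for small parameters
  have hall : ∀ᶠ a : ℂ in 𝓝 0, ∀ x ∈ closedBall (0 : ℂ) R,
      A (fam P Q H G K a) x ∨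
      (wr (P + C (a ^ K) * H) (Q + C (a ^ K) * G)).eval x ≠ 0 ∨
      ∃ i : ι, x = ζ i a := by
    refine (isCompact_closedBall (0 : ℂ) R).eventually_forall_of_forall_eventually fun z _ => ?_
    by_cases hx : A (rf P Q) z
    · filter_upwards [hstab z (by rw [hf0]; exact hx)] with p hp
      exact Or.inl hp
    · have hzK : z ∈ Ks := (hmemK z).2 hx
      by_cases hNz : (wr P Q).eval z = 0
      · have hzb : z ∈ bad := (hbad z).2 ⟨hNz, hzK⟩
        have hnear : ∀ᶠ p : ℂ × ℂ in 𝓝 (0, z), ‖p.2 - z‖ < ρτ ⟨z, hzb⟩ ∧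
            ‖p.1 ^ (l z)‖ < ρτ ⟨z, hzb⟩ := by
          refine Eventually.and ?_ ?_
          · have h1 : Continuous (fun p : ℂ × ℂ => ‖p.2 - z‖) := by fun_prop
            have h2 : ‖(((0 : ℂ), z) : ℂ × ℂ).2 - z‖ < ρτ ⟨z, hzb⟩ := by
              simpa using hρτ ⟨z, hzb⟩
            exact (h1.tendsto ((0 : ℂ), z)).eventually (Iio_mem_nhds h2)
          · have h1 : Continuous (fun p : ℂ × ℂ => ‖p.1 ^ (l z)‖) := by fun_prop
            have h2 : ‖(((0 : ℂ), z) : ℂ × ℂ).1 ^ (l z)‖ < ρτ ⟨z, hzb⟩ := by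
              have := hl1 z hzb
              simpa [zero_pow (show l z ≠ 0 by omega)] using hρτ ⟨z, hzb⟩
            exact (h1.tendsto ((0 : ℂ), z)).eventually (Iio_mem_nhds h2)
        filter_upwards [hnear] with p hp2
        by_cases hw : (wr (P + C (p.1 ^ K) * H) (Q + C (p.1 ^ K) * G)).eval p.2 = 0
        · right; right
          have e1 : (p.1 ^ (l z)) ^ (k z) = p.1 ^ K := by rw [← pow_mul, hlk z hzb]
          obtain ⟨ω, hω1, hω2⟩ := hτuniq ⟨z, hzb⟩ p.2 (p.1 ^ (l z)) hp2.1 hp2.2 (by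
            change (wr (P + C ((p.1 ^ (l z)) ^ (k z)) * H)
              (Q + C ((p.1 ^ (l z)) ^ (k z)) * G)).eval p.2 = 0
            rw [e1]
            exact hw)
          have hkz : 0 < k z := by have := hk1 z hzb; omega
          refine ⟨⟨⟨z, hzb⟩, ⟨ω, (Polynomial.mem_nthRootsFinset hkz _).2 hω1⟩⟩, ?_⟩
          change p.2 = τ ⟨z, hzb⟩ (ω * p.1 ^ (l z))
          rw [← hω2]
        · exact Or.inr (Or.inl hw)
      · have hNe : ∀ᶠ p : ℂ × ℂ in 𝓝 (0, z),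
            (wr (P + C (p.1 ^ K) * H) (Q + C (p.1 ^ K) * G)).eval p.2 ≠ 0 := by
          have h1 : Continuous (fun p : ℂ × ℂ =>
              (wr (P + C (p.1 ^ K) * H) (Q + C (p.1 ^ K) * G)).eval p.2) := by
            simp only [wr_family, Polynomial.eval_add, Polynomial.eval_mul, Polynomial.eval_C]
            have c1 : Continuous (fun p : ℂ × ℂ => (wr P Q).eval p.2) :=
              (wr P Q).continuous.comp continuous_snd
            have c2 : Continuous (fun p : ℂ × ℂ => (wr H Q).eval p.2) :=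
              (wr H Q).continuous.comp continuous_snd
            have c3 : Continuous (fun p : ℂ × ℂ => (wr P G).eval p.2) :=
              (wr P G).continuous.comp continuous_snd
            have c4 : Continuous (fun p : ℂ × ℂ => (wr H G).eval p.2) :=
              (wr H G).continuous.comp continuous_snd
            fun_prop
          refine h1.continuousAt.eventually_ne ?_
          change (wr (P + C ((0 : ℂ) ^ K) * H) (Q + C ((0 : ℂ) ^ K) * G)).eval z ≠ 0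
          rw [zero_pow hK0]
          simpa using hNz
        filter_upwards [hNe] with p hp2
        exact Or.inr (Or.inl hp2)
  obtain ⟨δ, hδ, hδs⟩ := Metric.mem_nhds_iff.1 hall
  refine push hK hrate (S := fun s => ∃ c : ℂ, (wr (P + C s * H) (Q + C s * G)).eval c = 0 ∧
            ¬ A (rf (P + C s * H) (Q + C s * G)) c) (lt_min hδ hρ₁) ?_
  rintro a ha ⟨c, hc, hAc⟩
  have haδ : ‖a‖ < δ := ha.trans_le (min_le_left _ _)
  have haρ : ‖a‖ < ρ₁ := ha.trans_le (min_le_right _ _)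
  have ha1 := hδs (mem_ball_zero_iff.2 haδ)
  by_cases hcR : ‖c‖ ≤ R
  · rcases ha1 c (mem_closedBall_zero_iff.2 hcR) with h | h | ⟨i, h⟩
    · exact absurd h hAc
    · exact absurd hc h
    · refine ⟨i, ?_⟩
      rw [← h]
      exact hAc
  · push Not at hcR
    exact absurd (hA.large (Dyn.attr_of_large hR0 (hfamesc a haρ) hcR.le)) hAc

end Pool.Agent.H211.AD
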