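import Pool.Agent.H211.AD.Stm4
import Pool.Agent.H211.AD.Asm

/-! From the marked points to the parameter `s = a ^ K`. -/

set_option autoImplicit false

open Metric Set MeasureTheory Filter Topology Polynomial
open scoped OnePoint ENNReal

namespace Pool.Agent.H211.AD

open Pool.Agent.H792R2.CE Pool.Agent.H792R2

/-- volume bounds with a power rate -/
def Rate (V : ℝ → ℝ≥0∞) : Prop :=
  ∃ c > (0 : ℝ), ∃ C > (0 : ℝ), ∃ r₁ > (0 : ℝ), ∀ r : ℝ, 0 < r → r < r₁ →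
    V r ≤ ENNReal.ofReal (C * r ^ ((2 : ℝ) + c))

theorem Rate.zero : Rate (fun _ => 0) := ⟨1, one_pos, 1, one_pos, 1, one_pos, fun _ _ _ => bot_le⟩

theorem Rate.add {V W : ℝ → ℝ≥0∞} (hV : Rate V) (hW : Rate W) : Rate (fun r => V r + W r) := by
  obtain ⟨c, hc, C, hC, r₁, hr₁, h⟩ := hV
  obtain ⟨c', hc', C', hC', r₁', hr₁', h'⟩ := hW
  refine ⟨min c c', lt_min hc hc', C + C', by positivity, min 1 (min r₁ r₁'), by positivity, ?_⟩
  intro r hr hrr
  have h1 : r < 1 := hrr.trans_le (min_le_left _ _)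
  have h2 : r < r₁ := hrr.trans_le ((min_le_right _ _).trans (min_le_left _ _))
  have h3 : r < r₁' := hrr.trans_le ((min_le_right _ _).trans (min_le_right _ _))
  have e1 : r ^ ((2 : ℝ) + c) ≤ r ^ ((2 : ℝ) + min c c') :=
    Real.rpow_le_rpow_of_exponent_ge hr h1.le (by have := min_le_left c c'; linarith)
  have e2 : r ^ ((2 : ℝ) + c') ≤ r ^ ((2 : ℝ) + min c c') :=
    Real.rpow_le_rpow_of_exponent_ge hr h1.le (by have := min_le_right c c'; linarith)
  calc V r + W r ≤ ENNReal.ofReal (C * r ^ ((2 : ℝ) + c)) +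
        ENNReal.ofReal (C' * r ^ ((2 : ℝ) + c')) := add_le_add (h r hr h2) (h' r hr h3)
    _ = ENNReal.ofReal (C * r ^ ((2 : ℝ) + c) + C' * r ^ ((2 : ℝ) + c')) := by
        rw [ENNReal.ofReal_add (by positivity) (by positivity)]
    _ ≤ _ := by
        apply ENNReal.ofReal_le_ofReal
        rw [add_mul]
        exact add_le_add (mul_le_mul_of_nonneg_left e1 hC.le)
          (mul_le_mul_of_nonneg_left e2 hC'.le)

theorem Rate.mono {V W : ℝ → ℝ≥0∞} (hW : Rate W) (h : ∀ r, V r ≤ W r) : Rate V := by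
  obtain ⟨c, hc, C, hC, r₁, hr₁, h1⟩ := hW
  exact ⟨c, hc, C, hC, r₁, hr₁, fun r hr hrr => (h r).trans (h1 r hr hrr)⟩

theorem Rate.sum {ι : Type} (S : Finset ι) {V : ι → ℝ → ℝ≥0∞} (h : ∀ i ∈ S, Rate (V i)) :
    Rate (fun r => ∑ i ∈ S, V i r) := by
  classical
  induction S using Finset.induction_on with
  | empty => exact Rate.zero.mono fun r => by simp
  | insert i S hi ih =>
    refine ((h i (Finset.mem_insert_self _ _)).add
      (ih fun j hj => h j (Finset.mem_insert_of_mem hj))).mono fun r => ?_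
    rw [Finset.sum_insert hi]

/-- from the parameter `a` to `s = a ^ K` -/
theorem push {K : ℕ} (hK : 1 ≤ K) {ι : Type} [Fintype ι] {Bd : ι → ℂ → Prop}
    (h : ∀ i, Rate fun σ => volume {a : ℂ | ‖a‖ ≤ σ ∧ Bd i a}) {S : ℂ → Prop} {δ : ℝ} (hδ : 0 < δ)
    (hS : ∀ a : ℂ, ‖a‖ < δ → S (a ^ K) → ∃ i, Bd i a) :
    Rate fun r => volume {s : ℂ | ‖s‖ < r ∧ S s} := by
  have hK0 : K ≠ 0 := by omega
  have hKR : (0 : ℝ) < K := by exact_mod_cast hK
  have h1 : Rate fun σ => volume {a : ℂ | ‖a‖ ≤ σ ∧ ∃ i, Bd i a} := by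
    refine (Rate.sum Finset.univ fun i _ => h i).mono fun σ => ?_
    refine le_trans (measure_mono ?_) (measure_biUnion_finset_le Finset.univ
      (fun i => {a : ℂ | ‖a‖ ≤ σ ∧ Bd i a}))
    rintro a ⟨ha, i, hi⟩
    simp only [mem_iUnion]
    exact ⟨i, Finset.mem_univ i, ha, hi⟩
  obtain ⟨c, hc, C, hC, σ₁, hσ₁, h2⟩ := h1
  refine ⟨c / K, by positivity, K ^ 2 * C, by positivity, (min σ₁ δ) ^ K, by positivity, ?_⟩
  intro r hr hrr
  set σ : ℝ := r ^ ((1 : ℝ) / K) with hσ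
  have hσ0 : 0 < σ := Real.rpow_pos_of_pos hr _
  have hσK : σ ^ K = r := by
    rw [hσ, ← Real.rpow_natCast, ← Real.rpow_mul hr.le, one_div_mul_cancel hKR.ne',
      Real.rpow_one]
  have hσm : σ < min σ₁ δ := by
    rw [← hσK] at hrr
    exact lt_of_pow_lt_pow_left₀ K (by positivity) hrr
  have hsub : {s : ℂ | ‖s‖ < r ∧ S s} ⊆
      (fun a : ℂ => a ^ K) '' {a : ℂ | ‖a‖ ≤ σ ∧ ∃ i, Bd i a} := by
    rintro s ⟨hs, hGs⟩
    obtain ⟨a, ha⟩ := IsAlgClosed.exists_pow_nat_eq s hK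
    have har : ‖a‖ < σ := by
      rw [← ha, norm_pow, ← hσK] at hs
      exact lt_of_pow_lt_pow_left₀ K hσ0.le hs
    rw [← ha] at hGs
    exact ⟨a, ⟨har.le, hS a (har.trans (hσm.trans_le (min_le_right _ _))) hGs⟩, ha⟩
  calc volume {s : ℂ | ‖s‖ < r ∧ S s}
      ≤ volume ((fun a : ℂ => a ^ K) '' {a : ℂ | ‖a‖ ≤ σ ∧ ∃ i, Bd i a}) := measure_mono hsub
    _ ≤ ENNReal.ofReal (((K : ℝ) * σ ^ (K - 1)) ^ 2) *
          volume {a : ℂ | ‖a‖ ≤ σ ∧ ∃ i, Bd i a} :=
        Pool.Agent.H211.LD.pow_image hσ0.le fun a ha => mem_closedBall_zero_iff.2 ha.1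
    _ ≤ ENNReal.ofReal (((K : ℝ) * σ ^ (K - 1)) ^ 2) *
          ENNReal.ofReal (C * σ ^ ((2 : ℝ) + c)) := by
        gcongr
        exact h2 σ hσ0 (hσm.trans_le (min_le_left _ _))
    _ = ENNReal.ofReal (K ^ 2 * C * r ^ ((2 : ℝ) + c / K)) := by
        rw [← ENNReal.ofReal_mul (by positivity)]
        congr 1
        have e1 : σ ^ K = σ ^ (K - 1) * σ := by
          rw [← pow_succ]
          congr 1
          omega
        have e2 : σ ^ ((2 : ℝ) + c) = σ ^ 2 * σ ^ c := by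
          rw [Real.rpow_add hσ0]
          norm_num
        have e3 : r ^ ((2 : ℝ) + c / K) = r ^ 2 * σ ^ c := by
          rw [Real.rpow_add hr, hσ, ← Real.rpow_mul hr.le]
          norm_num
          left
          congr 1
          ring
        have e4 : r ^ 2 = (σ ^ (K - 1) * σ) ^ 2 := by rw [← e1, hσK]
        rw [e2, e3, e4]
        ring

end Pool.Agent.H211.AD
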