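import Pool.Agent.H211.AD.Mark
import Pool.Agent.H720.AD211.TRR
import Pool.Agent.H720.AD211.POW
import Pool.Agent.H401.AD211.RBACK
import Pool.Agent.H211.LR.Core

/-! Rational maps: one direction. -/

set_option autoImplicit false

open Filter Topology Metric Set Polynomial MeasureTheory
open scoped OnePoint ENNReal

namespace Pool.Agent.H211.AD

open Pool.Agent.Helper114.Herman Pool.Agent.H762R2.Rt
open Pool.Agent.H792R2.CE Pool.Agent.H211.LD Pool.Agent.H792R2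
open Pool.Agent.H211.LR (GoodR)

theorem rcore (hRLa : S_RLATE) {P Q H G : ℂ[X]} {d : ℕ} (hd : 2 ≤ d) (hPQ : IsCoprime P Q)
    (hPd : P.natDegree ≤ d) (hQd : Q.natDegree = d) (hHd : H.natDegree ≤ d)
    (hGd : G.natDegree ≤ d) (hinf : Att d P Q ∞)
    (hCE : ∀ c : ℂ, (wr P Q).eval c = 0 → Att d P Q (c : OnePoint ℂ) ∨
      ∃ μ : ℝ, 1 < μ ∧ ∀ᶠ n : ℕ in atTop, μ ^ n ≤ ‖deriv ((rf P Q)^[n]) (rf P Q c)‖)
    (hN₁0 : ∀ c : ℂ, (wr P Q).eval c = 0 → ¬ Att d P Q (c : OnePoint ℂ) →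
      (wr H Q + wr P G).eval c ≠ 0 ∧
        (Summable fun j => (H * Q - P * G).eval ((rf P Q)^[j] c) /
          Q.eval ((rf P Q)^[j] c) ^ 2 / deriv ((rf P Q)^[j]) (rf P Q c)) ∧
        ∑' j, (H * Q - P * G).eval ((rf P Q)^[j] c) / Q.eval ((rf P Q)^[j] c) ^ 2 /
          deriv ((rf P Q)^[j]) (rf P Q c) ≠ 0) :
    Rate fun r => volume {s : ℂ | ‖s‖ < r ∧ ¬ GoodR d (P + C s * H) (Q + C s * G)} := by
  classical
  obtain ⟨Cr, ℓ, δ₀, Cp, rp, c₀, μ, hS, hCr⟩ := rsys Pool.Agent.H720.AD211.t_POW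
    Pool.Agent.H401.AD211.RBACK.t_RBACK Pool.Agent.H97.AD211.t_RLIFT hRLa hd hPQ hPd hQd hinf hCE
  have hd0 : 0 < d := by omega
  have hcont : Continuous (sph d P Q) := B1_continuous hPQ hPd hQd
  have hN : wr P Q ≠ 0 := wr_ne_zero hd0 hPQ hQd
  obtain ⟨Ks, hKs⟩ : ∃ Ks : Set ℂ, Ks = {z : ℂ | ¬ Att d P Q (z : OnePoint ℂ)} := ⟨_, rfl⟩
  have hKc : IsCompact Ks := by rw [hKs]; exact natt_compact hd0 hPQ hPd hQd hinf
  have hstay : ∀ z ∈ Ks, ∀ n, (rf P Q)^[n] z ∈ Ks ∧ Q.eval ((rf P Q)^[n] z) ≠ 0 := by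
    rw [hKs]; exact fun z hz n => natt_iter hcont hinf hz n
  have hKQ : ∀ z ∈ Ks, Q.eval z ≠ 0 := fun z hz => by
    have := (hstay z hz 0).2
    simpa using this
  have hmemK : ∀ z : ℂ, z ∈ Ks ↔ ¬ Att d P Q (z : OnePoint ℂ) := fun z => by rw [hKs]; rfl
  have hRK : RK d P Q = Ks := by rw [hKs]; rfl
  rw [hRK] at hS
  obtain ⟨bad, hbadC, hbad⟩ : ∃ bad : Finset ℂ, bad = Cr ∧
      ∀ c, c ∈ bad ↔ (wr P Q).eval c = 0 ∧ c ∈ Ks :=
    ⟨Cr, rfl, fun c => by rw [hCr c, hmemK]⟩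
  obtain ⟨k, hk⟩ : ∃ k : ℂ → ℕ, k = fun c => (wr P Q).rootMultiplicity c := ⟨_, rfl⟩
  have hk' : ∀ c, (wr P Q).rootMultiplicity c = k c := fun c => by rw [hk]
  have hk1 : ∀ c ∈ bad, 1 ≤ k c := by
    intro c hc
    rw [← hk', Nat.one_le_iff_ne_zero]
    intro h0
    have h1 := (Polynomial.rootMultiplicity_pos hN).2 ((hbad c).1 hc).1
    omega
  have hTr' : ∀ c ∈ bad, (wr H Q + wr P G).eval c ≠ 0 ∧
        (Summable fun j => (H * Q - P * G).eval ((rf P Q)^[j] c) /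
          Q.eval ((rf P Q)^[j] c) ^ 2 / deriv ((rf P Q)^[j]) (rf P Q c)) ∧
        ∑' j, (H * Q - P * G).eval ((rf P Q)^[j] c) / Q.eval ((rf P Q)^[j] c) ^ 2 /
          deriv ((rf P Q)^[j]) (rf P Q c) ≠ 0 := fun c hc =>
    hN₁0 c ((hbad c).1 hc).1 ((hmemK c).1 ((hbad c).1 hc).2)
  have hBr := fun c : {c // c ∈ bad} => A1_branch (H := H) (G := G) (k := k c) (hk1 c c.2)
    (hk' c) hN (hTr' c c.2).1
  choose τ t ρτ hρτ ht hτ0 hτd hτD hτcrit hτuniq using hBr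
  set K : ℕ := ∏ c ∈ bad, k c with hKdef
  have hK : 1 ≤ K := Nat.one_le_iff_ne_zero.2
    (Finset.prod_ne_zero_iff.2 fun c hc => by have := hk1 c hc; omega)
  have hK0 : K ≠ 0 := by omega
  set l : ℂ → ℕ := fun c => K / k c with hl
  have hlk : ∀ c ∈ bad, l c * k c = K := fun c hc =>
    Nat.div_mul_cancel (Finset.dvd_prod_of_mem k hc)
  have hl1 : ∀ c ∈ bad, 1 ≤ l c := by
    intro c hc
    by_contra h
    have h0 : l c = 0 := by omega
    have := hlk c hc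
    rw [h0, zero_mul] at this
    omega
  have hB : ∀ (n : ℕ) (x : OnePoint ℂ), ContinuousAt (fun p : ℂ × OnePoint ℂ =>
      (sph d (P + C p.1 * H) (Q + C p.1 * G))^[n] p.2) (0, x) :=
    fun n x => B2_joint hd0 hPQ hPd hQd hHd hGd n x
  have hpow : Tendsto (fun a : ℂ => a ^ K) (𝓝 0) (𝓝 0) := by
    have h1 : Tendsto (fun a : ℂ => a ^ K) (𝓝 0) (𝓝 (0 ^ K)) :=
      Continuous.tendsto (by fun_prop) 0
    rwa [zero_pow hK0] at h1
  have hQc : Continuous (fun p : ℂ × ℂ => (Q + C (p.1 ^ K) * G).eval p.2) := by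
    simp only [Polynomial.eval_add, Polynomial.eval_mul, Polynomial.eval_C]
    have h1 : Continuous (fun p : ℂ × ℂ => Q.eval p.2) := Q.continuous.comp continuous_snd
    have h2 : Continuous (fun p : ℂ × ℂ => G.eval p.2) := G.continuous.comp continuous_snd
    fun_prop
  have hQ00 : ∀ z : ℂ, (Q + C ((0 : ℂ) ^ K) * G).eval z = Q.eval z := by
    intro z
    simp [zero_pow hK0]
  -- the neighbourhood of the non-attracted set
  obtain ⟨δ₁, hδ₁, hδ₁s⟩ := hKc.exists_cthickening_subset_open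
    (isOpen_ne.preimage Q.continuous : IsOpen ((fun z => Q.eval z) ⁻¹' {w | w ≠ 0})) hKQ
  have hK₁c : IsCompact (cthickening δ₁ Ks) := hKc.cthickening
  have hevK : ∀ᶠ a : ℂ in 𝓝 0, ∀ z ∈ cthickening δ₁ Ks, (Q + C (a ^ K) * G).eval z ≠ 0 := by
    refine hK₁c.eventually_forall_of_forall_eventually fun z hz => ?_
    refine hQc.continuousAt.eventually_ne ?_
    change (Q + C ((0 : ℂ) ^ K) * G).eval z ≠ 0
    rw [hQ00]
    exact hδ₁s hz
  have hevC : ∀ᶠ a : ℂ in 𝓝 0, IsCoprime (P + C (a ^ K) * H) (Q + C (a ^ K) * G) ∧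
      (P + C (a ^ K) * H).natDegree ≤ d ∧ (Q + C (a ^ K) * G).natDegree = d :=
    hpow.eventually (B3_coprime hd0 hPQ hPd hQd hHd hGd)
  have hevτ : ∀ c : {c // c ∈ bad}, ∃ η > 0, ∀ a b : ℂ, ‖a‖ < η → ‖b‖ < η →
      (Q + C (a ^ K) * G).eval (τ c b) ≠ 0 := by
    intro c
    have h1 : ∀ᶠ p : ℂ × ℂ in 𝓝 (0, 0), (Q + C (p.1 ^ K) * G).eval (τ c p.2) ≠ 0 := by
      have h2 : ContinuousAt (fun p : ℂ × ℂ => (p.1, τ c p.2)) (0, 0) := by
        have h3 : ContinuousAt (τ c) 0 := (hτd c).continuousAt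
        exact continuousAt_fst.prodMk (ContinuousAt.comp (g := τ c)
          (f := fun p : ℂ × ℂ => p.2) (x := ((0 : ℂ), (0 : ℂ))) h3 continuousAt_snd)
      have h4 : ContinuousAt (fun p : ℂ × ℂ => (Q + C (p.1 ^ K) * G).eval (τ c p.2)) (0, 0) :=
        ContinuousAt.comp (g := fun p : ℂ × ℂ => (Q + C (p.1 ^ K) * G).eval p.2)
          (f := fun p : ℂ × ℂ => (p.1, τ c p.2)) (x := ((0 : ℂ), (0 : ℂ))) hQc.continuousAt h2
      refine h4.eventually_ne ?_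
      change (Q + C ((0 : ℂ) ^ K) * G).eval (τ c 0) ≠ 0
      rw [hQ00, hτ0]
      exact hKQ _ ((hbad c).1 c.2).2
    obtain ⟨η, hη, hηs⟩ := Metric.mem_nhds_iff.1 h1
    refine ⟨η, hη, fun a b ha hb => ?_⟩
    have h5 : ((a, b) : ℂ × ℂ) ∈ ball ((0 : ℂ), (0 : ℂ)) η := by
      rw [mem_ball, Prod.dist_eq, max_lt_iff]
      exact ⟨by simpa using ha, by simpa using hb⟩
    exact hηs h5
  choose ητ hητ hητs using hevτ
  obtain ⟨η₀, hη₀, hη₀s⟩ := Metric.mem_nhds_iff.1 (hevK.and hevC)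
  obtain ⟨ρ₁, hρ₁, hρ₁1, hρ₁τ, hρ₁η⟩ : ∃ ρ₁ : ℝ, 0 < ρ₁ ∧ ρ₁ ≤ 1 ∧
      (∀ c, ρ₁ ≤ ρτ c ∧ ρ₁ ≤ ητ c) ∧ ρ₁ ≤ η₀ := by
    have h1 : ∀ x : ℝ, 0 < x → ∀ᶠ y : ℝ in 𝓝[>] 0, y ≤ x := by
      intro x hx
      have h2 : ∀ᶠ y : ℝ in 𝓝 0, y < x := Iio_mem_nhds hx
      filter_upwards [h2.filter_mono nhdsWithin_le_nhds] with y hy using hy.le
    have h3 : ∀ᶠ y : ℝ in 𝓝[>] 0, ∀ c, y ≤ ρτ c ∧ y ≤ ητ c := by
      rw [Filter.eventually_all]
      exact fun c => (h1 _ (hρτ c)).and (h1 _ (hητ c))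
    obtain ⟨y, h4, h5, h6, h7⟩ := ((h1 1 one_pos).and (h3.and ((h1 η₀ hη₀).and
      self_mem_nhdsWithin))).exists
    exact ⟨y, h7, h4, h5, h6⟩
  have hsm0 : ∀ a : ℂ, ‖a‖ < ρ₁ → (∀ z ∈ cthickening δ₁ Ks, (Q + C (a ^ K) * G).eval z ≠ 0) ∧
      IsCoprime (P + C (a ^ K) * H) (Q + C (a ^ K) * G) ∧
      (P + C (a ^ K) * H).natDegree ≤ d ∧ (Q + C (a ^ K) * G).natDegree = d := by
    intro a ha
    exact hη₀s (mem_ball_zero_iff.2 (lt_of_lt_of_le ha hρ₁η))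
  -- the marked points
  let ι := Σ c : {c // c ∈ bad}, {ω // ω ∈ Polynomial.nthRootsFinset (k c) (1 : ℂ)}
  let ζ : ι → ℂ → ℂ := fun i a => τ i.1 ((i.2 : ℂ) * a ^ (l i.1))
  have hω : ∀ i : ι, (i.2 : ℂ) ^ (k i.1) = 1 := fun i =>
    (Polynomial.mem_nthRootsFinset (by have := hk1 i.1 i.1.2; omega) _).1 i.2.2
  have hωn : ∀ i : ι, ‖(i.2 : ℂ)‖ = 1 := by
    intro i
    have h1 : ‖(i.2 : ℂ)‖ ^ (k i.1) = 1 := by rw [← norm_pow, hω i, norm_one]
    have h2 := hk1 i.1 i.1.2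
    exact (pow_eq_one_iff_of_nonneg (norm_nonneg _) (by omega)).1 h1
  have hf0 : fam P Q H G K 0 = rf P Q := fam_zero hK
  have hinfev : ∀ᶠ p : ℂ × OnePoint ℂ in 𝓝 (0, ∞),
      Att d (P + C (p.1 ^ K) * H) (Q + C (p.1 ^ K) * G) p.2 :=
    att_stable_pow (H := H) (G := G) (K := K) hK hB hinf
  have hstab2 : ∀ ε > (0 : ℝ), ∃ r > (0 : ℝ), ∀ a : ℂ, ‖a‖ < r → ∀ z : ℂ, z ∉ cthickening ε Ks →
      Att d (P + C (a ^ K) * H) (Q + C (a ^ K) * G) (z : OnePoint ℂ) := by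
    intro ε hε
    have hLo : IsOpen ((OnePoint.some : ℂ → OnePoint ℂ) '' thickening ε Ks) :=
      OnePoint.isOpenEmbedding_coe.isOpenMap _ isOpen_thickening
    have hLc : IsCompact (((OnePoint.some : ℂ → OnePoint ℂ) '' thickening ε Ks)ᶜ) :=
      hLo.isClosed_compl.isCompact
    have h1 : ∀ᶠ a : ℂ in 𝓝 0, ∀ x ∈ ((OnePoint.some : ℂ → OnePoint ℂ) '' thickening ε Ks)ᶜ,
        Att d (P + C (a ^ K) * H) (Q + C (a ^ K) * G) x := by
      refine hLc.eventually_forall_of_forall_eventually fun x hx => ?_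
      refine att_stable_pow (H := H) (G := G) (K := K) hK hB ?_
      by_contra h
      apply hx
      induction x using OnePoint.rec with
      | infty => exact absurd hinf h
      | coe z => exact ⟨z, self_subset_thickening hε _ ((hmemK z).2 h), rfl⟩
    obtain ⟨r, hr, hrs⟩ := Metric.mem_nhds_iff.1 h1
    refine ⟨r, hr, fun a ha z hz => hrs (mem_ball_zero_iff.2 ha) (z : OnePoint ℂ) ?_⟩
    rintro ⟨z', hz', he⟩
    rw [OnePoint.coe_injective he] at hz'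
    exact hz (thickening_subset_cthickening _ _ hz')
  -- the estimates
  have hrate : ∀ i : ι, Rate fun σ => volume {a : ℂ | ‖a‖ ≤ σ ∧
      ¬ Att d (P + C (a ^ K) * H) (Q + C (a ^ K) * G) ((ζ i a : ℂ) : OnePoint ℂ)} := by
    intro i
    have hc : (i.1 : ℂ) ∈ Cr := by rw [← hbadC]; exact i.1.2
    refine mark_bound (A := fun a z => Att d (P + C (a ^ K) * H) (Q + C (a ^ K) * G)
      ((z : ℂ) : OnePoint ℂ)) hS hKQ hK hρ₁ ?_ hstab2 hc hN (hk' i.1) (hl1 _ i.1.2)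
      (hlk _ i.1.2) (hρτ i.1) (hτ0 i.1) (hτd i.1) (hτD i.1) (hωn i) (hTr' _ i.1.2).2.1
      (hTr' _ i.1.2).2.2
    intro a z ha hz h
    obtain ⟨-, h1, h2, h3⟩ := hsm0 a ha
    apply C2_step (B1_continuous h1 h2 h3)
    rw [sph_coe_of_ne hz]
    exact h
  -- every point is fine for small parameters
  have hall : ∀ᶠ a : ℂ in 𝓝 0, ∀ x ∈ (Set.univ : Set (OnePoint ℂ)),
      Att d (P + C (a ^ K) * H) (Q + C (a ^ K) * G) x ∨
      (∃ z : ℂ, x = (z : OnePoint ℂ) ∧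
        (wr (P + C (a ^ K) * H) (Q + C (a ^ K) * G)).eval z ≠ 0) ∨
      ∃ i : ι, x = ((ζ i a : ℂ) : OnePoint ℂ) := by
    refine isCompact_univ.eventually_forall_of_forall_eventually fun x _ => ?_
    by_cases hx : Att d P Q x
    · filter_upwards [att_stable_pow (H := H) (G := G) (K := K) hK hB hx] with p hp
      exact Or.inl hp
    · induction x using OnePoint.rec with
      | infty => exact absurd hinf hx
      | coe z =>
        have hzK : z ∈ Ks := (hmemK z).2 hx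
        have hQz := hKQ z hzK
        -- near `(0, z)` everything is finite
        have hemb : Topology.IsOpenEmbedding
            (fun p : ℂ × ℂ => ((p.1, (p.2 : OnePoint ℂ)) : ℂ × OnePoint ℂ)) :=
          Topology.IsOpenEmbedding.id.prodMap OnePoint.isOpenEmbedding_coe
        have hmap : 𝓝 (((0 : ℂ), (z : OnePoint ℂ)) : ℂ × OnePoint ℂ) =
            Filter.map (fun p : ℂ × ℂ => ((p.1, (p.2 : OnePoint ℂ)) : ℂ × OnePoint ℂ))
              (𝓝 (0, z)) := (hemb.map_nhds_eq (0, z)).symm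
        rw [hmap, Filter.eventually_map]
        have hQe : ∀ᶠ p : ℂ × ℂ in 𝓝 (0, z), (Q + C (p.1 ^ K) * G).eval p.2 ≠ 0 := by
          refine hQc.continuousAt.eventually_ne ?_
          change (Q + C ((0 : ℂ) ^ K) * G).eval z ≠ 0
          rw [hQ00]
          exact hQz
        by_cases hNz : (wr P Q).eval z = 0
        · have hzb : z ∈ bad := (hbad z).2 ⟨hNz, hzK⟩
          have hnear : ∀ᶠ p : ℂ × ℂ in 𝓝 (0, z), ‖p.2 - z‖ < ρτ ⟨z, hzb⟩ ∧
              ‖p.1 ^ (l z)‖ < ρτ ⟨z, hzb⟩ := by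
            refine Eventually.and ?_ ?_
            · have h1 : Continuous (fun p : ℂ × ℂ => ‖p.2 - z‖) := by fun_prop
              have h2 : ‖(((0 : ℂ), z) : ℂ × ℂ).2 - z‖ < ρτ ⟨z, hzb⟩ := by
                simpa using hρτ ⟨z, hzb⟩
              exact (h1.tendsto ((0 : ℂ), z)).eventually (Iio_mem_nhds h2)
            · have h1 : Continuous (fun p : ℂ × ℂ => ‖p.1 ^ (l z)‖) := by fun_prop
              have h2 : ‖(((0 : ℂ), z) : ℂ × ℂ).1 ^ (l z)‖ < ρτ ⟨z, hzb⟩ := by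
                have := hl1 z hzb
                simpa [zero_pow (show l z ≠ 0 by omega)] using hρτ ⟨z, hzb⟩
              exact (h1.tendsto ((0 : ℂ), z)).eventually (Iio_mem_nhds h2)
          filter_upwards [hQe, hnear] with p hp hp2
          by_cases hw : (wr (P + C (p.1 ^ K) * H) (Q + C (p.1 ^ K) * G)).eval p.2 = 0
          · right; right
            have e1 : (p.1 ^ (l z)) ^ (k z) = p.1 ^ K := by rw [← pow_mul, hlk z hzb]
            obtain ⟨ω, hω1, hω2⟩ := hτuniq ⟨z, hzb⟩ p.2 (p.1 ^ (l z)) hp2.1 hp2.2 (by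
              change (wr (P + C ((p.1 ^ (l z)) ^ (k z)) * H)
                (Q + C ((p.1 ^ (l z)) ^ (k z)) * G)).eval p.2 = 0
              rw [e1]
              exact hw)
            have hkz : 0 < k z := by have := hk1 z hzb; omega
            refine ⟨⟨⟨z, hzb⟩, ⟨ω, (Polynomial.mem_nthRootsFinset hkz _).2 hω1⟩⟩, ?_⟩
            change ((p.2 : ℂ) : OnePoint ℂ) = ((τ ⟨z, hzb⟩ (ω * p.1 ^ (l z)) : ℂ) : OnePoint ℂ)
            rw [← hω2]
          · right; left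
            exact ⟨p.2, rfl, hw⟩
        · have hNe : ∀ᶠ p : ℂ × ℂ in 𝓝 (0, z),
              (wr (P + C (p.1 ^ K) * H) (Q + C (p.1 ^ K) * G)).eval p.2 ≠ 0 := by
            have h1 : Continuous (fun p : ℂ × ℂ =>
                (wr (P + C (p.1 ^ K) * H) (Q + C (p.1 ^ K) * G)).eval p.2) := by
              simp only [wr_family, Polynomial.eval_add, Polynomial.eval_mul, Polynomial.eval_C]
              have c1 : Continuous (fun p : ℂ × ℂ => (wr P Q).eval p.2) :=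
                (wr P Q).continuous.comp continuous_snd
              have c2 : Continuous (fun p : ℂ × ℂ => (wr H Q).eval p.2) :=
                (wr H Q).continuous.comp continuous_snd
              have c3 : Continuous (fun p : ℂ × ℂ => (wr P G).eval p.2) :=
                (wr P G).continuous.comp continuous_snd
              have c4 : Continuous (fun p : ℂ × ℂ => (wr H G).eval p.2) :=
                (wr H G).continuous.comp continuous_snd
              fun_prop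
            refine h1.continuousAt.eventually_ne ?_
            change (wr (P + C ((0 : ℂ) ^ K) * H) (Q + C ((0 : ℂ) ^ K) * G)).eval z ≠ 0
            rw [zero_pow hK0]
            simpa using hNz
          filter_upwards [hQe, hNe] with p hp hp2
          right; left
          exact ⟨p.2, rfl, hp2⟩
  have hinfev2 : ∀ᶠ a : ℂ in 𝓝 0, Att d (P + C (a ^ K) * H) (Q + C (a ^ K) * G) ∞ := by
    have h2 : Tendsto (fun a : ℂ => ((a, ∞) : ℂ × OnePoint ℂ)) (𝓝 0) (𝓝 (0, ∞)) := by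
      have : Continuous (fun a : ℂ => ((a, ∞) : ℂ × OnePoint ℂ)) := by fun_prop
      exact this.tendsto 0
    exact h2.eventually hinfev
  obtain ⟨δ, hδ, hδs⟩ := Metric.mem_nhds_iff.1 (hall.and hinfev2)
  refine push hK hrate (S := fun s => ¬ GoodR d (P + C s * H) (Q + C s * G))
    (lt_min hδ hρ₁) ?_
  intro a ha hGs
  have haδ : ‖a‖ < δ := ha.trans_le (min_le_left _ _)
  have haρ : ‖a‖ < ρ₁ := ha.trans_le (min_le_right _ _)
  obtain ⟨ha1, ha2⟩ := hδs (mem_ball_zero_iff.2 haδ)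
  by_contra hcon
  push Not at hcon
  apply hGs
  obtain ⟨-, h1, h2, h3⟩ := hsm0 a haρ
  refine ⟨h1, h2, h3, ha2, fun z hz => ?_⟩
  rcases ha1 (z : OnePoint ℂ) (Set.mem_univ _) with h | ⟨z', hz', h⟩ | ⟨i, h⟩
  · exact h
  · rw [OnePoint.coe_injective hz'] at hz
    exact absurd hz h
  · rw [h]
    exact hcon i

end Pool.Agent.H211.AD
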