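import Mathlib

/-!
# Lebesgue density of hyperbolicity at Collet-Eckmann maps, at all scales: definitions, statements

Part A: exponential decay of the area of the points whose `n`-th iterate is close to the set `K` of
the points which are not attracted.
-/

set_option autoImplicit false

open Metric Set MeasureTheory Filter Topology

namespace Pool.Agent.H211.AD

/-- The points whose first `n` iterates are in the domain `U` of the map and whose `n`-th iterate is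
`δ`-close to `K`. -/
def E (f : ℂ → ℂ) (U K : Set ℂ) (δ : ℝ) (n : ℕ) : Set ℂ :=
  {z | (∀ i < n, f^[i] z ∈ U) ∧ f^[n] z ∈ cthickening δ K}

/-- `g` is a holomorphic branch on `ball y R` of the inverse of `f^[n]`. -/
def IsBr (f : ℂ → ℂ) (U : Set ℂ) (n : ℕ) (y : ℂ) (R : ℝ) (g : ℂ → ℂ) : Prop :=
  DifferentiableOn ℂ g (ball y R) ∧
    ∀ x ∈ ball y R, (∀ i < n, f^[i] (g x) ∈ U) ∧ f^[n] (g x) = x

/-- A holomorphic map `f` on an open set `U` near the compact set `K` of the points which are not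
attracted; `Cr` is the set of its critical points in `K`; they satisfy the Collet-Eckmann
condition. (The area of `K` is not mentioned.) -/
structure Sys (f : ℂ → ℂ) (U K : Set ℂ) (Cr : Finset ℂ) (ℓ : ℂ → ℕ) (δ₀ Cp rp c₀ μ : ℝ) : Prop where
  openU : IsOpen U
  diff : DifferentiableOn ℂ f U
  cpt : IsCompact K
  δ₀_pos : 0 < δ₀
  thick : cthickening δ₀ K ⊆ U
  fwd : ∀ z ∈ K, f z ∈ K
  bwd : ∀ z ∈ U, f z ∈ K → z ∈ K
  /-- preimages of points close to `K` are close to `K`, uniformly -/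
  back : ∀ ε > 0, ∃ δ > 0, ∀ n, E f U K δ n ⊆ cthickening ε K
  /-- there are no attracting cycles near `K` -/
  late : ∀ ε > 0, ∃ T₀ : ℕ, ∀ n ≥ T₀, E f U K δ₀ n ⊆ cthickening ε K
  /-- lifting through `f` of maps on balls which avoid the critical values -/
  lift : ∀ (g : ℂ → ℂ) (y : ℂ) (R : ℝ), 0 < R → DifferentiableOn ℂ g (ball y R) →
    MapsTo g (ball y R) (cthickening δ₀ K) →
    (∀ z ∈ U, f z ∈ g '' ball y R → deriv f z ≠ 0) → ∀ z₀ ∈ U, f z₀ = g y →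
    ∃ G : ℂ → ℂ, DifferentiableOn ℂ G (ball y R) ∧ G y = z₀ ∧
      ∀ x ∈ ball y R, G x ∈ U ∧ f (G x) = g x
  /-- a critical point is in `Cr` or its orbit stays away from `K` -/
  crit : ∀ z ∈ U, deriv f z = 0 → z ∈ Cr ∨ ∀ n, z ∉ E f U K δ₀ n
  critK : ∀ c ∈ Cr, c ∈ K
  deg : ∀ c ∈ Cr, 2 ≤ ℓ c
  Cp_ge : 1 ≤ Cp
  rp_pos : 0 < rp
  /-- local degree `ℓ c` at `c` -/
  loc : ∀ c ∈ Cr, ∀ z, ‖z - c‖ ≤ rp → z ∈ U ∧ ‖f z - f c‖ ≤ Cp * ‖z - c‖ ^ ℓ c ∧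
    ‖z - c‖ ^ ℓ c ≤ Cp * ‖f z - f c‖ ∧ ‖deriv f z‖ ≤ Cp * ‖z - c‖ ^ (ℓ c - 1) ∧
    ‖z - c‖ ^ (ℓ c - 1) ≤ Cp * ‖deriv f z‖
  c₀_pos : 0 < c₀
  μ_gt : 1 < μ
  /-- the Collet-Eckmann condition -/
  ce : ∀ c ∈ Cr, ∀ n, c₀ * μ ^ n ≤ ‖deriv f^[n] (f c)‖

/-- Local structure near a critical value: a point `z` near `K` whose image is close to a critical
value `f c` is close to a critical point with the same value, or there is a holomorphic inverse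
of `f` on a definite ball around `f c` with value `z` at `f z`.

Proof: `f⁻¹(f c) ∩ cthickening δ₀ K` is contained in `K` (`bwd`, as `f c ∈ K`), it is compact; at
each of its points `x'` either `x' ∈ Cr` (by `crit`, as `x' ∈ K` is in all the sets `E`) and we take
`ball x' r'`, or `deriv f x' ≠ 0` and the inverse function theorem gives a neighbourhood `V` of `x'`,
and an inverse `ψ` on `ball (f c) s`, with values in `U`, with `ψ (f z) = z` for all `z ∈ V`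
with `f z ∈ ball (f c) s` (shrink `V` so that this holds for all of them). Finitely many of these
neighbourhoods cover, and on the rest of the compact set `cthickening δ₀ K` the continuous function
`‖f z - f c‖` has a positive minimum. Take the minimum over the finite set `Cr`. -/
def S_LS : Prop :=
  ∀ (f : ℂ → ℂ) (U K : Set ℂ) (Cr : Finset ℂ) (ℓ : ℂ → ℕ) (δ₀ Cp rp c₀ μ : ℝ),
    Sys f U K Cr ℓ δ₀ Cp rp c₀ μ → ∀ r' > 0, ∃ s₀ > 0, ∀ c ∈ Cr, ∀ z ∈ cthickening δ₀ K,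
      ‖f z - f c‖ < s₀ →
        (∃ c' ∈ Cr, f c' = f c ∧ ‖z - c'‖ < r') ∨
        ∃ ψ : ℂ → ℂ, DifferentiableOn ℂ ψ (ball (f c) s₀) ∧ ψ (f z) = z ∧
          ∀ x ∈ ball (f c) s₀, ψ x ∈ U ∧ f (ψ x) = x

/-- Uniqueness of branches: two branches of the inverse of `f^[n]` on two balls, which agree at one
common point, agree at all common points.

Proof: the intersection of two balls is convex, hence preconnected and open; the set where the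
branches agree is closed in it; it is open since `f^[n]` is holomorphic near `g x` with
derivative `≠ 0` (chain rule: `f^[n] ∘ g = id`), so it is injective near `g x`. (Or use the identity
theorem for analytic functions.) -/
def S_UNIQ : Prop :=
  ∀ (f : ℂ → ℂ) (U : Set ℂ), IsOpen U → DifferentiableOn ℂ f U →
    ∀ (n : ℕ) (y y' : ℂ) (R R' : ℝ) (g g' : ℂ → ℂ), IsBr f U n y R g → IsBr f U n y' R' g' →
      ∀ w ∈ ball y R ∩ ball y' R', g w = g' w → ∀ x ∈ ball y R ∩ ball y' R', g x = g' x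

/-- **Hit lemma.** Pull back a ball around `f^[n] z` along the orbit of `z`. Either there is a branch
on the ball of radius `R` for all `n` steps, or after some number `j` of steps the ball contains
a critical value `f c`, the next preimage is close to the critical point `c`, and everything in the
ball is close to `f c` at this time.

Proof. Use the Koebe constants with margins `Pool.Agent.Y298.SH.CE.exists_MG` (file
`Pool/Graph/R_seed8/Y298/CE/Kmar.lean`; the radii are `RR R τ j = R (1 + τ ^ j)`, between `R`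
and `2 R`), with `θ`. Let `δ₁ ≤ δ₀` be given by `back` for `ε = δ₀`, let `s₀` be given by `S_LS` for `r'`
(we may assume `r' ≤ rp`), and let `R₁` be so small that `3 R₁ ≤ δ₁`, and
`4 A R₁ / c₀ < min s₀ (r' ^ (ℓ c) / Cp)` for all `c ∈ Cr`. Let `w₀ = f^[n] z`. By induction on `j ≤ n`
there is a branch `g_j` (`IsBr f U j w₀ (RR R τ j) g_j`) with `g_j w₀ = f^[n - j] z`, or a hit at a time
before `j`. For `j = 0` take `g_0 = id`. Step: `g_j` maps the ball into `E f U K δ₁ j ⊆ cthickening δ₀ K`.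
It is injective, so `MG.upper` etc. apply.
(a) If there is `c ∈ Cr` and `u ∈ ball w₀ (RR R τ (j + 1))` with `g_j u = f c` then `f^[j] (f c) = u`,
`deriv g_j u = 1 / deriv f^[j] (f c)`, and by `MG.upper` for all `x ∈ ball w₀ (RR R τ (j + 1))`:
`‖g_j x - f c‖ ≤ A θ ^ j ‖deriv g_j u‖ 4 R ≤ 4 A R (θ / μ) ^ j / c₀ < s₀`. Apply `S_LS` to
`z₁ = f^[n - (j + 1)] z`, `f z₁ = g_j w₀` (`z₁ ∈ E f U K δ₁ (j + 1) ⊆ cthickening δ₀ K`).
If `z₁` is `r'`-close to `c' ∈ Cr` with `f c' = f c` we have a hit at the time `j` with `c'`.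
For the last part, let `g` be a branch for `n` steps on `ball y' R' ⊆ ball w₀ R` with `g w₀ = z`; then
`f^[n - j] (g x) = g_j x` on `ball y' R'` (uniqueness of branches), so
`‖f^[n - j] (g x) - f c'‖ < r' ^ (ℓ c') / Cp`, and the continuous function
`x ↦ ‖f^[n - (j + 1)] (g x) - c'‖` on the connected set `ball y' R'` is `< r'` at `w₀` and never `= r'`
(by `loc`), so it is `< r'` everywhere. If instead `S_LS` gives an inverse `ψ`, put
`g_{j+1} = ψ ∘ g_j` on `ball w₀ (RR R τ (j + 1))`.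
(b) Otherwise `lift` applies to `g_j` on `ball w₀ (RR R τ (j + 1))` and `z₀ = f^[n - (j + 1)] z`: if
`z' ∈ U`, `f z' = g_j x`, `deriv f z' = 0` then `crit` gives `z' ∈ Cr` (excluded as we are not in the
case (a)) or `z' ∉ E f U K δ₀ (j + 1)`, which is false.
At `j = n` restrict `g_n` to `ball w₀ R`. -/
def S_HIT : Prop :=
  ∀ (f : ℂ → ℂ) (U K : Set ℂ) (Cr : Finset ℂ) (ℓ : ℂ → ℕ) (δ₀ Cp rp c₀ μ : ℝ),
    Sys f U K Cr ℓ δ₀ Cp rp c₀ μ → ∀ θ : ℝ, 1 < θ → θ < μ → ∃ C₁ > 0, ∀ r' > 0, ∃ R₁ > 0,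
      ∀ (n : ℕ) (z : ℂ) (R : ℝ), 0 < R → R ≤ R₁ → (∀ i < n, f^[i] z ∈ U) →
        f^[n] z ∈ cthickening R₁ K →
        (∃ g, IsBr f U n (f^[n] z) R g ∧ g (f^[n] z) = z) ∨
        ∃ j < n, ∃ c ∈ Cr, ‖f^[j] (f c) - f^[n] z‖ < 2 * R ∧
          (‖f^[n - (j + 1)] z - c‖ < r' ∧
            ‖f^[n - j] z - f c‖ ≤ C₁ * θ ^ j * R / ‖deriv f^[j] (f c)‖) ∧
          ∀ (y' : ℂ) (R' : ℝ) (g : ℂ → ℂ), ball y' R' ⊆ ball (f^[n] z) R → f^[n] z ∈ ball y' R' →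
            IsBr f U n y' R' g → g (f^[n] z) = z → ∀ x ∈ ball y' R',
              ‖f^[n - (j + 1)] (g x) - c‖ < r' ∧
                ‖f^[n - j] (g x) - f c‖ ≤ C₁ * θ ^ j * R / ‖deriv f^[j] (f c)‖

/-- **Measure lemma.** All the points of `X` lie in the images of the set `Z` under branches of the
inverse of `f^[n]` on the same ball, the images of this ball are contained in `Y`.

Proof. Let `I` be the set of the points `g y`, for the branches `g` as in the hypothesis, choose one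
`g_p` for every `p ∈ I`. By the uniqueness of branches (`S_UNIQ`; also if two branches on the ball have
images which meet, `g x = g' x'`, then `x = f^[n] (g x) = f^[n] (g' x') = x'`), the open sets
`g_p '' ball y ρ`, `p ∈ I`, are pairwise disjoint, so `I` is countable. By Koebe
(`Pool.Agent.W746.LD.KC`, file `Pool/Graph/R_seed8/W746/LD/Koebe.lean`; the branches are injective)
`‖deriv g_p‖ ≤ C0 ‖deriv g_p y‖` on `closedBall y (ρ / 4)`, so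
`volume (g_p '' Z) ≤ (C0 ‖deriv g_p y‖) ^ 2 volume Z` (replace `Z` by a measurable set of the same
volume; see `Pool.Agent.H211.LD.pow_image` in `Pool/Agent/H211/LD/Dir.lean` for such an argument with
`addHaar_image_le_lintegral_abs_det_fderiv`, and `dd_det`, `dd_has` in `LD/Null.lean`), and
`g_p '' ball y ρ` contains `ball p (c0 ρ ‖deriv g_p y‖)` (`komit`), so its volume is at least
`π (c0 ρ ‖deriv g_p y‖) ^ 2`. Sum over `p ∈ I`. -/
def S_MEAS : Prop :=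
  ∃ C : ℝ, 0 < C ∧ ∀ (f : ℂ → ℂ) (U : Set ℂ), IsOpen U → DifferentiableOn ℂ f U →
    ∀ (n : ℕ) (y : ℂ) (ρ : ℝ), 0 < ρ → ∀ X Y Z : Set ℂ, Z ⊆ closedBall y (ρ / 4) →
      (∀ z ∈ X, ∃ g, IsBr f U n y ρ g ∧ z ∈ g '' Z ∧ g '' ball y ρ ⊆ Y) →
      volume X ≤ ENNReal.ofReal (C / ρ ^ 2) * volume Z * volume Y

/-- The area of the set `E`. -/
noncomputable def ar (f : ℂ → ℂ) (U K : Set ℂ) (δ : ℝ) (n : ℕ) : ℝ := (volume (E f U K δ n)).toReal

/-- The area of the points of `E` which at the time `n` are `ρ`-close to `c`. -/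
noncomputable def ph (f : ℂ → ℂ) (U K : Set ℂ) (δ : ℝ) (n : ℕ) (c : ℂ) (ρ : ℝ) : ℝ :=
  (volume {z | z ∈ E f U K δ n ∧ ‖f^[n] z - c‖ < ρ}).toReal

/-- **Recursion at the critical points.**

Proof. Let `θ = κ μ`, so `1 < θ < μ`. Let `δ₁ ≤ min δ₀ rp` be such that `E f U K δ₁ n ⊆ cthickening 1 K` for all `n`
(`back`), so all the volumes are finite. Let `δ ≤ δ₁`. Apply `S_HIT` with `r' = min δ rp`; it gives `C₁`
and `R₁`. Given `M`, for `j < M` and `c, c' ∈ Cr` we have `f^[j] (f c') ≠ c` since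
`deriv f^[j + 1] (f c') ≠ 0` (`ce`) and `deriv f c = 0` (`loc`). So for `R₂` small:
`‖f^[j] (f c') - c‖ ≥ 17 R₂` for all `j < M`; also `17 R₂ ≤ min rp (min δ R₁)`.
Let `0 < ρ ≤ R₂`, let `k₁` be the largest `k` with `2 ^ k ρ ≤ R₂`. For `z` with `‖f^[n] z - c‖ < ρ`
(`z ∈ E`), and `k ≤ k₁` let `FB k z` mean: there is a branch `g` on `ball c (4 * 2 ^ k * ρ)` with
`g (f^[n] z) = z`. If `FB k z` fails, there is no branch through `z` on `ball (f^[n] z) R`,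
`R = 8 * 2 ^ k * ρ`, since this ball contains `ball c (4 * 2 ^ k * ρ)`; so there is a hit `(j, c')` by
`S_HIT`; then `u = f^[j] (f c')` satisfies `‖u - c‖ < 17 * 2 ^ k * ρ ≤ 17 R₂`, so `j ≥ M`, and
`c₀ μ ^ (j + 1) ≤ ‖deriv f^[j + 1] (f c')‖ = ‖deriv f u‖ ‖deriv f^[j] (f c')‖ ≤
Cp (17 * 2 ^ k ρ) ^ (ℓ c - 1) ‖deriv f^[j] (f c')‖`, whence
`C₁ θ ^ j R / ‖deriv f^[j] (f c')‖ ≤ C' κ ^ j (2 ^ k ρ) ^ (ℓ c)`, and by `loc`
`‖f^[n - (j + 1)] z - c'‖ < (C κ ^ j (2 ^ k ρ) ^ (ℓ c)) ^ (1 / ℓ c')`, and the same for all points of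
the image of a branch on a smaller ball as in `S_HIT`; these points belong to
`E f U K δ (n - (j + 1))` since they are `r'`-close to `c' ∈ K` at this time (`r' ≤ δ`).
Points `z` with `FB k z` for all `k ≤ k₁`: by `S_MEAS` with `Z = ball c ρ`, the ball of radius
`4 * 2 ^ k₁ * ρ`, and `Y = E f U K δ n`, their volume is `≤ C (ρ / R₂) ^ 2 volume (E f U K δ n)`.
The other points: let `k` be the first with `¬ FB k z`. If `k = 0` then `z` itself is in the set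
counted by `ph (n - (j + 1)) c' (...)` with `k = 0`. If `k = k' + 1` then `FB k' z`, and by `S_MEAS` with
the ball of radius `4 * 2 ^ k' * ρ`, the volume of these points with the hit `(j, c')` is at most
`C 4 ^ (- k)` times the volume of the set counted by `ph (n - (j + 1)) c' (...)`. -/
def S_R1 : Prop :=
  ∀ (f : ℂ → ℂ) (U K : Set ℂ) (Cr : Finset ℂ) (ℓ : ℂ → ℕ) (δ₀ Cp rp c₀ μ : ℝ),
    Sys f U K Cr ℓ δ₀ Cp rp c₀ μ → ∀ κ : ℝ, 1 < κ * μ → κ < 1 →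
      ∃ δ₁ > 0, ∀ δ, 0 < δ → δ ≤ δ₁ → ∃ C₁ ≥ (1 : ℝ), ∀ C ≥ C₁, ∀ M : ℕ, ∃ R₂ > 0,
        ∀ (n : ℕ), ∀ c ∈ Cr, ∀ ρ : ℝ, 0 < ρ → ρ ≤ R₂ → ∃ N : ℕ,
          ph f U K δ n c ρ ≤ C * (ρ / R₂) ^ 2 * ar f U K δ n +
            ∑ k ∈ Finset.range N, C * (1 / 4) ^ k * ∑ j ∈ Finset.Ico M n, ∑ c' ∈ Cr,
              ph f U K δ (n - (j + 1)) c'
                ((C * κ ^ j * (2 ^ k * ρ) ^ ℓ c) ^ (1 / (ℓ c' : ℝ)))

/-- **Recursion at large scale.** Here `volume K = 0` is used.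

Proof. `θ`, `δ₁`, `r'`, `C₁`, `R₁'` as in the proof of `S_R1` (`R₁'` from `S_HIT`), `4 R₁ ≤ min R₁' δ`. Let
`0 < ϱ ≤ R₁`. For a time `T₀` (large), if `z ∈ E f U K δ (n + T₀)` then
`w = f^[n] z ∈ E f U K δ T₀ ⊆ cthickening ϱ K` (`late`; `δ ≤ δ₀`). Apply `S_HIT` with `R = ϱ` at the time
`n`. If there is a hit `(j, c)` then `‖f^[n - (j + 1)] z - c‖ ^ (ℓ c) ≤ Cp ‖f^[n - j] z - f c‖ ≤
Cp C₁ θ ^ j ϱ / (c₀ μ ^ j)`, and `z ∈ E f U K δ (n - (j + 1))`. Otherwise there is a branch on `ball w ϱ`.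
Cover the compact set `cthickening ϱ K` by finitely many balls `ball y_i (ϱ / 16)`; if
`w ∈ ball y_i (ϱ / 16)` there is a branch on `ball y_i (ϱ / 2) ⊆ ball w ϱ`; apply `S_MEAS` with
`Z = closedBall y_i (ϱ / 8) ∩ E f U K δ T₀` and `Y = E f U K δ n`
(`ball y_i (ϱ / 2) ⊆ cthickening δ K`). The sum over `i` is at most
`const(ϱ) * volume (E f U K δ T₀) * volume (E f U K δ n)`, and
`volume (E f U K δ T₀) ≤ volume (cthickening ε' K) → volume K = 0` as `T₀ → ∞` (`late`, and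
`tendsto_measure_cthickening_of_isCompact`). -/
def S_R2 : Prop :=
  ∀ (f : ℂ → ℂ) (U K : Set ℂ) (Cr : Finset ℂ) (ℓ : ℂ → ℕ) (δ₀ Cp rp c₀ μ : ℝ),
    Sys f U K Cr ℓ δ₀ Cp rp c₀ μ → volume K = 0 → ∀ κ : ℝ, 1 < κ * μ → κ < 1 →
      ∃ δ₁ > 0, ∀ δ, 0 < δ → δ ≤ δ₁ → ∃ C₁ ≥ (1 : ℝ), ∀ C ≥ C₁, ∃ R₁ > 0,
        ∀ ϱ : ℝ, 0 < ϱ → ϱ ≤ R₁ → ∀ ε > 0, ∃ T₀ : ℕ, ∀ n : ℕ,
          ar f U K δ (n + T₀) ≤ ε * ar f U K δ n +
            ∑ j ∈ Finset.range n, ∑ c ∈ Cr,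
              ph f U K δ (n - (j + 1)) c ((C * κ ^ j * ϱ) ^ (1 / (ℓ c : ℝ)))

/-- **Decay** (elementary real analysis).

Proof. Let `L ≥ 2` be an upper bound of the `ℓ c`, `γ = 1 / L`, `κ ^ γ < q < 1`,
`b n = max_{i ≤ n} q ^ (n - i) a i`, so `a n ≤ b n`, `b (n - i) ≤ q ^ (- i) b n` for `i ≤ n`. Choose `M` with
`2 C * card Cr * C ^ γ * ∑_{j ≥ M} κ ^ (γ j) q ^ (- (j + 1)) ≤ 1 / 2`, take `R₂` for this `M` (we may assume
`R₂ ≤ 1`), `A = 2 C / R₂`. Claim: `Φ n c ρ ≤ A ρ ^ (γ ℓ c) b n` for all `n`, `c ∈ Cr`, `ρ > 0`. For `ρ ≥ R₂`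
it follows from `Φ n c ρ ≤ a n`, `R₂ ^ (γ ℓ c) ≥ R₂` (as `γ ℓ c ≤ 1`, `R₂ ≤ 1`), `A R₂ ≥ 1`. For `ρ ≤ R₂`
by strong induction on `n`: in the first hypothesis
`((C κ ^ j (2 ^ k ρ) ^ ℓ c) ^ (1 / ℓ c')) ^ (γ ℓ c') = C ^ γ κ ^ (γ j) 2 ^ (k γ ℓ c) ρ ^ (γ ℓ c)`, so the
double sum is `≤ ∑_k C 4 ^ (-k) 2 ^ k ∑_{j ≥ M} card Cr * A C ^ γ κ ^ (γ j) ρ ^ (γ ℓ c) q ^ (-(j+1)) b n
≤ A ρ ^ (γ ℓ c) b n / 2`, and `C (ρ / R₂) ^ 2 a n ≤ C (ρ / R₂) ^ (γ ℓ c) b n ≤ A ρ ^ (γ ℓ c) b n / 2`.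
Now in the second hypothesis the double sum is `≤ card Cr * A C ^ γ ϱ ^ γ (∑_j κ ^ (γ j) q ^ (-(j+1))) b n`,
which is `≤ b n / 4` for a suitable `ϱ ≤ R₁`; take `ε = 1 / 4`: `a (n + T₀) ≤ b n / 2` for all `n`. Let
`q ≤ r < 1` with `1 / 2 ≤ r ^ T₀`, and `D` with `a n ≤ D r ^ n` for `n ≤ T₀`; then `a n ≤ D r ^ n` for all `n`
by strong induction (`b n ≤ D r ^ n` since `q ≤ r`). -/
def S_DEC : Prop :=
  ∀ (Cr : Finset ℂ) (ℓ : ℂ → ℕ) (κ C R₁ : ℝ) (a : ℕ → ℝ) (Φ : ℕ → ℂ → ℝ → ℝ),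
    (∀ c ∈ Cr, 2 ≤ ℓ c) → 0 < κ → κ < 1 → 1 ≤ C → 0 < R₁ → (∀ n, 0 ≤ a n) →
    (∀ n c ρ, 0 ≤ Φ n c ρ) → (∀ n c ρ, Φ n c ρ ≤ a n) →
    (∀ M : ℕ, ∃ R₂ > 0, ∀ (n : ℕ), ∀ c ∈ Cr, ∀ ρ : ℝ, 0 < ρ → ρ ≤ R₂ → ∃ N : ℕ,
      Φ n c ρ ≤ C * (ρ / R₂) ^ 2 * a n +
        ∑ k ∈ Finset.range N, C * (1 / 4) ^ k * ∑ j ∈ Finset.Ico M n, ∑ c' ∈ Cr,
          Φ (n - (j + 1)) c' ((C * κ ^ j * (2 ^ k * ρ) ^ ℓ c) ^ (1 / (ℓ c' : ℝ)))) →
    (∀ ϱ : ℝ, 0 < ϱ → ϱ ≤ R₁ → ∀ ε > 0, ∃ T₀ : ℕ, ∀ n : ℕ,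
      a (n + T₀) ≤ ε * a n + ∑ j ∈ Finset.range n, ∑ c ∈ Cr,
        Φ (n - (j + 1)) c ((C * κ ^ j * ϱ) ^ (1 / (ℓ c : ℝ)))) →
    ∃ D r : ℝ, 0 < r ∧ r < 1 ∧ ∀ n, a n ≤ D * r ^ n

end Pool.Agent.H211.AD
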