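import Pool.Agent.H211.AD.Stm

/-!
# Lebesgue density of hyperbolicity at Collet-Eckmann maps, at all scales: statements, part B

Parameter space: a family `F a`, `|a|` small, with `|F a z - f z| ≤ C₁ |a| ^ q`.
-/

set_option autoImplicit false

open Metric Set MeasureTheory Filter Topology

namespace Pool.Agent.H211.AD

/-- The distance to the critical points, at most one. -/
noncomputable def dC (Cr : Finset ℂ) (z : ℂ) : ℝ := min 1 (infDist z (Cr : Set ℂ))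

/-- **Nonlinearity.**

Proof. Near a critical point `c` (`‖z - c‖ ≤ rp / 2`): for `‖y - z‖ ≤ ‖z - c‖ / 4` the function `deriv f` is
bounded by `Cp (2 ‖z - c‖) ^ (ℓ c - 1)` on `ball z (‖z - c‖ / 2)`, so by the Cauchy / Schwarz estimate
(`Complex.dist_le_div_mul_dist_of_mapsTo_ball`)
`‖deriv f y - deriv f z‖ ≤ C ‖z - c‖ ^ (ℓ c - 1) ‖y - z‖ / ‖z - c‖ ≤ C' ‖deriv f z‖ ‖y - z‖ / ‖z - c‖` by
the last estimate of `loc`. Away from the critical points `‖deriv f z‖` is bounded from below on `K`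
(compactness, and all the critical points in `K` are in `Cr`, by `crit`), and `deriv f` is
Lipschitz near the compact set `K`. The last two estimates: near `c` by `loc` (`ℓ c ≥ 2`), elsewhere
since `deriv f` is bounded on `K`. -/
def S_NL : Prop :=
  ∀ (f : ℂ → ℂ) (U K : Set ℂ) (Cr : Finset ℂ) (ℓ : ℂ → ℕ) (δ₀ Cp rp c₀ μ : ℝ),
    Sys f U K Cr ℓ δ₀ Cp rp c₀ μ → Cr.Nonempty → ∃ s > 0, ∃ C₂ ≥ (1 : ℝ),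
      ∀ z ∈ K, z ∉ Cr →
        closedBall z (s * dC Cr z) ⊆ cthickening δ₀ K ∧ deriv f z ≠ 0 ∧
        (∀ y ∈ closedBall z (s * dC Cr z),
          ‖deriv f y - deriv f z‖ ≤ C₂ * ‖deriv f z‖ * (‖y - z‖ / dC Cr z)) ∧
        ‖deriv f z‖ ≤ C₂ * dC Cr z ∧ ∀ c ∈ Cr, ‖deriv f z‖ ≤ C₂ * ‖z - c‖ ^ (ℓ c - 1)

/-- The orbit `z` of a critical value, the derivatives `P` along it, `D n` the derivative at `z n`,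
`x n` the size of the disc where `f` is nearly linear. -/
structure Orb (f : ℂ → ℂ) (z P D : ℕ → ℂ) (x : ℕ → ℝ) (C₂ S₀ : ℝ) : Prop where
  zs : ∀ n, z (n + 1) = f (z n)
  P0 : P 0 = 1
  Ps : ∀ n, P (n + 1) = D n * P n
  Dne : ∀ n, D n ≠ 0
  xpos : ∀ n, 0 < x n
  nl : ∀ (n : ℕ) (y y' : ℂ) (m : ℝ), ‖y - z n‖ ≤ m → ‖y' - z n‖ ≤ m → m ≤ x n →
    ‖f y - f y' - D n * (y - y')‖ ≤ C₂ * ‖D n‖ * (m / x n) * ‖y - y'‖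
  C₂nn : 0 ≤ C₂
  sum : ∀ n, ∑ i ∈ Finset.range n, ‖P (i + 1)‖⁻¹ ≤ S₀

/-- **Following the orbit of a critical value**, with errors at most `e` in every step.

Proof. Put `Δ n = (y 0 - z 0) + ∑_{i < n} (y (i+1) - f (y i)) / P (i+1)` (norm at most `t`),
`E n = y n - z n - P n Δ n`. Then `E (n+1) = (f (y n) - f (z n) - D n (y n - z n)) + D n E n`, so
`‖E (n+1)‖ / ‖P (n+1)‖ ≤ ‖E n‖ / ‖P n‖ + C₂ ‖y n - z n‖ ^ 2 / (x n ‖P n‖)`, and inductively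
`‖y n - z n‖ ≤ 2 t ‖P n‖`, so the last term is `≤ 4 C₂ t θ / (n+1) ^ 2`;
`∑ 1 / (n+1) ^ 2 ≤ 2`. Second part: `d n = ‖y n - y' n‖ / ‖P n‖` satisfies
`d (n+1) ≤ e / ‖P (n+1)‖ + (1 + 2 C₂ θ / (n+1) ^ 2) d n`, so `d n ≤ exp (4 C₂ θ) S₀ e ≤ 3 S₀ e`. -/
def S_FOL : Prop :=
  ∀ (f : ℂ → ℂ) (z P D : ℕ → ℂ) (x : ℕ → ℝ) (C₂ S₀ : ℝ), Orb f z P D x C₂ S₀ →
    ∀ θ : ℝ, 0 < θ → 16 * C₂ * θ ≤ 1 → 4 * θ ≤ 1 → ∀ (N : ℕ) (t e : ℝ) (y : ℕ → ℂ), 0 < t → 0 ≤ e →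
      (∀ i < N, ‖y i - z i‖ ≤ x i → ‖y (i + 1) - f (y i)‖ ≤ e) → ‖y 0 - z 0‖ + S₀ * e ≤ t →
      (∀ i < N, t * ‖P i‖ ≤ θ / ((i : ℝ) + 1) ^ 2 * x i) →
      (∀ n < N, ‖y n - z n‖ ≤ x n) ∧
      (∀ n ≤ N, ‖y n - z n‖ ≤ 2 * t * ‖P n‖ ∧
        ‖y n - z n - P n * ((y 0 - z 0) +
          ∑ i ∈ Finset.range n, (y (i + 1) - f (y i)) / P (i + 1))‖ ≤ 8 * C₂ * θ * t * ‖P n‖) ∧
      ∀ y' : ℕ → ℂ, y' 0 = y 0 → (∀ i < N, y' (i + 1) = f (y' i)) →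
        ∀ n ≤ N, ‖y n - y' n‖ ≤ 3 * S₀ * e * ‖P n‖

/-- **The stopping time** (elementary real analysis).

Proof. `p n ≤ C₂ ^ n`, `x n ≥ c₀ / (C₂ p n)`, so `t p i ≤ θ / (i+1) ^ 2 * x i` is implied by
`t C₂ ^ (2 i + 1) (i+1) ^ 2 ≤ θ c₀`, which holds for `i ≤ κ₃ log (1/t)` (`t` small). It fails if
`t c₀ μ ^ i > θ`, so at the latest for some `i ≤ C_N log (1/t)`. Let `N` be the first index where it
fails. If `c₀ μ ^ N ≤ C₂ p N x N ^ (l - 1)` then `(t p N) ^ l ≥ t p N (θ x N / (N+1) ^ 2) ^ (l-1) ≥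
t (θ / (N+1) ^ 2) ^ L c₀ μ ^ N / C₂`, and `μ ^ N ≥ t ^ (- κ₃ log μ) / μ`, while `(N+1) ^ (2 L)` is a power of
`log (1/t)`. So `κ₂ = κ₃ log μ / 2` (made `< 1`) works for `t ≤ t₁`. -/
def S_TIME : Prop :=
  ∀ (C₂ c₀ μ θ : ℝ) (L : ℕ), 1 ≤ C₂ → 0 < c₀ → 1 < μ → 0 < θ → θ ≤ 1 →
    ∃ κ₂ : ℝ, 0 < κ₂ ∧ κ₂ < 1 ∧ ∃ C_N > 0, ∃ t₁ > 0, t₁ < 1 ∧
      ∀ (p x : ℕ → ℝ), p 0 = 1 → (∀ n, c₀ * μ ^ n ≤ p n) → (∀ n, 0 < x n ∧ x n ≤ 1) →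
        (∀ n, p (n + 1) ≤ C₂ * x n * p n) → ∀ t : ℝ, 0 < t → t ≤ t₁ →
          ∃ N : ℕ, (∀ i < N, t * p i ≤ θ / ((i : ℝ) + 1) ^ 2 * x i) ∧
            θ / ((N : ℝ) + 1) ^ 2 * x N < t * p N ∧ (N : ℝ) ≤ C_N * Real.log (1 / t) ∧
            ∀ l : ℕ, 1 ≤ l → l ≤ L → c₀ * μ ^ N ≤ C₂ * p N * x N ^ (l - 1) →
              t ^ (1 - κ₂) ≤ (t * p N) ^ l

/-- **Covering.**

Proof. A maximal `σ'/2`-separated subset of `S` has at most `C (σ / σ') ^ 2` elements (the balls of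
radius `σ'/4` around its points are disjoint and contained in `ball a₀ (2 σ)`), and the balls of
radius `σ'` around its points cover `S`. -/
def S_COV : Prop :=
  ∃ C : ℝ, 0 < C ∧ ∀ (a₀ : ℂ) (σ σ' q : ℝ) (S B : Set ℂ), 0 < σ' → σ' ≤ σ → 0 ≤ q →
    S ⊆ ball a₀ σ → (∀ a ∈ S, volume (B ∩ ball a σ') ≤ ENNReal.ofReal (q * σ' ^ 2)) →
      volume (B ∩ S) ≤ ENNReal.ofReal (C * q * σ ^ 2)

/-- The holomorphic function `u` is nearly affine, with slope `D`, on the ball. -/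
def NA (u : ℂ → ℂ) (a₀ : ℂ) (σ : ℝ) (D : ℂ) (e : ℝ) : Prop :=
  DifferentiableOn ℂ u (ball a₀ σ) ∧ D ≠ 0 ∧ ∀ a ∈ ball a₀ σ, ‖deriv u a - D‖ ≤ e * ‖D‖

/-- **Area under a nearly affine function.**

Proof. `u` is injective on the (convex) ball, as `‖u a - u b - D (a - b)‖ ≤ (3/4) ‖D‖ ‖a - b‖`, and
`‖deriv u‖ ≥ ‖D‖ / 4`. Replace `S` by a measurable set of the same volume and use
`lintegral_abs_det_fderiv_eq_addHaar_image` (see `Pool/Agent/H211/LD/Null.lean`, `dd_det`, `dd_has`). -/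
def S_ARE : Prop :=
  ∀ (u : ℂ → ℂ) (a₀ : ℂ) (σ : ℝ) (D : ℂ), NA u a₀ σ D (3 / 4) → ∀ S : Set ℂ,
    volume {a | a ∈ ball a₀ σ ∧ u a ∈ S} ≤ ENNReal.ofReal (16 / ‖D‖ ^ 2) * volume S

/-- A holomorphic family `F a`, `‖a‖ < ρ₁`, of maps near `K`, with `F 0 = f`, and a notion
`A a z` of attracted points `z` of `F a`. -/
structure Fam (F : ℂ → ℂ → ℂ) (A : ℂ → ℂ → Prop) (f : ℂ → ℂ) (K : Set ℂ) (q : ℕ)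
    (ρ₁ δ₁ C₁ : ℝ) : Prop where
  q_pos : 1 ≤ q
  ρ₁_pos : 0 < ρ₁
  ρ₁_le : ρ₁ ≤ 1
  δ₁_pos : 0 < δ₁
  C₁_pos : 0 < C₁
  zero : F 0 = f
  smooth : ∀ a z, ‖a‖ < ρ₁ → z ∈ cthickening δ₁ K →
    ContDiffAt ℂ 1 (fun p : ℂ × ℂ => F p.1 p.2) (a, z)
  close : ∀ a z, ‖a‖ < ρ₁ → z ∈ cthickening δ₁ K → ‖F a z - f z‖ ≤ C₁ * ‖a‖ ^ q
  step : ∀ a z, ‖a‖ < ρ₁ → z ∈ cthickening δ₁ K → A a (F a z) → A a z
  stab : ∀ ε > 0, ∃ r > 0, ∀ a, ‖a‖ < r → ∀ z, z ∉ cthickening ε K → A a z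

/-- Nearly affine curves of definite size have few parameters which are not attracted. -/
def BaseC (A : ℂ → ℂ → Prop) (q : ℕ) (β₁ : ℝ) : Prop :=
  ∃ c > (0 : ℝ), ∃ C > (0 : ℝ), ∃ r₀ > (0 : ℝ), ∀ r : ℝ, 0 < r → r < r₀ → ∀ (a₀ : ℂ) (σ : ℝ) (u : ℂ → ℂ) (D : ℂ),
    0 < σ → (∀ a ∈ ball a₀ σ, ‖a‖ ^ q ≤ r) → NA u a₀ σ D (3 / 4) → r ^ β₁ ≤ ‖D‖ * σ →
      volume {a | a ∈ ball a₀ σ ∧ ¬ A a (u a)} ≤ ENNReal.ofReal (C * r ^ c * σ ^ 2)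

/-- **Curves of definite size.**

Proof. Let `ε > 0` be small, with `2 ε ≤ min δ δ₁` and `2 ε ≤ δ₀`; `Λ ≥ 2` a bound of `‖deriv f‖` on
`cthickening (2 ε) K`. By `stab`, for `a` small, `¬ A a z` implies `z ∈ cthickening ε K`, and by `step`
it implies `¬ A a (F a z)`. So if `¬ A a (u a)` then all `y i = (F a)^[i] (u a)` are in
`cthickening ε K`. The points `f^[i] (u a)` satisfy `‖f^[i] (u a) - y i‖ ≤ C₁ r i Λ ^ i ≤ ε` for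
`i ≤ T = ⌊c₅ log (1/r)⌋`, with `c₅ = 1 / (4 log Λ)`, say (the segment from `y i` to `f^[i] (u a)` is in
`cthickening (2 ε) K`). So `u a ∈ E f U K δ T`, and `S_ARE` gives the bound
`16 ‖D‖ ^ (-2) D' ϱ ^ T ≤ C r ^ (c₅ log (1/ϱ) - 2 β₁) σ ^ 2`. Take `β₁ = c₅ log (1/ϱ) / 4`. -/
def S_BASE : Prop :=
  ∀ (f : ℂ → ℂ) (U K : Set ℂ) (Cr : Finset ℂ) (ℓ : ℂ → ℕ) (δ₀ Cp rp c₀ μ : ℝ),
    Sys f U K Cr ℓ δ₀ Cp rp c₀ μ → ∀ (F : ℂ → ℂ → ℂ) (A : ℂ → ℂ → Prop) (q : ℕ) (ρ₁ δ₁ C₁ : ℝ),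
      Fam F A f K q ρ₁ δ₁ C₁ → ∀ (δ D' ϱ : ℝ), 0 < δ → 0 < ϱ → ϱ < 1 →
        (∀ n, volume (E f U K δ n) ≤ ENNReal.ofReal (D' * ϱ ^ n)) → ∃ β₁ > (0 : ℝ), BaseC A q β₁

/-- The estimate for the nearly affine curves of points close to a critical value: distance `t ≥ r ^ β`,
size at least `r ^ η t`. -/
def Lvl (A : ℂ → ℂ → Prop) (f : ℂ → ℂ) (Cr : Finset ℂ) (q : ℕ) (β : ℝ) : Prop :=
  ∃ η > (0 : ℝ), ∃ c > (0 : ℝ), ∃ C > (0 : ℝ), ∃ r₀ > (0 : ℝ), ∀ r : ℝ, 0 < r → r < r₀ → ∀ c' ∈ Cr,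
    ∀ (a₀ : ℂ) (σ : ℝ) (u : ℂ → ℂ) (D : ℂ) (t : ℝ), 0 < σ → (∀ a ∈ ball a₀ σ, ‖a‖ ^ q ≤ r) →
      NA u a₀ σ D (1 / 2) → r ^ β ≤ t → (∀ a ∈ ball a₀ σ, ‖u a - f c'‖ ≤ t) →
      r ^ η * t ≤ ‖D‖ * σ →
        volume {a | a ∈ ball a₀ (σ / 2) ∧ ¬ A a (u a)} ≤ ENNReal.ofReal (C * r ^ c * σ ^ 2)

/-- The estimate for the nearly affine curves `u` which arrive near a point `z` of `K`. -/
def LandC (A : ℂ → ℂ → Prop) (K : Set ℂ) (Cr : Finset ℂ) (ℓ : ℂ → ℕ) (q : ℕ) (β : ℝ) : Prop :=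
  ∃ η > (0 : ℝ), ∃ c > (0 : ℝ), ∃ C > (0 : ℝ), ∃ r₀ > (0 : ℝ), ∀ r : ℝ, 0 < r → r < r₀ → ∀ z ∈ K,
    ∀ (a₀ : ℂ) (σ : ℝ) (u : ℂ → ℂ) (D : ℂ) (T ϑ : ℝ), 0 < σ → (∀ a ∈ ball a₀ σ, ‖a‖ ^ q ≤ r) →
      NA u a₀ σ D (3 / 4) → (∀ a ∈ ball a₀ σ, ‖u a - z‖ ≤ T) → r ^ η ≤ ϑ → ϑ ≤ 1 →
      ϑ * dC Cr z ≤ T → r ^ η * T ≤ ‖D‖ * σ →
      (∀ c ∈ Cr, ‖z - c‖ ≤ dC Cr z → r ^ β ≤ T ^ ℓ c) →
        volume {a | a ∈ ball a₀ (σ / 2) ∧ ¬ A a (u a)} ≤ ENNReal.ofReal (C * r ^ c * σ ^ 2)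

/-- **Landing near a critical point.**

Proof. Let `η₁ = η` (of `LandC`) be small compared to the `η` of `Lvl` (call it `ηL`), to `β₁`, to `1 - β`,
divided by the `ℓ c`; and `η₂` similar: `(2 η₁ + η₂) ℓ c ≤ ηL / 2`, `(η₁ + η₂) ℓ c ≤ (1 - β) / 2`, `4 η₁ ≤ β₁`.
If `infDist z Cr ≥ 1` then `T ≥ ϑ ≥ r ^ η₁`, `‖D‖ σ ≥ r ^ (2 η₁) ≥ r ^ β₁`, and `BaseC` applies. Otherwise
let `c ∈ Cr` be nearest to `z`, `‖z - c‖ = dC Cr z`, so `r ^ β ≤ T ^ ℓ c`, `ℓ = ℓ c`. If `T ≥ r ^ (β₁/2)`,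
`BaseC` applies. Let `T < r ^ (β₁/2)`. `X = T + T / ϑ ≤ 2 T / ϑ ≤ 2 r ^ (β₁/4)` is small, `‖u a - c‖ ≤ X` on
`ball a₀ σ`. The set of the `a ∈ ball a₀ (σ/2)` with `‖u a - c‖ < r ^ η₂ ‖D‖ σ` has volume
`≤ 16 π r ^ (2 η₂) σ ^ 2` by `S_ARE`. Let `S` be the rest of `ball a₀ (σ/2)`. Let `λ > 0` be small (a
constant), `σ' = λ r ^ η₂ σ`. For `a ∈ S`, on `ball a σ'`: `‖u a' - u a‖ ≤ 2 ‖D‖ σ' ≤ 2 λ ‖u a - c‖`,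
`‖deriv u a' - deriv u a‖ ≤ 28 λ ‖deriv u a‖` (Cauchy / Schwarz for `deriv u` on `ball a (σ/2)`),
`‖deriv f (u a') - deriv f (u a)‖ ≤ C λ ‖deriv f (u a)‖` (local estimate at `c` as in `S_NL`). Put
`w a' = F a' (u a')`, `D'' = deriv f (u a) * deriv u a`. The function `w a' - f (u a')` is bounded by `C₁ r` on
`ball a σ'`, so its derivative is `≤ 2 C₁ r / σ'` on `ball a (σ'/2)`, while
`‖D''‖ σ' ≥ λ (r ^ η₂ ‖D‖ σ) ^ ℓ / (4 Cp) ≥ λ r ^ ((η₁ + η₂) ℓ) T ^ ℓ / (4 Cp)`, `T ^ ℓ ≥ r ^ β`. So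
`NA w a (σ'/2) D'' (1/2)`. With `t = Cp X ^ ℓ + C₁ r ≥ T ^ ℓ ≥ r ^ β` we have `‖w a' - f c‖ ≤ t`, and
`t ≤ C' r ^ (- η₁ ℓ) T ^ ℓ`, so `r ^ ηL t ≤ ‖D''‖ σ' / 2`. Apply `Lvl` to `w` on `ball a (σ'/2)`; `¬ A a' (u a')`
implies `¬ A a' (w a')` by `step`. Conclude by `S_COV` (radius `σ'/4`). -/
def S_LAND : Prop :=
  ∀ (f : ℂ → ℂ) (U K : Set ℂ) (Cr : Finset ℂ) (ℓ : ℂ → ℕ) (δ₀ Cp rp c₀ μ : ℝ),
    Sys f U K Cr ℓ δ₀ Cp rp c₀ μ → Cr.Nonempty →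
      ∀ (F : ℂ → ℂ → ℂ) (A : ℂ → ℂ → Prop) (q : ℕ) (ρ₁ δ₁ C₁ : ℝ), Fam F A f K q ρ₁ δ₁ C₁ →
        ∀ β₁ > (0 : ℝ), BaseC A q β₁ → ∀ β : ℝ, 0 < β → β < 1 → Lvl A f Cr q β → LandC A K Cr ℓ q β

/-- **From one level to the next one.**

Proof. Constants `s ≤ δ₁, 1`, `C₂` from `S_NL`; `θ` small; `S₀` a bound of `∑ 1 / (c₀ μ ^ (i+1))`; `κ₂`, `C_N`, `t₁`
from `S_TIME` for `x i = s dC (z i)` (with larger constants, e.g. `C₂ / s ^ L`, `L` an upper bound of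
the `ℓ c`). They do not depend on `β`. Let a curve `u` be given as in `Lvl` for `β'`; `v = f c'`,
`z i = f^[i] v`, `P i = deriv f^[i] v`; `Orb f z P (fun i => deriv f (z i)) x _ S₀`. Put `t' = 2 t`. If `t' > t₁`
then `BaseC` applies directly. Let `N` be given by `S_TIME` for `t'` and `p i = ‖P i‖`. For `‖w - v‖ ≤ t'`,
`S_FOL` with `e = 0` gives `‖f^[N] w - z N - P N (w - v)‖ ≤ 8 C₂ θ t' ‖P N‖`, so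
`‖deriv f^[N] w - P N‖ ≤ ‖P N‖ / 100` for `‖w - v‖ ≤ t` (Cauchy). The perturbed orbit `y i = (F a)^[i] (u a)`
satisfies `‖y N - f^[N] (u a)‖ ≤ 3 S₀ C₁ r ‖P N‖` by `S_FOL` with `e = C₁ r`
(`S₀ C₁ r ≤ t` for small `r`, since `t ≥ r ^ β'`, `β' < 1`). So `a ↦ y N` is `NA (3/4)` on
`ball a₀ (σ/2)` with slope `P N * D`: the derivative of the difference is at most
`3 S₀ C₁ r ‖P N‖ / (σ/2)`, small compared to `‖P N‖ ‖D‖` since `‖D‖ σ ≥ r ^ (η + β')`. It stays within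
`T = 2 t' ‖P N‖` of `z N`. `ϑ = θ s / (N+1) ^ 2 ≥ r ^ η₁` as `N ≤ C log (1/r)`; `ϑ dC (z N) ≤ T` by the choice of
`N`; `T ^ ℓ c ≥ t' ^ (1 - κ₂) ≥ r ^ (β' (1 - κ₂)) ≥ r ^ β` for `c ∈ Cr` with `‖z N - c‖ ≤ dC (z N)`, because
`c₀ μ ^ (N+1) ≤ ‖P (N+1)‖ ≤ C₂ ‖z N - c‖ ^ (ℓ c - 1) ‖P N‖`. Apply `LandC` (for `β`; it follows from
`S_LAND`) to the balls `ball a (σ/4)`, `a ∈ ball a₀ (σ/2)` (curve restricted from `ball a (σ/2)`...), and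
`S_COV`. `¬ A a (u a)` implies `¬ A a (y N)` by `step`. The number `η` for `β'` is `η₁ / 2`. -/
def S_STEP : Prop :=
  ∀ (f : ℂ → ℂ) (U K : Set ℂ) (Cr : Finset ℂ) (ℓ : ℂ → ℕ) (δ₀ Cp rp c₀ μ : ℝ),
    Sys f U K Cr ℓ δ₀ Cp rp c₀ μ → Cr.Nonempty →
      ∀ (F : ℂ → ℂ → ℂ) (A : ℂ → ℂ → Prop) (q : ℕ) (ρ₁ δ₁ C₁ : ℝ), Fam F A f K q ρ₁ δ₁ C₁ →
        ∀ β₁ > (0 : ℝ), BaseC A q β₁ → ∃ κ₂ : ℝ, 0 < κ₂ ∧ κ₂ < 1 ∧ ∀ β : ℝ, 0 < β → β < 1 →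
          LandC A K Cr ℓ q β → ∀ β' : ℝ, 0 < β' → β' < 1 → β' * (1 - κ₂) ≤ β → Lvl A f Cr q β'

/-- A marked critical point `ζ a` of the family, with its value to first order in `a ^ q`, and the
transversality condition `L ≠ 0`. -/
structure Mk (F : ℂ → ℂ → ℂ) (f : ℂ → ℂ) (K : Set ℂ) (q : ℕ) (ρ₁ δ₁ : ℝ) (c : ℂ) (ζ h : ℂ → ℂ)
    (C₃ : ℝ) (L : ℂ) : Prop where
  diff : ∀ a, ‖a‖ < ρ₁ → DifferentiableAt ℂ ζ a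
  near : ∀ a, ‖a‖ < ρ₁ → ζ a ∈ cthickening δ₁ K
  C₃_pos : 0 < C₃
  val : ∀ a, ‖a‖ < ρ₁ → ‖F a (ζ a) - f c - a ^ q * h c‖ ≤ C₃ * ‖a‖ ^ (q + 1)
  fam : ∀ a z, ‖a‖ < ρ₁ → z ∈ cthickening δ₁ K → ‖F a z - f z - a ^ q * h z‖ ≤ C₃ * ‖a‖ ^ (q + 1)
  lip : ∀ z ∈ K, ∀ z' ∈ cthickening δ₁ K, ‖h z - h z'‖ ≤ C₃ * ‖z - z'‖
  bd : ∀ z ∈ K, ‖h z‖ ≤ C₃
  sum : HasSum (fun i : ℕ => h (f^[i] (f c)) / deriv f^[i + 1] (f c)) (L - h c)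
  ne : L ≠ 0

/-- **The first passage.**

Proof. Notation of `S_STEP`, `v = f c`. Let `θ` be small depending on `L`, `q`, `C₃`, `c₀`. For `σ₀` small let
`r = (2 σ₀) ^ q`, `t = C r ≥ ‖F a (ζ a) - v‖ + S₀ C₁ r` for `‖a‖ ≤ 2 σ₀`. Let `N` be given by `S_TIME` for `t`. For
`y i = (F a)^[i] (F a (ζ a))`, `S_FOL` gives
`‖y N - z N - P N ((y 0 - v) + ∑_{i<N} (F a (y i) - f (y i)) / P (i+1))‖ ≤ 8 C₂ θ t ‖P N‖`. Here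
`y 0 - v = a ^ q h c + O(σ₀ r)`, `F a (y i) - f (y i) = a ^ q h (z i) + O(σ₀ r) + O(r ‖y i - z i‖)`, and
`‖y i - z i‖ ≤ 2 t ‖P i‖ ≤ 2 θ / (i+1) ^ 2`, `1 / ‖P (i+1)‖ ≤ 1 / c₀`, so the sum of these errors is
`≤ C (θ + σ₀) r`; and `∑_{i ≥ N} h (z i) / P (i+1) → 0` as `N → ∞`. So
`‖y N - z N - P N L a ^ q‖ ≤ ε₁ ‖L‖ r ‖P N‖` for `‖a‖ ≤ 2 σ₀`, `ε₁` as small as we like (`N → ∞` as `σ₀ → 0`:
`θ / (N+1)^2 * x N < t p N` with `x N ≥ c₀ / (C p N)`, `p N ≤ C ^ N`, forces `N` to be large). By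
Cauchy, for `‖a₀‖ ∈ [σ₀/2, σ₀]` the function `a ↦ y N` is `NA (3/4)` on `ball a₀ (λ σ₀)` (`λ` a small constant
depending on `q`) with the slope `D = P N L q a₀ ^ (q-1)`, `‖D‖ λ σ₀ ≥ c' r ‖P N‖`. With `T = 2 t ‖P N‖` and
`ϑ = θ s / (N+1) ^ 2` apply `LandC` for `β = 1 - κ₂ / 2` (`T ^ ℓ ≥ t ^ (1 - κ₂) ≥ r ^ β`), on `ball a₀ (λ σ₀)`, and
`S_COV`. `¬ A a (ζ a)` implies `¬ A a (y N)` by `step`. -/
def S_FIRST : Prop :=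
  ∀ (f : ℂ → ℂ) (U K : Set ℂ) (Cr : Finset ℂ) (ℓ : ℂ → ℕ) (δ₀ Cp rp c₀ μ : ℝ),
    Sys f U K Cr ℓ δ₀ Cp rp c₀ μ →
      ∀ (F : ℂ → ℂ → ℂ) (A : ℂ → ℂ → Prop) (q : ℕ) (ρ₁ δ₁ C₁ : ℝ), Fam F A f K q ρ₁ δ₁ C₁ →
        (∀ β : ℝ, 0 < β → β < 1 → LandC A K Cr ℓ q β) →
        ∀ (c : ℂ) (ζ h : ℂ → ℂ) (C₃ : ℝ) (L : ℂ), c ∈ Cr → Mk F f K q ρ₁ δ₁ c ζ h C₃ L →
          ∃ c' > (0 : ℝ), ∃ C > (0 : ℝ), ∃ σ₁ > (0 : ℝ), ∀ σ₀ : ℝ, 0 < σ₀ → σ₀ < σ₁ →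
            volume {a | σ₀ / 2 ≤ ‖a‖ ∧ ‖a‖ ≤ σ₀ ∧ ¬ A a (ζ a)} ≤
              ENNReal.ofReal (C * σ₀ ^ ((2 : ℝ) + c'))

/-- **Zero area** (optional strengthening): if the points which are not in `K` are dense then `K`
has zero area.

Proof. Suppose `volume K > 0`. As in the proof of `S_DEC` (only the part which does not use the second
recursion) `ph n c ρ ≤ A ρ ^ (γ ℓ c) b n` with `b n = max_{i ≤ n} q ^ (n-i) ar i`. As in the proof of `S_R2` (hits at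
the scale `ϱ`), the area of the points `z ∈ K` through which there is no branch of `f^[-n]` on
`ball (f^[n] z) ϱ` is at most `C A ϱ ^ γ b n`; `b n ≤ 2 volume K` for large `n` (`ar n → volume K`, by `late`). So
for `ϱ` small and all large `n` it is at most `volume K / 2`. Hence the set of the `z ∈ K` for which there are
infinitely many `n` with a branch `g_n` on `ball (f^[n] z) ϱ` through `z` has positive area; let `z` be a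
Lebesgue density point of `K` in this set. If `‖deriv g_n (f^[n] z)‖` does not tend to zero along these
`n`, then `g_n '' ball (f^[n] z) ϱ` contains a fixed ball around `z` (Koebe) for infinitely many `n`, all its points
are in `E f U K δ n` for infinitely many `n`, so in `K` (`late`); contradiction. So it tends to zero, and
by Koebe distortion `K` has density tending to one in `ball (f^[n] z) (ϱ/4)`; by compactness of `K` there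
is a ball of radius `ϱ/8` around a point of `K` contained in `K` up to a null set, hence contained in `K`
(closed), contradiction. -/
def S_ZERO : Prop :=
  ∀ (f : ℂ → ℂ) (U K : Set ℂ) (Cr : Finset ℂ) (ℓ : ℂ → ℕ) (δ₀ Cp rp c₀ μ : ℝ),
    Sys f U K Cr ℓ δ₀ Cp rp c₀ μ → interior K = ∅ → volume K = 0

end Pool.Agent.H211.AD
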