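import Pool.Agent.H211.AD.Stm
import Pool.Graph.R_seed8.H792R2.CE.Main

/-!
# Lebesgue density of hyperbolicity at Collet-Eckmann maps, at all scales: statements, part C

The structure `Sys` for rational maps (`∞` attracted by a finite attracting cycle).
-/

set_option autoImplicit false

open Metric Set MeasureTheory Filter Topology Polynomial
open scoped OnePoint

namespace Pool.Agent.H211.AD

open Pool.Agent.H792R2.CE

/-- Local normal form at a critical point.

Proof. `f z - f c = (z - c) ^ ℓ * g z` near `c` with `g` analytic, `g c ≠ 0`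
(`AnalyticAt.analyticOrderAt_eq_natCast` or `AnalyticAt.exists_eventuallyEq_pow_smul_nonzero_iff`); `ℓ ≥ 2`
since the derivative vanishes; `deriv f z = (z - c) ^ (ℓ - 1) * (ℓ g z + (z - c) g' z)`; the two
nonvanishing continuous factors are bounded from above and below near `c`. -/
def S_POW : Prop :=
  ∀ (f : ℂ → ℂ) (c : ℂ), AnalyticAt ℂ f c → deriv f c = 0 → (¬ ∀ᶠ z in 𝓝 c, f z = f c) →
    ∃ ℓ : ℕ, 2 ≤ ℓ ∧ ∃ Cp ≥ (1 : ℝ), ∃ rp > (0 : ℝ), ∀ z, ‖z - c‖ ≤ rp →
      ‖f z - f c‖ ≤ Cp * ‖z - c‖ ^ ℓ ∧ ‖z - c‖ ^ ℓ ≤ Cp * ‖f z - f c‖ ∧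
      ‖deriv f z‖ ≤ Cp * ‖z - c‖ ^ (ℓ - 1) ∧ ‖z - c‖ ^ (ℓ - 1) ≤ Cp * ‖deriv f z‖

/-- The domain. -/
def RU (Q : ℂ[X]) : Set ℂ := {z | Q.eval z ≠ 0}

/-- The non-attracted set. -/
def RK (d : ℕ) (P Q : ℂ[X]) : Set ℂ := {z | ¬ Att d P Q (z : OnePoint ℂ)}

/-- Preimages of points close to the non-attracted set are close to it, uniformly in time.

Proof. `K = RK d P Q` is compact (`natt_compact`). Let `L` be the complement in the sphere of the
image of `thickening ε K` (a closed subset of the compact sphere); all its points are attracted. For `x ∈ L`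
attracted by the cycle of `y`: there is a neighbourhood `W` of `y` whose forward images under all the iterates
of `sph d P Q` stay close to the cycle of `y`, so away from `cthickening δ K` for some `δ > 0`
(the cycle is finite, disjoint from `K`; `f^[n]` contracts a small disc around `y`, `n` the period).
Some iterate of `x` is in `W`; by continuity there are a neighbourhood `V` of `x` and `δ > 0` such that no
iterate of a point of `V` is in (the image of) `cthickening δ K`. Finitely many such `V` cover `L`.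
For `z ∈ E (rf P Q) (RU Q) K δ n` the planar iterates agree with the iterates on the sphere
(`sph_coe_of_ne`), so `z ∉ L`. Compare `att_stable_pow`, `C2_step`, `C3_sinks` and `natt_iter` in
`Pool/Graph/R_seed8/H792R2/CE`. -/
def S_RBACK : Prop :=
  ∀ (P Q : ℂ[X]) (d : ℕ), 2 ≤ d → IsCoprime P Q → P.natDegree ≤ d → Q.natDegree = d →
    Att d P Q ∞ → ∀ ε > (0 : ℝ), ∃ δ > (0 : ℝ), ∀ n,
      E (rf P Q) (RU Q) (RK d P Q) δ n ⊆ cthickening ε (RK d P Q)

/-- Lifting through a rational map.

Proof. `v = lim_{z → ∞} P / Q` exists (`deg P ≤ deg Q`) and is the image of `∞`, so it is attracted and not in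
the compact set `K = RK d P Q`; choose `δ₀` with `v ∉ cthickening δ₀ K`. Apply
`Pool.Agent.H713R3.ZA.root_holds` (file `Pool/Graph/R_seed8/H713R3/ZA/TROOT.lean`, statement `StROOT` in
`ZA/Defs.lean`; see `Pool/Graph/R_seed8/H400R3/HI/Open.lean`, theorem `branch`, for an application) on
`Ω = ball y R` to `Φ (s, z) = P z - g s * Q z` and the starting point `z₀`. Properness: if `s` is in a compact
subset, `Φ (s, z)` is bounded and `|z|` large then `|P / Q - g s| = |Φ| / |Q|` is small, but it is `≥ η > 0` by the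
choice of `δ₀`. A zero `z` has `Q z ≠ 0` (else `P z = 0`, coprimality), so `rf P Q z = g s` and
`∂_z Φ = P' - (P/Q) Q' = Q * deriv (rf P Q) z ≠ 0`. -/
def S_RLIFT : Prop :=
  ∀ (P Q : ℂ[X]) (d : ℕ), 2 ≤ d → IsCoprime P Q → P.natDegree ≤ d → Q.natDegree = d →
    Att d P Q ∞ → ∃ δ₀ > (0 : ℝ), ∀ (g : ℂ → ℂ) (y : ℂ) (R : ℝ), 0 < R →
      DifferentiableOn ℂ g (ball y R) → MapsTo g (ball y R) (cthickening δ₀ (RK d P Q)) →
      (∀ z ∈ RU Q, rf P Q z ∈ g '' ball y R → deriv (rf P Q) z ≠ 0) →
      ∀ z₀ ∈ RU Q, rf P Q z₀ = g y → ∃ G : ℂ → ℂ, DifferentiableOn ℂ G (ball y R) ∧ G y = z₀ ∧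
        ∀ x ∈ ball y R, G x ∈ RU Q ∧ rf P Q (G x) = g x

/-- There are no attracting cycles near the non-attracted set, and attraction is uniform.

Proof. `K = RK d P Q`, `f = rf P Q`, `U = RU Q`. (1) (Fatou's argument.) Choose `ε₁ > 0` such that
`cthickening ε₁ K ⊆ U` contains no zero of `wr P Q` outside `K` (there are finitely many zeros), `ε₁` also
at most the `δ₀` of `S_RLIFT`; `δ` from `S_RBACK` for `ε₁` (`δ ≤ ε₁`); `δ₀ = δ / 2`. Claim: no point `y` of
`cthickening δ₀ K` is an attracting periodic point (`f^[p] y = y`, `‖deriv f^[p] y‖ < 1`, the orbit in `U`).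
Suppose there is one; `y` is attracted, so `y ∉ K`. Let `B = ball y ρ ⊆ cthickening δ K` consist of points
attracted to the cycle of `y`. By `S_RLIFT` one gets successively branches `g_n` of the inverse of `f^[n]` on
`B` with `g_n y = f^[p n - n] y` (`f` maps this point for `n + 1` to the one for `n`), with values in
`E f U K δ n ⊆ cthickening ε₁ K`: if `z ∈ U`, `f z ∈ g_n '' B`, `deriv f z = 0` then `wr P Q` vanishes at `z`
and `z ∈ E f U K δ (n+1) ⊆ cthickening ε₁ K`, so `z ∈ K`, contradicting that `f^[n + 1] z ∈ B` is attracted. For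
`n = p k` we get `g_n y = y`, `‖deriv g_n y‖ = ‖deriv f^[p] y‖ ^ (-k) → ∞`, but `g_n` is bounded on `B`
uniformly in `n`, which contradicts Cauchy's estimate (if the derivative is `0` already the chain rule
gives a contradiction).
(2) The complement `L` in the sphere of `thickening ε K` is compact and consists of attracted points; the
cycles attracting them are outside `cthickening δ₀ K` by (1), so every `x ∈ L` has a neighbourhood `V` and a
time `N` such that no `f^[n] x'`, `n ≥ N`, `x' ∈ V`, is in `cthickening δ₀ K`. -/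
def S_RLATE : Prop :=
  ∀ (P Q : ℂ[X]) (d : ℕ), 2 ≤ d → IsCoprime P Q → P.natDegree ≤ d → Q.natDegree = d →
    Att d P Q ∞ → ∃ δ₀ > (0 : ℝ), ∀ ε > (0 : ℝ), ∃ T₀ : ℕ, ∀ n ≥ T₀,
      E (rf P Q) (RU Q) (RK d P Q) δ₀ n ⊆ cthickening ε (RK d P Q)

end Pool.Agent.H211.AD
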