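import Pool.Agent.H211.AD.Stm2
import Pool.Graph.R_pool_sql_team_seeded_64922ed1.X325.EP.E
import Pool.Graph.R_seed8.H792R2.CE.Main
import Pool.Agent.H211.LR.Dirs

/-!
# Lebesgue density of hyperbolicity at Collet-Eckmann maps, at all scales: statements, part D

Instances: the families `fam P Q H G K a`, polynomials, directions of perturbation, lines and balls.
-/

set_option autoImplicit false

open Metric Set MeasureTheory Filter Topology Polynomial
open scoped OnePoint ENNReal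

namespace Pool.Agent.H211.AD

open Pool.Agent.H792R2.CE Pool.Agent.H792R2

/-- **The instance** of `Fam` and `Mk` for the family `(P + a ^ K H) / (Q + a ^ K G)` and the marked
critical point `τ (ω a ^ l)`, `l k = K`, near a critical point `c` of multiplicity `k`.

Proof. Choose `δ₁` (`≤ 1`) with `Q ≠ 0` on `cthickening δ₁ Ks` (compact), and then `ρ₁ ≤ 1, ρ₂` such that
`Q + a ^ K G ≠ 0` there for `‖a‖ < ρ₁` (see `hevK` in `Pool/Agent/H211/LR/Core.lean`; `smooth` is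
`fam_contDiffAt`, `zero` is `fam_zero`), `τ (ω a ^ l) ∈ cthickening δ₁ Ks`, `‖ω a ^ l‖ < ρ`. With `s = a ^ K`,
`h = (H Q - P G) / Q ^ 2`:
`fam a z - f z = s (H Q - P G) / (Q (Q + s G))`, `fam a z - f z - s h z = - s ^ 2 G (H Q - P G) / (Q ^ 2 (Q + s G))`,
which is `O(‖a‖ ^ (2 K))`, `2 K ≥ K + 1`; on the compact sets everything is bounded (make `ρ₁` smaller so
that `Q + s G` is bounded from below there). `lip`: `h` is smooth near the compact set; if
`‖z - z'‖ ≤ δ₁` the segment is in `cthickening δ₁ Ks`, otherwise use that `h` is bounded. `val`: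
`fam a (ζ a) - f c - s h c = (fam a (ζ a) - f (ζ a) - s h (ζ a)) + s (h (ζ a) - h c) + (f (ζ a) - f c)`, where
`‖ζ a - c‖ ≤ C ‖a‖ ^ l` (differentiability of `τ` at `0`; for `ρ₁` small) and
`‖f z - f c‖ ≤ C ‖z - c‖ ^ (k + 1)` near `c` (mean value inequality: `deriv f z = (wr P Q).eval z / Q z ^ 2`
and `(X - c) ^ k` divides `wr P Q`), `l (k + 1) = K + l ≥ K + 1`. `sum`: split off the first term of the sum. -/
def S_INST : Prop :=
  ∀ (P Q H G : ℂ[X]) (Ks : Set ℂ), IsCompact Ks → (∀ z ∈ Ks, Q.eval z ≠ 0) →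
    (∀ z ∈ Ks, rf P Q z ∈ Ks) → ∀ K : ℕ, 1 ≤ K → ∀ (A : ℂ → ℂ → Prop) (ρ₂ : ℝ), 0 < ρ₂ →
    (∀ a z, ‖a‖ < ρ₂ → (Q + C (a ^ K) * G).eval z ≠ 0 → A a (fam P Q H G K a z) → A a z) →
    (∀ ε > (0 : ℝ), ∃ r > (0 : ℝ), ∀ a, ‖a‖ < r → ∀ z, z ∉ cthickening ε Ks → A a z) →
    ∀ (c : ℂ) (k l : ℕ), c ∈ Ks → wr P Q ≠ 0 → (wr P Q).rootMultiplicity c = k → 1 ≤ l →
    l * k = K → ∀ (τ : ℂ → ℂ) (t : ℂ) (ρ : ℝ), 0 < ρ → τ 0 = c → HasDerivAt τ t 0 →
      (∀ b, ‖b‖ < ρ → DifferentiableAt ℂ τ b) → ∀ ω : ℂ, ‖ω‖ = 1 →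
      (Summable fun j => (H * Q - P * G).eval ((rf P Q)^[j] c) /
          Q.eval ((rf P Q)^[j] c) ^ 2 / deriv ((rf P Q)^[j]) (rf P Q c)) →
      ∑' j, (H * Q - P * G).eval ((rf P Q)^[j] c) / Q.eval ((rf P Q)^[j] c) ^ 2 /
          deriv ((rf P Q)^[j]) (rf P Q c) ≠ 0 →
      ∃ ρ₁ δ₁ C₁ C₃ : ℝ, Fam (fam P Q H G K) A (rf P Q) Ks K ρ₁ δ₁ C₁ ∧
        Mk (fam P Q H G K) (rf P Q) Ks K ρ₁ δ₁ c (fun a => τ (ω * a ^ l))
          (fun z => (H * Q - P * G).eval z / Q.eval z ^ 2) C₃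
          (∑' j, (H * Q - P * G).eval ((rf P Q)^[j] c) / Q.eval ((rf P Q)^[j] c) ^ 2 /
            deriv ((rf P Q)^[j]) (rf P Q c))

/-- the orbit escapes -/
def Esc (g : ℂ → ℂ) (z : ℂ) : Prop := Tendsto (fun k : ℕ => ‖g^[k] z‖) atTop atTop

/-- The set of the points which are not attracted. -/
def PK (A : (ℂ → ℂ) → ℂ → Prop) (P : ℂ[X]) : Set ℂ := {z | ¬ A (fun z => P.eval z) z}

/-- Polynomials: there are no attracting cycles near the non-attracted set, attraction is uniform.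

Proof. There is `R` with `‖P z‖ ≥ 2 ‖z‖` for `‖z‖ ≥ R` (`Dyn.family_escape` with constant family), all such
points escape (`Dyn.attr_of_large`), and `K = PK A P ⊆ ball 0 R` is compact (`natt_compact_poly`). Case
`A = Dyn.Attr`: by `Pool.Agent.H400R3.HI.sinks_finite` (file `Pool/Graph/R_seed8/H400R3/HI/Fatou.lean`) the
set of attracting periodic points is finite, they are not in `K`; choose `δ₀` such that
`cthickening δ₀ K` is at positive distance from them (and bounded). The compact set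
`L = closedBall 0 R' \ thickening ε K`, where `cthickening (δ₀ + 1) K ⊆ ball 0 R'`, `R' ≥ R`, consists of attracted
points; every `x ∈ L` has a neighbourhood `V` and a time `N` with `f^[n] x' ∉ cthickening δ₀ K` for all
`x' ∈ V`, `n ≥ N` (close to an attracting cycle, use a disc around the periodic point which is
contracted by `f^[p]` and whose images under `f^[i]`, `i < p`, are close to the cycle; or far
away, where the orbits stay); finitely many `V` cover `L`. Points outside `closedBall 0 R'` do not come back. For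
`A = Esc` the same without the attracting cycles. -/
def S_PLATE : Prop :=
  ∀ A : (ℂ → ℂ) → ℂ → Prop, (A = Dyn.Attr ∨ A = Esc) → ∀ P : ℂ[X], 2 ≤ P.natDegree →
    ∃ δ₀ > (0 : ℝ), ∀ ε > (0 : ℝ), ∃ T₀ : ℕ, ∀ n ≥ T₀,
      E (fun z => P.eval z) univ (PK A P) δ₀ n ⊆ cthickening ε (PK A P)

/-- Polynomials: preimages of points close to the non-attracted set are close to it, uniformly.

Proof. By `S_PLATE` this is true for `n ≥ T₀` (and `δ ≤ δ₀`). For each `n < T₀`: if there is no such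
`δ`, there are points `z_j` at distance `≥ ε` from `K = PK A P` with `f^[n] z_j` at distance `≤ 1 / j` from
`K`; they are bounded (points far away go even further away), a limit `z` of a subsequence satisfies `f^[n] z ∈ K`
and so `z ∈ K` (`A` is forward invariant), contradiction. -/
def S_PBACK : Prop :=
  ∀ A : (ℂ → ℂ) → ℂ → Prop, (A = Dyn.Attr ∨ A = Esc) → ∀ P : ℂ[X], 2 ≤ P.natDegree →
    ∀ ε > (0 : ℝ), ∃ δ > (0 : ℝ), ∀ n,
      E (fun z => P.eval z) univ (PK A P) δ n ⊆ cthickening ε (PK A P)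

/-- Lifting through a polynomial.

Proof. `Pool.Agent.H713R3.ZA.root_holds` (file `Pool/Graph/R_seed8/H713R3/ZA/TROOT.lean`, statement `StROOT`
in `ZA/Defs.lean`; see `Pool/Graph/R_seed8/H400R3/HI/Open.lean`, theorem `branch`, for an application) on
`ball y R` with `Φ (s, z) = P z - g s`. -/
def S_PLIFT : Prop :=
  ∀ P : ℂ[X], 1 ≤ P.natDegree → ∀ (g : ℂ → ℂ) (y : ℂ) (R : ℝ), 0 < R →
    DifferentiableOn ℂ g (ball y R) →
    (∀ z : ℂ, P.eval z ∈ g '' ball y R → (derivative P).eval z ≠ 0) →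
    ∀ z₀ : ℂ, P.eval z₀ = g y →
      ∃ G : ℂ → ℂ, DifferentiableOn ℂ G (ball y R) ∧ G y = z₀ ∧ ∀ x ∈ ball y R, P.eval (G x) = g x

/-- The directions, for polynomials.

Proof. Adapt `main_scales` in `Pool/Agent/H211/LD/Main.lean` (there the second family of subspaces is
only used for the critical points of multiplicity one; `transversal_poly` works for all of them). -/
def S_TRP : Prop :=
  ∀ A : (ℂ → ℂ) → ℂ → Prop, Pool.Agent.X325.EP.Pred A → ∀ (P : ℂ[X]) (d : ℕ), 2 ≤ d →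
    P.natDegree = d → volume {z : ℂ | ¬ A (rf P 1) z} = 0 →
    (∀ c : ℂ, (wr P 1).eval c = 0 → ¬ A (rf P 1) c →
      (∀ j, deriv ((rf P 1)^[j]) (rf P 1 c) ≠ 0) ∧
        Summable fun m => ‖deriv ((rf P 1)^[m]) (rf P 1 c)‖⁻¹) →
    ∃ 𝒱 : Finset (Submodule ℂ ℂ[X]), 𝒱.card ≤ 2 * (d - 1) ∧
      (∀ V ∈ 𝒱, ∃ H : ℂ[X], H.natDegree < d ∧ H ∉ V) ∧
      ∀ H : ℂ[X], H.natDegree ≤ d → (∀ V ∈ 𝒱, H ∉ V) →
        ∀ c : ℂ, (wr P 1).eval c = 0 → ¬ A (rf P 1) c →
          (wr H 1 + wr P 0).eval c ≠ 0 ∧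
          (Summable fun j => (H * 1 - P * 0).eval ((rf P 1)^[j] c) /
            (1 : ℂ[X]).eval ((rf P 1)^[j] c) ^ 2 / deriv ((rf P 1)^[j]) (rf P 1 c)) ∧
          ∑' j, (H * 1 - P * 0).eval ((rf P 1)^[j] c) /
            (1 : ℂ[X]).eval ((rf P 1)^[j] c) ^ 2 / deriv ((rf P 1)^[j]) (rf P 1 c) ≠ 0

open Pool.Agent.H211.LR Pool.Agent.Helper114.Herman in
/-- The directions, for rational maps.

Proof. Adapt `direction` in `Pool/Graph/R_seed8/H792R2/CE/Main.lean` and `dirs` in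
`Pool/Agent/H211/LR/Dirs.lean` (there the second family of subspaces is only used for the critical
points of multiplicity one; `transversal` works for all of them). -/
def S_TRR : Prop :=
  ∀ (d : ℕ), 2 ≤ d → ∀ (P Q : ℂ[X]), IsCoprime P Q → P.natDegree ≤ d → Q.natDegree = d →
    Att d P Q ∞ → volume {z : ℂ | ¬ Att d P Q (z : OnePoint ℂ)} = 0 →
    (∀ c : ℂ, (wr P Q).eval c = 0 → ¬ Att d P Q (c : OnePoint ℂ) →
      (∀ j, deriv ((rf P Q)^[j]) (rf P Q c) ≠ 0) ∧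
        Summable fun m => ‖deriv ((rf P Q)^[m]) (rf P Q c)‖⁻¹) →
    ∃ 𝒱 : Finset (Submodule ℂ (EE d)), 𝒱.card ≤ 4 * (d - 1) ∧ (∀ V ∈ 𝒱, V ≠ ⊤) ∧
      ∀ b : EE d, (∀ V ∈ 𝒱, b ∉ V) →
        ∀ c : ℂ, (wr P Q).eval c = 0 → ¬ Att d P Q (c : OnePoint ℂ) →
          (wr (PP b) Q + wr P (QQ b)).eval c ≠ 0 ∧
          (Summable fun j => (PP b * Q - P * QQ b).eval ((rf P Q)^[j] c) /
            Q.eval ((rf P Q)^[j] c) ^ 2 / deriv ((rf P Q)^[j]) (rf P Q c)) ∧
          ∑' j, (PP b * Q - P * QQ b).eval ((rf P Q)^[j] c) / Q.eval ((rf P Q)^[j] c) ^ 2 /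
            deriv ((rf P Q)^[j]) (rf P Q c) ≠ 0

/-- From lines to balls.

Proof. As in `Pool/Agent/H211/LR/Ball.lean` (`ball_prop`, `average`, `lin`, `lin_meas`, `lin_le`) and
`combine_lim` in `Pool/Agent/H211/LR/Final.lean`, there for averages over dyadic scales; here for all the
radii (`ball_prop` for all radii, or: it is enough to prove it for the dyadic radii, and for
`2 ^ (-(k+1)) ≤ r ≤ 2 ^ (-k)` the proportion is at most `2 ^ (real dimension)` times the one for `2 ^ (-k)`), dominated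
convergence (`tendsto_lintegral_of_dominated_convergence`) over `b ∈ ball 0 1`; almost every `b` is outside
the proper subspaces (`proper_null`). -/
def S_BALL : Prop :=
  ∀ (ι : Type) [Fintype ι] (B : Set (ι → ℂ)) (a₀ : ι → ℂ) (r₀ : ℝ), 0 < r₀ →
    MeasurableSet (B ∩ ball a₀ r₀) → ∀ 𝒱 : Finset (Submodule ℂ (ι → ℂ)), (∀ V ∈ 𝒱, V ≠ ⊤) →
    (∀ b : ι → ℂ, (∀ V ∈ 𝒱, b ∉ V) → ∃ c > (0 : ℝ), ∃ C > (0 : ℝ), ∃ r₁ > (0 : ℝ),
      ∀ r : ℝ, 0 < r → r < r₁ →
        volume {s : ℂ | ‖s‖ < r ∧ a₀ + s • b ∈ B} ≤ ENNReal.ofReal (C * r ^ ((2 : ℝ) + c))) →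
    Tendsto (fun r : ℝ => volume (B ∩ ball a₀ r) / volume (ball a₀ r)) (𝓝[>] 0) (𝓝 0)

end Pool.Agent.H211.AD
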