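import Pool.Agent.H211.AD.Stm2

/-!
# Lebesgue density of hyperbolicity at Collet-Eckmann maps, at all scales: statements, part E

The Collet-Eckmann condition implies that the set `K` of the points which are not attracted has empty
interior.
-/

set_option autoImplicit false

open Metric Set MeasureTheory Filter Topology

namespace Pool.Agent.H211.AD

/-- A preconnected set `V` containing `z`, which is mapped by `f^[n]` to the ball of radius `R` around
`f^[n] z`. -/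
def Conn (f : ℂ → ℂ) (U : Set ℂ) (n : ℕ) (z : ℂ) (R : ℝ) (V : Set ℂ) : Prop :=
  IsPreconnected V ∧ z ∈ V ∧ (∀ i < n, MapsTo f^[i] V U) ∧ MapsTo f^[n] V (ball (f^[n] z) R)

/-- **Critical points are not in the interior of `K`.**

Proof. Let `c ∈ Cr`, `ball c r ⊆ K`. By the open mapping theorem (`f` is not constant near `c` by `loc`)
`ball (f c) s ⊆ f '' ball c r ⊆ K` for some `s > 0`. All `f^[n]` map `ball (f c) s` to the bounded set `K` and they are
holomorphic there, so by Cauchy's estimate `‖deriv f^[n] (f c)‖` is bounded, in contradiction to `ce`. The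
second part: `crit`, as `z ∈ K` implies `z ∈ E f U K δ₀ 0`. The third part: `f '' interior K` is open (open
mapping, `deriv f ≠ 0`) and contained in `K`. The fourth: `f ⁻¹' interior K ∩ U` is open and contained
in `K` by `bwd`. The fifth follows. -/
def S_NOCR : Prop :=
  ∀ (f : ℂ → ℂ) (U K : Set ℂ) (Cr : Finset ℂ) (ℓ : ℂ → ℕ) (δ₀ Cp rp c₀ μ : ℝ),
    Sys f U K Cr ℓ δ₀ Cp rp c₀ μ → (∀ c ∈ Cr, c ∉ interior K) ∧
      (∀ z ∈ interior K, deriv f z ≠ 0) ∧ (∀ z ∈ interior K, f z ∈ interior K) ∧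
      (∀ z ∈ U, f z ∈ interior K → z ∈ interior K) ∧
      (∀ z ∈ frontier K, ∀ n, f^[n] z ∈ frontier K)

/-- **Hit lemma, for connected sets.**

Proof. As for `S_HIT` (proved in `Pool/Agent/H44/AD211/HIT.lean`): up to the hit time `j` there is a branch
`g_j` of the inverse of `f^[j]` on `ball w₀ (RR R τ j)`, `w₀ = f^[n] z`, with `g_j w₀ = f^[n - j] z`. For a
set `V` with `Conn f U n z R V` we have `f^[n - j] v = g_j (f^[n] v)` for all `v ∈ V` (the set of such `v` is open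
and closed in `V` since `f^[j]` is locally injective at the points of the image of `g_j`, and contains `z`). So
`‖f^[n - j] v - f c'‖` satisfies the estimate, and the continuous function `v ↦ ‖f^[n - (j + 1)] v - c'‖` on the
connected set `V` is `< r'` at `z` and never `= r'` (by `loc`), so it is `< r'` on `V`. -/
def S_HITV : Prop :=
  ∀ (f : ℂ → ℂ) (U K : Set ℂ) (Cr : Finset ℂ) (ℓ : ℂ → ℕ) (δ₀ Cp rp c₀ μ : ℝ),
    Sys f U K Cr ℓ δ₀ Cp rp c₀ μ → ∀ θ : ℝ, 1 < θ → θ < μ → ∃ C₁ > (0 : ℝ), ∀ r' > (0 : ℝ),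
      ∃ R₁ > (0 : ℝ), ∀ (n : ℕ) (z : ℂ) (R : ℝ), 0 < R → R ≤ R₁ → (∀ i < n, f^[i] z ∈ U) →
        f^[n] z ∈ cthickening R₁ K →
        (∃ g, IsBr f U n (f^[n] z) R g ∧ g (f^[n] z) = z) ∨
        ∃ j < n, ∃ c ∈ Cr, ‖f^[j] (f c) - f^[n] z‖ < 2 * R ∧
          ∀ V : Set ℂ, Conn f U n z R V → ∀ v ∈ V,
              ‖f^[n - (j + 1)] v - c‖ < r' ∧
                ‖f^[n - j] v - f c‖ ≤ C₁ * θ ^ j * R / ‖deriv f^[j] (f c)‖

/-- **Univalent branches at the points of the frontier of `K` have small images**, if the time is long or if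
the scale is small.

Proof. Given `η`, by Koebe (`Pool.Agent.W746.LD.KC`, file `Pool/Graph/R_seed8/W746/LD/Koebe.lean`, `komit`; the branches
are injective) there is `η' > 0` such that `‖deriv g (f^[m] z)‖ * R > η` implies
`ball z (2 η') ⊆ g '' ball (f^[m] z) R`. Cover the compact set `frontier K` by finitely many balls `ball z_i η'`,
`z_i ∈ frontier K`, choose `p_i ∈ ball z_i η' \ K`. By `late` there is `T` with `p_i ∉ E f U K δ₀ n` for all `n ≥ T`
and all `i` (use `ε` smaller than the distance of `p_i` from `K`). If `‖deriv g (f^[m] z)‖ * R > η`,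
`z ∈ ball z_i η'`, then `p_i, z_i ∈ ball z (2 η')`, so the iterates `f^[j] p_i`, `j < m`, are in `U` and
`f^[m] p_i ∈ ball (f^[m] z) R ⊆ cthickening δ₀ K` (as `R ≤ δ₀` and `f^[m] z ∈ K`), so `p_i ∈ E f U K δ₀ m`, and
`m < T`. Moreover `f^[m] p_i ≠ f^[m] z_i` (as `z_i ∈ K`, `p_i ∉ K`, use `bwd`, `fwd`) are both in
`ball (f^[m] z) R`, so `2 R > ‖f^[m] p_i - f^[m] z_i‖`, which is bounded from below, over the finitely many `i`
and `m < T`. -/
def S_UNI : Prop :=
  ∀ (f : ℂ → ℂ) (U K : Set ℂ) (Cr : Finset ℂ) (ℓ : ℂ → ℕ) (δ₀ Cp rp c₀ μ : ℝ),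
    Sys f U K Cr ℓ δ₀ Cp rp c₀ μ → ∀ η > (0 : ℝ), ∃ ε > (0 : ℝ), ∃ T : ℕ,
      ∀ z ∈ frontier K, ∀ (m : ℕ) (R : ℝ) (g : ℂ → ℂ), 0 < R → R ≤ δ₀ →
        IsBr f U m (f^[m] z) R g → g (f^[m] z) = z → (T ≤ m ∨ R ≤ ε) →
          ‖deriv g (f^[m] z)‖ * R ≤ η

/-- **Backward shrinking.** (Uses `S_HITV`, `S_UNI`.)

Proof. Let `θ = √μ`, `κ = θ / μ`, `κ' = √κ`, `L` an upper bound of the `ℓ c`. There are `C₄` and `M` with the
following properties. Let `R₁` be given by `S_HITV` for `r' = rp`; let `ϱ` be small. Consider a state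
`(n, c, R)`: `0 < R`, `c ∈ Cr`, `f^[n]` maps `V` to `closedBall c (R / 3)` (so `Conn f U n z R V`), with
`3 R ≤ d_M := min_{j < M, c', c'' ∈ Cr} ‖f^[j] (f c') - c''‖` (positive, since `deriv f^[j+1] (f c') ≠ 0` by `ce` and
`deriv f c'' = 0` by `loc`). If there is no branch on `ball (f^[n] z) R` then for the hit `(j, c')`:
`‖f^[j] (f c') - c‖ < 3 R ≤ d_M`, so `j ≥ M`; `c₀ μ ^ (j+1) ≤ ‖deriv f^[j+1] (f c')‖ ≤
Cp (3 R) ^ (ℓ c - 1) ‖deriv f^[j] (f c')‖`, so `‖f^[n - j] v - f c'‖ ≤ C κ ^ j R ^ ℓ c` and by `loc`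
`‖f^[n - (j+1)] v - c'‖ ^ ℓ c' ≤ C' κ ^ j R ^ ℓ c` for `v ∈ V`; with `R'` defined by
`(R' / 3) ^ ℓ c' = C' κ ^ j R ^ ℓ c` the new state is `(n - (j + 1), c', R')` and
`R' ^ ℓ c' ≤ C₄ κ ^ j R ^ ℓ c ≤ κ' ^ (j + 1) R ^ ℓ c` as `j ≥ M`. The first step is similar, from `(n, R = 2 ϱ)`, with
`R' ^ ℓ c' ≤ C₅ κ' ^ (j + 1) ϱ` (here `j` is arbitrary). By strong induction, for all the states `(m, c, R)` which
occur, `R ^ ℓ c ≤ C₅ κ' ^ (n - m) ϱ`; so for `ϱ` small all the `R` are small, as required above. The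
process stops at a state `(m, c, R)` (or at the first one, `m = n`, `R = 2 ϱ`) where there is a branch `g` on
`ball (f^[m] z) R`, `g (f^[m] z) = z`; as `V` is preconnected, `V ⊆ g '' closedBall (f^[m] z) (2 R / 3)` (resp.
`g '' ball (f^[m] z) ϱ`; see the proof of `S_HITV`), so by Koebe (the constants in `W746.LD.Koebe` for
a smaller ball, use e.g. `R / 8` instead of `R / 3` above) `V ⊆ ball z (C ‖deriv g (f^[m] z)‖ R)`. Now use `S_UNI` for
`η / (2 C)`, it gives `ε` and `T`: if `m ≥ T` done. If `m < T` then `R ^ ℓ c ≤ C₅ κ' ^ (n - T) ϱ`, so `R ≤ ε` if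
`n ≥ N`, `N` large. -/
def S_SHRINK : Prop :=
  ∀ (f : ℂ → ℂ) (U K : Set ℂ) (Cr : Finset ℂ) (ℓ : ℂ → ℕ) (δ₀ Cp rp c₀ μ : ℝ),
    Sys f U K Cr ℓ δ₀ Cp rp c₀ μ → ∃ ϱ > (0 : ℝ), ∀ η > (0 : ℝ), ∃ N : ℕ, ∀ n ≥ N,
      ∀ z ∈ frontier K, ∀ V : Set ℂ, Conn f U n z ϱ V → V ⊆ ball z η

/-- **Orbits in the interior of `K` stay away from the frontier.** (Uses `S_NOCR`, `S_SHRINK`.)

Proof. With `ϱ` of `S_SHRINK`; let `N` be given by `S_SHRINK` for `η`, `n ≥ N`, `z ∈ interior K` with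
`infDist z (frontier K) > η`, and suppose `d = infDist w (frontier K) < ϱ / 2` for `w = f^[n] z`. Then
`w ∈ interior K`, `ball w d ⊆ interior K` (connected, disjoint from `frontier K`), let `x ∈ frontier K` with
`‖x - w‖ = d` (`K` is compact, its frontier is not empty). By `lift` (repeated; `deriv f ≠ 0` on `interior K`,
and preimages of points of `interior K` are in `interior K`, by `S_NOCR`) there is a branch `g` on `ball w d` of
the inverse of `f^[n]` with `g w = z` and values in `interior K`. Let `w_t = w + t (x - w)`, `t ∈ [0, 1)`. As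
`t → 1`, a subsequence of `g w_t` converges to a point `z' ∈ K`, with `f^[n] z' = x`, so `z' ∈ frontier K`. The
set `V = g '' ball w d ∪ {z'}` is connected and `Conn f U n z' ϱ V` (`f^[n]` maps it to `ball w d ∪ {x} ⊆ ball x ϱ`).
So `z ∈ ball z' η`, contradiction. -/
def S_DEEP : Prop :=
  ∀ (f : ℂ → ℂ) (U K : Set ℂ) (Cr : Finset ℂ) (ℓ : ℂ → ℕ) (δ₀ Cp rp c₀ μ : ℝ),
    Sys f U K Cr ℓ δ₀ Cp rp c₀ μ → ∃ ϱ > (0 : ℝ), ∀ η > (0 : ℝ), ∃ N : ℕ, ∀ n ≥ N,
      ∀ z ∈ interior K, η < infDist z (frontier K) → ϱ ≤ infDist (f^[n] z) (frontier K)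

/-- **Strict contraction** (Earle-Hamilton trick): a holomorphic self map of a bounded open set with
relatively compact image and a fixed point `q` has `‖ψ' q‖ < 1`.

Proof. `ψ_e z = ψ z + e (ψ z - q)` maps `Ω` to `Ω` for small `e > 0` (`C` is compact, `Ω` is open and bounded), so the
iterates of `ψ_e` are uniformly bounded on a ball around `q`, `ψ_e q = q` and `deriv ψ_e q = (1 + e) deriv ψ q`,
so `((1 + e) ‖deriv ψ q‖) ^ k` is bounded, by Cauchy's estimate. -/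
def S_EH : Prop :=
  ∀ (Ω C : Set ℂ) (ψ : ℂ → ℂ) (q : ℂ), IsOpen Ω → Bornology.IsBounded Ω → IsCompact C → C ⊆ Ω →
    DifferentiableOn ℂ ψ Ω → MapsTo ψ Ω C → q ∈ Ω → ψ q = q → ‖deriv ψ q‖ < 1

/-- **The interior of `K` is empty.** (Uses `S_NOCR`, `S_DEEP`, `S_EH`.)

Proof. Suppose `W = interior K` is not empty. `ϱ` from `S_DEEP`, `Ω = {z ∈ W | infDist z (frontier K) > ϱ / 2}` is
open and bounded, `Γ = {z ∈ K | infDist z (frontier K) ≥ ϱ}` is compact, contained in `Ω` (points of `K` with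
positive distance from the frontier are in `W`). For `z ∈ W` the points `w_n = f^[n] z` are in `Γ` for all large
`n`; let `w_{n_i} → q ∈ Γ`, with `m_i = n_{i+1} - n_i → ∞`. The maps `f^[m_i]` are holomorphic on `Ω` with values in
`K`; by Montel (in the library) a subsequence converges locally uniformly on `Ω` to `ψ`. It maps `Ω` to `Γ`
(`S_DEEP` with `η = ϱ / 2`), and `ψ q = q` since `f^[m_i] w_{n_i} = w_{n_{i+1}}`. By `S_EH` `‖deriv ψ q‖ < 1`. The
derivatives of `f^[m_i]` converge to `deriv ψ`, uniformly near `q`, so for large `i` the map `h = f^[m_i]`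
satisfies `‖deriv h‖ ≤ λ < 1` on `closedBall q s` and `‖h q - q‖ ≤ (1 - λ) s`: it is a contraction of this
ball and has a fixed point `p ∈ W`, `p = f^[m] p`, `m = m_i > 0`, `‖deriv f^[m] p‖ ≤ λ < 1`. But let
`ball p s' ⊆ W`; by `lift` (as in `S_DEEP`) there are branches `g_k` on `ball p s'` of the inverse of
`f^[m * k]` with `g_k p = p` and values in `K`; so `deriv f^[m] p ≠ 0` and
`‖deriv g_k p‖ = ‖deriv f^[m] p‖ ^ (-k) → ∞`, which contradicts Cauchy's estimate. -/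
def S_EMPTY : Prop :=
  ∀ (f : ℂ → ℂ) (U K : Set ℂ) (Cr : Finset ℂ) (ℓ : ℂ → ℕ) (δ₀ Cp rp c₀ μ : ℝ),
    Sys f U K Cr ℓ δ₀ Cp rp c₀ μ → interior K = ∅

end Pool.Agent.H211.AD
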